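import Mathlib

/-!
The Jacobian criterion in homogeneous coordinates, homogenisation and dominance.
-/

set_option autoImplicit false

namespace Pool.Agent.Q33.UR

open MvPolynomial

section jac

variable {k R : Type} [Field k] [CommRing R] [Algebra k R]

/-- the chain rule for derivations -/
theorem der_aeval {σ : Type} [Fintype σ] (D : Derivation k R R) (W : σ → R)
    (P : MvPolynomial σ k) : D (aeval W P) = ∑ l, aeval W (pderiv l P) * D (W l) := by
  classical
  induction P using MvPolynomial.induction_on with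
  | C a =>
    rw [algHom_C, D.map_algebraMap]
    simp
  | add p q hp hq =>
    simp only [map_add, add_mul, Finset.sum_add_distrib, hp, hq]
  | mul_X p j hp =>
    rw [map_mul, aeval_X, D.leibniz, hp]
    simp only [smul_eq_mul, pderiv_mul, map_add, map_mul, aeval_X, pderiv_X, add_mul,
      Finset.sum_add_distrib]
    have h1 : ∑ l, aeval W p * aeval W (Pi.single (M := fun _ => MvPolynomial σ k) l 1 j) *
        D (W l) = aeval W p * D (W j) := by
      rw [Finset.sum_eq_single j]
      · rw [Pi.single_eq_same, map_one, mul_one]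
      · intro l _ hl
        rw [Pi.single_eq_of_ne hl.symm, map_zero, mul_zero, zero_mul]
      · intro h
        exact absurd (Finset.mem_univ j) h
    rw [h1, Finset.mul_sum, add_comm]
    congr 1
    refine Finset.sum_congr rfl fun l _ => ?_
    ring

/-- **Jacobian criterion** in homogeneous coordinates. -/
theorem jac [IsDomain R] [CharZero k] {e : ℕ} (W : Fin (e + 1) → R)
    (D : Fin e → Derivation k R R) (hW0 : W 0 ≠ 0)
    (hdet : (Matrix.of fun i l : Fin e => D i (W l.succ) * W 0 - W l.succ * D i (W 0)).det ≠ 0)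
    (d : ℕ) : ∀ P : MvPolynomial (Fin (e + 1)) k, P.IsHomogeneous d → aeval W P = 0 → P = 0 := by
  induction d with
  | zero =>
    intro P hP h
    rw [← totalDegree_zero_iff_isHomogeneous, totalDegree_eq_zero_iff_eq_C] at hP
    rw [hP, algHom_C] at h
    have h1 := (map_eq_zero_iff (algebraMap k R) (algebraMap k R).injective).1 h
    rw [hP, h1, map_zero]
  | succ d ih =>
    intro P hP h
    have hE := hP.sum_X_mul_pderiv
    have hE' : ∑ l, W l * aeval W (pderiv l P) = 0 := by
      have h1 := congrArg (aeval W) hE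
      rw [map_sum, map_nsmul, h, smul_zero] at h1
      simpa only [map_mul, aeval_X] using h1
    have hD : ∀ i, ∑ l, aeval W (pderiv l P) * D i (W l) = 0 := by
      intro i
      rw [← der_aeval, h, map_zero]
    have hker : ∀ i, ∑ l : Fin e, (D i (W l.succ) * W 0 - W l.succ * D i (W 0)) *
        aeval W (pderiv l.succ P) = 0 := by
      intro i
      have h1 := hD i
      have h2 := hE'
      rw [Fin.sum_univ_succ] at h1 h2
      have h3 : ∑ l : Fin e, (D i (W l.succ) * W 0 - W l.succ * D i (W 0)) *
          aeval W (pderiv l.succ P) =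
          W 0 * (∑ l : Fin e, aeval W (pderiv l.succ P) * D i (W l.succ)) -
          D i (W 0) * ∑ l : Fin e, W l.succ * aeval W (pderiv l.succ P) := by
        rw [Finset.mul_sum, Finset.mul_sum, ← Finset.sum_sub_distrib]
        refine Finset.sum_congr rfl fun l _ => ?_
        ring
      rw [h3]
      linear_combination W 0 * h1 - D i (W 0) * h2
    have hz : (fun l : Fin e => aeval W (pderiv l.succ P)) = 0 := by
      apply Matrix.eq_zero_of_mulVec_eq_zero hdet
      funext i
      rw [Matrix.mulVec, dotProduct, Pi.zero_apply]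
      exact hker i
    have hz0 : aeval W (pderiv 0 P) = 0 := by
      rw [Fin.sum_univ_succ, Finset.sum_eq_zero (fun l _ => by
        have := congrFun hz l
        simp only [Pi.zero_apply] at this
        rw [this, mul_zero]), add_zero] at hE'
      exact (mul_eq_zero.1 hE').resolve_left hW0
    have hp : ∀ l, pderiv l P = 0 := by
      intro l
      apply ih
      · exact hP.pderiv
      · refine Fin.cases hz0 (fun l => congrFun hz l) l
    rw [Finset.sum_eq_zero (fun l _ => by rw [hp l, mul_zero])] at hE
    have h1 : (d + 1) • P = C ((d : k) + 1) * P := by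
      rw [nsmul_eq_mul]
      simp
    rw [h1] at hE
    have h2 : (C ((d : k) + 1) : MvPolynomial (Fin (e + 1)) k) ≠ 0 := by
      rw [Ne, C_eq_zero]
      exact Nat.cast_add_one_ne_zero d
    exact (mul_eq_zero.1 hE.symm).resolve_left h2

end jac

/-- homogenisation -/
theorem exists_hmg {A σ : Type} [CommSemiring A] [Finite σ] (F : MvPolynomial σ A) (j0 : σ) :
    ∃ (d : ℕ) (G : MvPolynomial σ A), G.IsHomogeneous d ∧
      ∀ {B : Type} [CommSemiring B] (φ : A →+* B) (x u : σ → B), (∀ j, x j = x j0 * u j) →
        eval₂ φ x G = x j0 ^ d * eval₂ φ u F := by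
  classical
  have := Fintype.ofFinite σ
  refine ⟨F.totalDegree, ∑ m ∈ F.support,
    monomial (m + Finsupp.single j0 (F.totalDegree - m.degree)) (coeff m F), ?_, ?_⟩
  · apply IsHomogeneous.sum
    intro m hm
    apply isHomogeneous_monomial
    have h1 : m.degree ≤ F.totalDegree := le_totalDegree hm
    rw [map_add, Finsupp.degree_single]
    omega
  · intro B _ φ x u hx
    rw [eval₂_sum]
    have h0 : eval₂ φ u F = ∑ m ∈ F.support, φ (coeff m F) * ∏ j, u j ^ m j := by
      rw [eval₂_eq']
    rw [h0, Finset.mul_sum]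
    refine Finset.sum_congr rfl fun m hm => ?_
    have h1 : m.degree ≤ F.totalDegree := le_totalDegree hm
    have h4 : ((m + Finsupp.single j0 (F.totalDegree - m.degree)).prod fun j k => x j ^ k) =
        (∏ j, x j ^ m j) * x j0 ^ (F.totalDegree - m.degree) := by
      rw [Finsupp.prod_add_index' (fun _ => pow_zero _) (fun _ _ _ => pow_add _ _ _),
        Finsupp.prod_single_index (h := fun j k => x j ^ k) (pow_zero _),
        Finsupp.prod_fintype _ _ (fun _ => pow_zero _)]
    rw [eval₂_monomial, h4]
    have h2 : ∏ j, x j ^ m j = x j0 ^ m.degree * ∏ j, u j ^ m j := by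
      rw [Finsupp.degree_eq_sum, ← Finset.prod_pow_eq_pow_sum, ← Finset.prod_mul_distrib]
      refine Finset.prod_congr rfl fun j _ => ?_
      rw [hx j, mul_pow]
    rw [h2]
    have h3 : x j0 ^ F.totalDegree = x j0 ^ m.degree * x j0 ^ (F.totalDegree - m.degree) := by
      rw [← pow_add, Nat.add_sub_cancel' h1]
    rw [h3]
    ring

/-- homogeneous and inhomogeneous independence -/
theorem indep_of_hom {A K : Type} [CommSemiring A] [Field K] (φ : A →+* K) {e : ℕ}
    (x : Fin (e + 1) → K) (hx0 : x 0 ≠ 0)
    (hx : ∀ (d : ℕ) (P : MvPolynomial (Fin (e + 1)) A), P.IsHomogeneous d → eval₂ φ x P = 0 → P = 0)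
    (P : MvPolynomial (Fin e) A) (hP : eval₂ φ (fun l => x l.succ / x 0) P = 0) : P = 0 := by
  obtain ⟨d, G, hG, h⟩ := exists_hmg (rename Fin.succ P) (0 : Fin (e + 1))
  have h1 := h φ x (fun j => x j / x 0) (fun j => by field_simp)
  rw [eval₂_rename] at h1
  have h2 : (fun j => x j / x 0) ∘ Fin.succ = fun l : Fin e => x l.succ / x 0 := rfl
  rw [h2, hP, mul_zero] at h1
  have h3 := hx d G hG h1
  have h4 := h (C : A →+* MvPolynomial (Fin e) A) (Fin.cons 1 X) (Fin.cons 1 X) (fun j => by
    rw [Fin.cons_zero, one_mul])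
  rw [h3, eval₂_zero, Fin.cons_zero, one_pow, one_mul, eval₂_rename] at h4
  have h5 : (Fin.cons 1 X : Fin (e + 1) → MvPolynomial (Fin e) A) ∘ Fin.succ = X := by
    funext l
    rw [Function.comp, Fin.cons_succ]
  rw [h5, eval₂_eta] at h4
  exact h4.symm

/-- A specialisation which is injective on a transcendence basis is injective. -/
theorem drop {k S K B κ : Type} [Field k] [CommRing S] [Algebra k S] [Field K] [Algebra k K]
    [CommRing B] [Algebra k B] (ψ : S →ₐ[k] K) (χ : S →ₐ[k] B)
    (hker : ∀ s, ψ s = 0 → χ s = 0) (x : κ → S)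
    (halg : Algebra.IsAlgebraic (Algebra.adjoin k (Set.range fun i => ψ (x i))) K)
    (hind : AlgebraicIndependent k fun i => χ (x i)) (s : S) (hs : χ s = 0) : ψ s = 0 := by
  classical
  by_contra hne
  obtain ⟨q, hq0, hq⟩ := (halg.isAlgebraic (ψ s)).exists_nonzero_coeff_and_aeval_eq_zero
    (mem_nonZeroDivisors_of_ne_zero hne)
  have h1 : ∀ r : Algebra.adjoin k (Set.range fun i => ψ (x i)), ∃ p : MvPolynomial κ k,
      (r : K) = ψ (aeval x p) := by
    intro r
    have hr : (r : K) ∈ (aeval fun i => ψ (x i) : MvPolynomial κ k →ₐ[k] K).range := by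
      rw [← Algebra.adjoin_range_eq_range_aeval]
      exact r.2
    obtain ⟨p, hp⟩ := hr
    refine ⟨p, ?_⟩
    have h2 := MvPolynomial.comp_aeval_apply (f := x) ψ p
    rw [h2]
    exact hp.symm
  choose P hP using h1
  have h2 : ψ (∑ i ∈ Finset.range (q.natDegree + 1), aeval x (P (q.coeff i)) * s ^ i) = 0 := by
    rw [map_sum, ← hq, Polynomial.aeval_eq_sum_range]
    refine Finset.sum_congr rfl fun i _ => ?_
    rw [map_mul, map_pow, ← hP, Algebra.smul_def]
    rfl
  have h3 := hker _ h2
  rw [map_sum, Finset.sum_range_succ'] at h3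
  simp only [map_mul, map_pow, hs, pow_succ, mul_zero, Finset.sum_const_zero, zero_add, pow_zero,
    mul_one] at h3
  have h4 := MvPolynomial.comp_aeval_apply (f := x) χ (P (q.coeff 0))
  rw [h4] at h3
  have h5 := (algebraicIndependent_iff.1 hind) _ h3
  apply hq0
  apply Subtype.ext
  rw [hP, h5, map_zero, map_zero]
  rfl

end Pool.Agent.Q33.UR
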