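import Pool.Agent.Q33.UR.Ent

/-!
Zariski-dense curves given by linear differential equations over a differential ring of
transcendence degree `c`.
-/

set_option autoImplicit false

namespace Pool.Agent.Q33.UR

open MvPolynomial Metric Set Filter Topology Pool.Agent.TH143 Pool.Agent.TH143.GT
open Pool.Agent.W602.GT (IsForm)
open Pool.Agent.Q33.OD (LinSys polyB)
open Pool.Agent.Q33.SP (Unirational)

variable {Ω : Set ℂ} {B : Subalgebra ℂ (ℂ → ℂ)} {N : ℕ}

/-- On `Ω` any `c + 1` functions in `B` are algebraically dependent over the complex numbers. -/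
def TrdegLe (Ω : Set ℂ) (B : Subalgebra ℂ (ℂ → ℂ)) (c : ℕ) : Prop :=
  ∀ b : Fin (c + 1) → ℂ → ℂ, (∀ i, b i ∈ B) →
    ∃ P : MvPolynomial (Fin (c + 1)) ℂ, P ≠ 0 ∧ ∀ z ∈ Ω, eval (fun i => b i z) P = 0

theorem trdeg_le_of {k A : Type} [Field k] [CommRing A] [Algebra k A] {c : ℕ}
    (h : ∀ b : Fin (c + 1) → A, ∃ P : MvPolynomial (Fin (c + 1)) k, P ≠ 0 ∧ aeval b P = 0) :
    Algebra.trdeg k A ≤ c := by
  classical
  refine ciSup_le' fun s => ?_
  by_contra hcon
  push Not at hcon
  have h1 : ((c + 1 : ℕ) : Cardinal) ≤ Cardinal.mk s.1 := by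
    have := Order.succ_le_of_lt hcon
    rwa [Cardinal.succ_natCast, ← Nat.cast_add_one] at this
  rw [← Cardinal.mk_fin, Cardinal.le_def] at h1
  obtain ⟨φ⟩ := h1
  obtain ⟨P, hP, hP0⟩ := h fun i => (φ i : A)
  have h2 : AlgebraicIndependent k fun i : Fin (c + 1) => ((φ i : s.1) : A) :=
    AlgebraicIndependent.comp s.2 φ φ.injective
  exact hP ((algebraicIndependent_iff.1 h2) P hP0)

/-- extending the base by a ring of transcendence degree at most `c` -/
theorem trdeg_drop_c {k A M : Type} [Field k] [CommRing A] [IsDomain A] [Algebra k A] [Field M]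
    [Algebra k M] [Algebra A M] [IsScalarTower k A M] (hinj : Function.Injective (algebraMap A M))
    {c : ℕ} (hA : Algebra.trdeg k A ≤ c) {w : ℕ} (g : Fin (w + c) → M)
    (hg : AlgebraicIndependent k g) :
    ∃ l : Fin w → Fin (w + c), AlgebraicIndependent A fun i => g (l i) := by
  classical
  let T : Subalgebra A M := Algebra.adjoin A (Set.range g)
  let g' : Fin (w + c) → T := fun l => ⟨g l, Algebra.subset_adjoin ⟨l, rfl⟩⟩
  have hg' : AlgebraicIndependent k g' := by
    have h1 : Function.Injective (T.val.restrictScalars k) := Subtype.val_injective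
    exact (AlgHom.algebraicIndependent_iff (T.val.restrictScalars k) h1).1 hg
  have hfs1 : FaithfulSMul k A := (faithfulSMul_iff_algebraMap_injective k A).2
    (algebraMap k A).injective
  have hAT : Function.Injective (algebraMap A T) := by
    intro a b h
    exact hinj (congrArg Subtype.val h)
  have hfs2 : FaithfulSMul A T := (faithfulSMul_iff_algebraMap_injective A T).2 hAT
  have halg : Algebra.IsAlgebraic (Algebra.adjoin A (Set.range g')) T := by
    have h1 : Algebra.adjoin A (Set.range g') = ⊤ := by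
      have h2 := Algebra.adjoin_adjoin_coe_preimage (R := A) (s := Set.range g)
      have h3 : (Subtype.val : T → M) ⁻¹' (Set.range g) = Set.range g' := by
        ext x
        constructor
        · rintro ⟨l, hl⟩
          exact ⟨l, Subtype.ext hl⟩
        · rintro ⟨l, rfl⟩
          exact ⟨l, rfl⟩
      rw [← h3]
      exact h2
    rw [h1]
    constructor
    intro x
    exact isAlgebraic_algebraMap (⟨x, trivial⟩ : (⊤ : Subalgebra A T))
  obtain ⟨t, hts, ht⟩ := exists_isTranscendenceBasis_subset (R := A) (Set.range g')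
  have h1 : Algebra.trdeg k A + Algebra.trdeg A T = Algebra.trdeg k T := trdeg_add_eq k A
  have h2 := hg'.cardinalMk_le_trdeg
  have h3 := ht.cardinalMk_eq_trdeg
  have hfin : Finite t := (Set.finite_range g').subset hts
  have hw : w ≤ Nat.card t := by
    rw [← h1, ← h3] at h2
    have h4 : Cardinal.mk (Fin (w + c)) ≤ c + Cardinal.mk t := h2.trans (by gcongr)
    rw [← Nat.cast_card (α := t), Cardinal.mk_fin] at h4
    have h5 : ((w + c : ℕ) : Cardinal) ≤ ((c + Nat.card t : ℕ) : Cardinal) := by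
      push_cast at h4 ⊢
      exact h4
    have h6 : w + c ≤ c + Nat.card t := by exact_mod_cast h5
    omega
  let ε : Fin w → t := fun i => (Finite.equivFin t).symm (Fin.castLE hw i)
  have hε : Function.Injective ε := fun i j h =>
    Fin.castLE_injective hw ((Finite.equivFin t).symm.injective h)
  choose l hl using fun i => hts (ε i).2
  refine ⟨l, ?_⟩
  have h4 : AlgebraicIndependent A fun i => ((ε i : T)) := ht.1.comp ε hε
  have h5 := (AlgHom.algebraicIndependent_iff T.val Subtype.val_injective).2 h4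
  have h6 : (T.val ∘ fun i => ((ε i : T))) = fun i => g (l i) := by
    funext i
    exact (congrArg Subtype.val (hl i)).symm
  rw [← h6]
  exact h5

/-- Zariski-dense curves have transcendence degree at least `w` over a ring of transcendence degree
`c`. -/
theorem codim_aux {p : Ideal (MvPolynomial (Fin (N + 1)) ℂ)} {Q : MvPolynomial (Fin (N + 1)) ℂ}
    {K : Type} [Field K] [Algebra ℂ K] {w c : ℕ} {y : Fin (N + 1) → K}
    (hy : FunField p Q K (w + c) y) {f : ℂ → Fin (N + 1) → ℂ}
    (hΩc : IsPreconnected Ω) (hne : Ω.Nonempty)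
    (hf : ∀ j, AnalyticOnNhd ℂ (fun w => f w j) Ω) (hd : ZDense p f Ω)
    {A : Type} [CommRing A] [IsDomain A] [Algebra ℂ A] (φ : A →ₐ[ℂ] Hol Ω)
    (hφi : Function.Injective φ) (htr : Algebra.trdeg ℂ A ≤ c)
    (hBA : ∀ b ∈ B, ∃ a : A, ∀ z : Ω, evz z (φ a) = b z) :
    ∃ j : Fin (w + 1) → Fin (N + 1), IndepOver Ω B fun z l => f z (j l) := by
  classical
  obtain ⟨i0, hi0⟩ := Function.ne_iff.1 hy.sub.ne
  have hy0 : y i0 ≠ 0 := hi0
  obtain ⟨jj, hjj⟩ := exists_coord_basis y i0 hy0 hy.sub.gen hy.sub.dim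
  -- the field of meromorphic functions
  have hdom : IsDomain (Hol Ω) := hol_domain hΩc hne
  let M := FractionRing (Hol Ω)
  have hM : Function.Injective (algebraMap (Hol Ω) M) := IsFractionRing.injective _ _
  let F : Fin (N + 1) → Hol Ω := fun i => toHol (fun z => f z i) (hf i)
  let _ : Algebra A M := ((algebraMap (Hol Ω) M).comp φ.toRingHom).toAlgebra
  have hst : IsScalarTower ℂ A M := IsScalarTower.of_algebraMap_eq' (by
    ext x
    change algebraMap ℂ M x = algebraMap (Hol Ω) M (φ (algebraMap ℂ A x))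
    have h1 : φ (algebraMap ℂ A x) = algebraMap ℂ (Hol Ω) x := φ.commutes x
    rw [h1, ← IsScalarTower.algebraMap_apply])
  have hAM : Function.Injective (algebraMap A M) := hM.comp hφi
  -- the coordinates
  let G : Fin (N + 1) → M := fun i => algebraMap (Hol Ω) M (F i)
  have hevF : ∀ (z : Ω) (i : Fin (N + 1)), evz z (F i) = f z i := fun z i => rfl
  have hG0 : G i0 ≠ 0 := by
    intro h0
    have h1 : F i0 = 0 := hM (by rw [map_zero]; exact h0)
    have h2 : X i0 ∈ p := hd _ ⟨1, isHomogeneous_X _ _⟩ (fun z hz => by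
      rw [eval_X, ← hevF ⟨z, hz⟩, h1, map_zero])
    have h3 := hy.sub.mem _ h2
    unfold Pool.Agent.W602.GT.val at h3
    rw [aeval_X] at h3
    exact hy0 h3
  have hGa : ∀ {τ : Type} (j : τ → Fin (N + 1)) (P : MvPolynomial τ ℂ),
      aeval (fun l => G (j l)) P = algebraMap (Hol Ω) M (aeval (fun l => F (j l)) P) :=
    fun j P => (MvPolynomial.comp_aeval_apply (f := fun l => F (j l))
      (IsScalarTower.toAlgHom ℂ (Hol Ω) M) P).symm
  have hgC : AlgebraicIndependent ℂ fun l : Fin (w + c) => G (jj l) / G i0 := by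
    rw [algebraicIndependent_iff]
    intro P hP
    refine indep_of_hom (algebraMap ℂ M)
      (fun l => G ((Fin.cons i0 jj : Fin (w + c + 1) → Fin (N + 1)) l)) hG0 ?_ P hP
    intro d R hR h
    have h1 : rename (Fin.cons i0 jj : Fin (w + c + 1) → Fin (N + 1)) R ∈ p := by
      apply hd _ ⟨d, hR.rename_isHomogeneous⟩
      intro z hz
      have h2 : aeval (fun l => F ((Fin.cons i0 jj : Fin (w + c + 1) → Fin (N + 1)) l)) R = 0 := by
        apply hM
        rw [map_zero, ← hGa]
        exact h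
      have h3 := congrArg (evz (⟨z, hz⟩ : Ω)) h2
      rw [map_zero, MvPolynomial.comp_aeval_apply] at h3
      rw [eval_rename]
      exact h3
    have h2 := hy.sub.mem _ h1
    unfold Pool.Agent.W602.GT.val at h2
    rw [aeval_rename] at h2
    exact hom_of_indep (fun l => y ((Fin.cons i0 jj : Fin (w + c + 1) → Fin (N + 1)) l)) hy0
      hjj.1 d R hR h2
  -- transcendence degrees
  obtain ⟨l, hl⟩ := trdeg_drop_c (A := A) hAM htr _ hgC
  refine ⟨Fin.cons i0 fun i => jj (l i), fun d P hP h0 a z hz => ?_⟩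
  choose q hq using fun a : Fin (w + 1) →₀ ℕ => hBA _ (coeff a P).2
  let R : MvPolynomial (Fin (w + 1)) A := ∑ a ∈ P.support, monomial a (q a)
  have hR : R.IsHomogeneous d := by
    apply IsHomogeneous.sum
    intro a ha
    apply isHomogeneous_monomial
    have h2 := hP (mem_support_iff.1 ha)
    rwa [Finsupp.degree_eq_weight_one]
  obtain ⟨j, hj⟩ : ∃ j : Fin (w + 1) → Fin (N + 1), j = Fin.cons i0 fun i => jj (l i) := ⟨_, rfl⟩
  rw [← hj] at h0
  have hR0 : aeval (fun i => G (j i)) R = 0 := by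
    have h1 : aeval (fun i => G (j i)) R = algebraMap (Hol Ω) M
        (∑ a ∈ P.support, φ (q a) * ∏ i, F (j i) ^ a i) := by
      simp only [R, map_sum, aeval_monomial, map_mul, map_prod, map_pow]
      refine Finset.sum_congr rfl fun a _ => ?_
      rw [Finsupp.prod_fintype _ _ (fun _ => pow_zero _)]
      rfl
    rw [h1]
    have h2 : ∑ a ∈ P.support, φ (q a) * ∏ i, F (j i) ^ a i = 0 := by
      apply hol_ext
      intro x
      rw [map_zero, map_sum]
      have h3 := h0 x x.2
      rw [eval₂_eq'] at h3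
      rw [← h3]
      refine Finset.sum_congr rfl fun a _ => ?_
      rw [map_mul, map_prod, evB_apply, hq a]
      simp only [map_pow, hevF]
    rw [h2, map_zero]
  have h1 : G (j 0) = G i0 := by
    rw [hj]
    rfl
  have h2 : (fun i : Fin w => G (j i.succ) / G (j 0)) = fun i => G (jj (l i)) / G i0 := by
    funext i
    rw [hj]
    rfl
  have h3 := hom_of_indep (k := A) (fun i => G (j i)) (by rw [h1]; exact hG0)
    (by rw [h2]; exact hl) d R hR hR0
  by_cases ha : a ∈ P.support
  · have h4 : coeff a R = q a := by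
      simp only [R, coeff_sum, coeff_monomial]
      rw [Finset.sum_ite_eq' P.support a q, if_pos ha]
    rw [h3, coeff_zero] at h4
    have h5 := hq a ⟨z, hz⟩
    rw [← h4, map_zero, map_zero] at h5
    exact h5.symm
  · rw [notMem_support_iff.1 ha]
    rfl

/-- Zariski-dense curves have transcendence degree at least `w` over `B`. -/
theorem codim_le {p : Ideal (MvPolynomial (Fin (N + 1)) ℂ)} {Q : MvPolynomial (Fin (N + 1)) ℂ}
    {K : Type} [Field K] [Algebra ℂ K] {w c : ℕ} {y : Fin (N + 1) → K}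
    (hy : FunField p Q K (w + c) y) {f : ℂ → Fin (N + 1) → ℂ}
    (hΩc : IsPreconnected Ω) (hne : Ω.Nonempty) (hB : DiffRing Ω B) (hc : TrdegLe Ω B c)
    (hf : ∀ j, AnalyticOnNhd ℂ (fun w => f w j) Ω) (hd : ZDense p f Ω) :
    ∃ j : Fin (w + 1) → Fin (N + 1), IndepOver Ω B fun z l => f z (j l) := by
  have hdom : IsDomain (Hol Ω) := hol_domain hΩc hne
  have hA : ∀ a : locAlg B 1 B.one_mem Ω fun _ _ => one_ne_zero, ∃ b ∈ B,
      ∀ z : Ω, evz z a.1 = b z := by
    intro a
    obtain ⟨b, hb, k, hk⟩ := a.2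
    refine ⟨b, hb, fun z => ?_⟩
    rw [hk, Pi.one_apply, one_pow, div_one]
  refine codim_aux (A := locAlg B 1 B.one_mem Ω fun _ _ => one_ne_zero) hy hΩc hne hf hd
    (Subalgebra.val _) Subtype.val_injective ?_ ?_
  · refine trdeg_le_of fun a => ?_
    choose b hb hba using fun i => hA (a i)
    obtain ⟨P, hP, hP0⟩ := hc b hb
    refine ⟨P, hP, ?_⟩
    apply Subtype.ext
    apply hol_ext
    intro z
    have h1 := MvPolynomial.comp_aeval_apply (f := a)
      (Subalgebra.val (locAlg B 1 B.one_mem Ω fun _ _ => one_ne_zero)) P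
    have h2 := MvPolynomial.comp_aeval_apply (f := fun i => (a i : Hol Ω)) (evz z) P
    have h3 : (fun i => evz z (a i : Hol Ω)) = fun i => b i z := funext fun i => hba i z
    rw [h3] at h2
    have h4 := hP0 z z.2
    change evz z (Subalgebra.val _ (aeval a P)) = evz z 0
    rw [map_zero, h1]
    exact h2.trans h4
  · intro b hb
    refine ⟨⟨toHol b (hB.an b hb), b, hb, 0, fun z => ?_⟩, fun z => rfl⟩
    rw [pow_zero, div_one]
    rfl

/-- The polynomials in `z` have transcendence degree one. -/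
theorem trdegLe_polyB : TrdegLe Ω polyB 1 := by
  intro b hb
  choose q hq using hb
  have h1 : ¬ AlgebraicIndependent ℂ q := by
    intro h
    have h2 := h.cardinalMk_le_trdeg
    rw [Polynomial.trdeg_of_isDomain, Cardinal.mk_fin] at h2
    have h3 : (2 : ℕ) ≤ 1 := by exact_mod_cast h2
    omega
  rw [algebraicIndependent_iff] at h1
  push Not at h1
  obtain ⟨P, hP, hP0⟩ := h1
  refine ⟨P, hP0, fun z _ => ?_⟩
  have h2 := congrArg (Polynomial.evalRingHom z) hP
  rw [map_zero] at h2
  have h3 := MvPolynomial.comp_aeval_apply (f := q)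
    (Polynomial.aeval z : Polynomial ℂ →ₐ[ℂ] ℂ) P
  have h4 : (fun i => (Polynomial.aeval z : Polynomial ℂ →ₐ[ℂ] ℂ) (q i)) = fun i => b i z := by
    funext i
    rw [hq i, Polynomial.coe_aeval_eq_eval]
  rw [h4, Polynomial.coe_aeval_eq_eval] at h3
  exact h3.symm.trans h2

theorem bot_ring : DiffRing univ (⊥ : Subalgebra ℂ (ℂ → ℂ)) := by
  refine ⟨?_, ?_⟩
  · intro b hb
    obtain ⟨c, rfl⟩ := Algebra.mem_bot.1 hb
    exact analyticOnNhd_const
  · intro b hb
    obtain ⟨c, rfl⟩ := Algebra.mem_bot.1 hb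
    exact ⟨0, Subalgebra.zero_mem _, fun z _ => hasDerivAt_const z c⟩

theorem trdegLe_bot : TrdegLe Ω (⊥ : Subalgebra ℂ (ℂ → ℂ)) 0 := by
  intro b hb
  obtain ⟨c, hc⟩ := Algebra.mem_bot.1 (hb 0)
  refine ⟨X 0 - C c, fun h => ?_, fun z _ => ?_⟩
  · have h1 := congrArg (eval fun _ => c + 1) h
    simp at h1
  · rw [map_sub, eval_X, eval_C, ← hc]
    exact sub_self c

theorem zdense_of_nonDeg {p : Ideal (MvPolynomial (Fin (N + 1)) ℂ)} {f : ℂ → Fin (N + 1) → ℂ}
    (hne : Ω.Nonempty) (h : NonDeg Ω B p f) : ZDense p f Ω := by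
  rintro H ⟨d, hH⟩ h0
  obtain ⟨z, hz⟩ := hne
  have h1 : ∀ z, (evB B z).comp (algebraMap ℂ B) = RingHom.id ℂ := fun z => by
    ext c
    rfl
  have h2 := h d (map (algebraMap ℂ B) H) (hH.map _) (fun z hz => by
    rw [eval₂_map, h1]
    exact h0 z hz) z hz
  rwa [MvPolynomial.map_map, h1, MvPolynomial.map_id] at h2

end Pool.Agent.Q33.UR
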