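import Pool.Agent.Q33.UR.Main

/-!
Unirational varieties contain nondegenerate entire curves given by exponential sums.
-/

set_option autoImplicit false

namespace Pool.Agent.Q33.UR

open MvPolynomial Metric Set Filter Topology Pool.Agent.TH143 Pool.Agent.TH143.GT
open Pool.Agent.W602.GT (IsForm)
open Pool.Agent.Q33.OD (LinSys polyB)
open Pool.Agent.Q33.SP (Unirational exists_free)

variable {Ω : Set ℂ} {B : Subalgebra ℂ (ℂ → ℂ)} {N : ℕ}

/-- The coordinates of `f` are linear combinations with constant coefficients of `r` exponential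
functions `exp (μ z)` with constants `μ`. -/
def ExpSum (r : ℕ) (f : ℂ → Fin (N + 1) → ℂ) : Prop :=
  ∃ (μ : Fin r → ℂ) (c : Fin r → Fin (N + 1) → ℂ), ∀ z i, f z i = ∑ j, c j i * Complex.exp (μ j * z)

theorem ExpSum.diff {r : ℕ} {f : ℂ → Fin (N + 1) → ℂ} (h : ExpSum r f) (i : Fin (N + 1)) :
    Differentiable ℂ fun z => f z i := by
  obtain ⟨μ, c, h⟩ := h
  have h1 : (fun z => f z i) = fun z => ∑ j, c j i * Complex.exp (μ j * z) := funext fun z => h z i
  rw [h1]
  fun_prop

/-- exponential sums satisfy linear differential equations with constant coefficients -/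
theorem ExpSum.linSys {r : ℕ} {f : ℂ → Fin (N + 1) → ℂ} (h : ExpSum r f) : LinSys r Ω B f ∨ Ω = ∅ := by
  rcases Ω.eq_empty_or_nonempty with h0 | ⟨z0, hz0⟩
  · exact Or.inr h0
  left
  obtain ⟨μ, c, h⟩ := h
  refine ⟨r, fun _ => 1, fun i k _ => if i = k then μ i else 0, fun j k _ => c k j,
    fun z k => Complex.exp (μ k * z), le_rfl, B.one_mem, ⟨z0, hz0, one_ne_zero⟩, ?_, ?_, ?_⟩
  · intro i k
    exact B.algebraMap_mem _
  · intro j k
    exact B.algebraMap_mem _
  · intro z _ _
    refine ⟨fun i => ?_, fun j => h z j⟩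
    have h1 := ((hasDerivAt_id z).const_mul (μ i)).cexp
    refine h1.congr_deriv ?_
    simp only [ite_mul, zero_mul, Finset.sum_ite_eq, Finset.mem_univ, if_true, div_one, id, mul_one]
    ring

theorem eval_poly_X0 {m : ℕ} (x : Fin (m + 1) → ℂ) (q : Polynomial ℂ) :
    eval x (Polynomial.aeval (X 0 : MvPolynomial (Fin (m + 1)) ℂ) q) = q.eval (x 0) := by
  rw [Polynomial.aeval_def, Polynomial.hom_eval₂]
  have h1 : (eval x).comp (algebraMap ℂ (MvPolynomial (Fin (m + 1)) ℂ)) = RingHom.id ℂ := by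
    ext c
    simp
  rw [h1, eval_X, Polynomial.eval₂_id]

theorem exp_of_unirational {p : Ideal (MvPolynomial (Fin (N + 1)) ℂ)}
    {Q : MvPolynomial (Fin (N + 1)) ℂ}
    {K : Type} [Field K] [Algebra ℂ K] {w : ℕ} {y : Fin (N + 1) → K} (hy : FunField p Q K w y)
    (h : Unirational y) : ∃ (r : ℕ) (f : ℂ → Fin (N + 1) → ℂ), ExpSum r f ∧
      (∀ z, ∀ H ∈ p, IsForm H → eval (f z) H = 0) ∧ NonDeg univ polyB p f := by
  classical
  obtain ⟨m, W, hW⟩ := h
  obtain ⟨l, hl⟩ := exists_free m
  let θ : ℂ → Fin m → ℂ := fun z a => Complex.exp (l a * z)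
  let f : ℂ → Fin (N + 1) → ℂ := fun z i => eval (θ z) (W i)
  have hev : ∀ (t : Fin m → ℂ) (H : MvPolynomial (Fin (N + 1)) ℂ),
      eval t (aeval W H) = eval (fun i => eval t (W i)) H := by
    intro t H
    exact MvPolynomial.comp_aeval_apply (f := W) (aeval t : MvPolynomial (Fin m) ℂ →ₐ[ℂ] ℂ) H
  -- the exponential sum
  let S : Finset (Fin m →₀ ℕ) := Finset.univ.biUnion fun i => (W i).support
  let r := S.card
  let σ : Fin r ≃ S := S.equivFin.symm
  have hsum : ExpSum r f := by
    refine ⟨fun j => ∑ a, l a * ((σ j : Fin m →₀ ℕ) a : ℂ),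
      fun j i => coeff (σ j : Fin m →₀ ℕ) (W i), fun z i => ?_⟩
    change eval (θ z) (W i) = _
    rw [eval_eq']
    rw [Finset.sum_subset (Finset.subset_biUnion_of_mem (fun i => (W i).support)
      (Finset.mem_univ i)) (fun m _ hm => by rw [notMem_support_iff.1 hm, zero_mul])]
    change ∑ m ∈ S, _ = _
    rw [← Finset.sum_coe_sort S, ← Equiv.sum_comp σ]
    refine Finset.sum_congr rfl fun j _ => ?_
    congr 1
    rw [Finset.sum_mul, Complex.exp_sum]
    refine Finset.prod_congr rfl fun a _ => ?_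
    simp only [θ]
    rw [← Complex.exp_nat_mul]
    congr 1
    ring
  refine ⟨r, f, hsum, ?_, ?_⟩
  · intro z H hH hF
    have h1 := (hW H hF).1 (hy.sub.mem H hH)
    have h2 := hev (θ z) H
    rw [h1, map_zero] at h2
    exact h2.symm
  · intro d P hP h0 z _
    choose q hq using fun a : Fin (N + 1) →₀ ℕ => (coeff a P).2
    let R : MvPolynomial (Fin (m + 1)) ℂ := ∑ a ∈ P.support,
      Polynomial.aeval (X 0) (q a) * ∏ i, (rename Fin.succ (W i)) ^ a i
    have hRe : ∀ x : Fin (m + 1) → ℂ, eval x R = ∑ a ∈ P.support,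
        (q a).eval (x 0) * ∏ i, (eval (fun b => x b.succ) (W i)) ^ a i := by
      intro x
      simp only [R, map_sum, map_mul, map_prod, map_pow, eval_poly_X0, eval_rename]
      rfl
    have hPe : ∀ (z : ℂ) (x : Fin (N + 1) → ℂ), eval₂ (evB polyB z) x P =
        ∑ a ∈ P.support, (q a).eval z * ∏ i, x i ^ a i := by
      intro z x
      rw [eval₂_eq']
      refine Finset.sum_congr rfl fun a _ => ?_
      congr 1
      rw [evB_apply, hq a]
    have hR0 : ∀ t, eval (vecl l t) R = 0 := by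
      intro t
      have h1 := h0 t (mem_univ t)
      rw [hPe] at h1
      rw [hRe]
      exact h1
    have hform : (MvPolynomial.map (evB polyB z) P).IsHomogeneous d := hP.map _
    apply hy.mem _ ⟨d, hform⟩
    rw [hW _ ⟨d, hform⟩]
    apply zero_of_tor
    intro t ht
    rw [hev, eval_map, hPe]
    have h1 := core_tor hl R hR0 (Fin.cons z t) (fun a => by rw [Fin.cons_succ]; exact ht a)
    rw [hRe] at h1
    simp only [Fin.cons_zero, Fin.cons_succ] at h1
    exact h1

end Pool.Agent.Q33.UR
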