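import Pool.Agent.Q33.UR.Codim

/-!
Descent of unirational parametrisations to finite extensions of a field of definition.
-/

set_option autoImplicit false

namespace Pool.Agent.Q33.UR

open MvPolynomial Set
open Pool.Agent.TH143 Pool.Agent.TH143.GT
open Pool.Agent.W602.GT (IsForm)

theorem exists_emb {k E : Type} [Field k] [Algebra k ℂ] [Field E] [Algebra k E]
    (hfin : Module.Finite k E) : ∃ (φ : E →ₐ[k] ℂ) (L : IntermediateField k ℂ),
      FiniteDimensional k L ∧ ∀ a, φ a ∈ L := by
  have halg : Algebra.IsAlgebraic k E := Algebra.IsAlgebraic.of_finite k E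
  let φ : E →ₐ[k] ℂ := IsAlgClosed.lift
  refine ⟨φ, φ.fieldRange, ?_, fun a => ⟨_, rfl⟩⟩
  have hfd : FiniteDimensional k E := hfin
  exact Module.Finite.of_surjective φ.rangeRestrict.toLinearMap φ.rangeRestrict_surjective

/-- finitely generated algebras have points over finite extensions -/
theorem exists_hom {k : Type} [Field k] [Algebra k ℂ] (S : Finset ℂ) :
    ∃ (ψ : Algebra.adjoin k (S : Set ℂ) →ₐ[k] ℂ) (L : IntermediateField k ℂ),
      FiniteDimensional k L ∧ ∀ a, ψ a ∈ L := by
  classical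
  set A := Algebra.adjoin k (S : Set ℂ) with hA
  have hft : Algebra.FiniteType k A :=
    (Subalgebra.fg_iff_finiteType A).1 ⟨S, rfl⟩
  obtain ⟨m, hm⟩ := Ideal.exists_maximal A
  let _ : Field (A ⧸ m) := Ideal.Quotient.field m
  have hfin : Module.Finite k (A ⧸ m) := finite_of_finite_type_of_isJacobsonRing k (A ⧸ m)
  obtain ⟨φ, L, hL, hφ⟩ := exists_emb (k := k) (E := A ⧸ m) hfin
  exact ⟨φ.comp (Ideal.Quotient.mkₐ k m), L, hL, fun a => hφ _⟩

/-- constant vector fields and changes of the base ring -/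
theorem map_der {A A' σ : Type} [CommRing A] [CommRing A'] (φ : A →+* A') (u : σ → A)
    (P : MvPolynomial σ A) :
    MvPolynomial.map φ (mkDerivation A (fun a => (C (u a) : MvPolynomial σ A)) P) =
      mkDerivation A' (fun a => (C (φ (u a)) : MvPolynomial σ A')) (MvPolynomial.map φ P) := by
  induction P using MvPolynomial.induction_on with
  | C c => simp
  | add p q hp hq => rw [map_add, map_add, hp, hq, map_add, map_add]
  | mul_X p i hp =>
    rw [Derivation.leibniz, map_add, map_mul, Derivation.leibniz]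
    simp only [smul_eq_mul, map_mul, mkDerivation_X, map_X, map_C, hp]

/-- polynomials with coefficients in a subalgebra -/
theorem exists_over {k A σ : Type} [CommRing k] [CommRing A] [Algebra k A] (T : Subalgebra k A)
    (P : MvPolynomial σ A) (h : ∀ m, coeff m P ∈ T) :
    ∃ P' : MvPolynomial σ T, MvPolynomial.map (T.val : T →+* A) P' = P := by
  classical
  refine ⟨∑ m ∈ P.support, monomial m ⟨coeff m P, h m⟩, ?_⟩
  rw [map_sum]
  conv_rhs => rw [P.as_sum]
  refine Finset.sum_congr rfl fun m _ => ?_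
  rw [map_monomial]
  rfl

/-- **Descent.** A parametrisation of a piece of a variety over `k` with a nonvanishing Jacobian can be
replaced by one over a finite extension of `k`. -/
theorem descend {k : Type} [Field k] [Algebra k ℂ] {N e : ℕ} {ι : Type}
    (F : ι → MvPolynomial (Fin (N + 1)) k) {j : Fin (e + 1) → Fin (N + 1)}
    {κ : Type} [Fintype κ] {W : Fin (N + 1) → MvPolynomial κ ℂ} {x0 : κ → ℂ}
    {u : Fin e → κ → ℂ} (hF : ∀ i, aeval W (F i) = 0)
    (hdet : (Matrix.of fun i l : Fin e =>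
      eval x0 (mkDerivation ℂ (fun a => C (u i a)) (W (j l.succ))) * eval x0 (W (j 0)) -
        eval x0 (W (j l.succ)) * eval x0 (mkDerivation ℂ (fun a => C (u i a)) (W (j 0)))).det ≠ 0)
    (h0 : eval x0 (W (j 0)) ≠ 0) :
    ∃ (L : IntermediateField k ℂ) (W' : Fin (N + 1) → MvPolynomial κ ℂ) (x0' : κ → ℂ)
      (u' : Fin e → κ → ℂ), FiniteDimensional k L ∧ (∀ i m, coeff m (W' i) ∈ L) ∧
      (∀ i, aeval W' (F i) = 0) ∧ eval x0' (W' (j 0)) ≠ 0 ∧
      (Matrix.of fun i l : Fin e =>
        eval x0' (mkDerivation ℂ (fun a => C (u' i a)) (W' (j l.succ))) * eval x0' (W' (j 0)) -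
          eval x0' (W' (j l.succ)) *
            eval x0' (mkDerivation ℂ (fun a => C (u' i a)) (W' (j 0)))).det ≠ 0 := by
  classical
  set δ := (Matrix.of fun i l : Fin e =>
      eval x0 (mkDerivation ℂ (fun a => C (u i a)) (W (j l.succ))) * eval x0 (W (j 0)) -
        eval x0 (W (j l.succ)) *
          eval x0 (mkDerivation ℂ (fun a => C (u i a)) (W (j 0)))).det with hδ
  let S : Finset ℂ := ((Finset.univ.biUnion fun i => (W i).support.image fun m => coeff m (W i)) ∪
    (Finset.univ.image x0) ∪ (Finset.univ.image fun p : Fin e × κ => u p.1 p.2)) ∪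
      {(δ * eval x0 (W (j 0)))⁻¹}
  obtain ⟨ψ, L, hL, hψ⟩ := exists_hom (k := k) S
  have hS : ∀ c ∈ S, c ∈ Algebra.adjoin k (S : Set ℂ) := fun c hc => Algebra.subset_adjoin hc
  have hW : ∀ i m, coeff m (W i) ∈ Algebra.adjoin k (S : Set ℂ) := by
    intro i m
    by_cases hm : m ∈ (W i).support
    · apply hS
      simp only [S, Finset.mem_union, Finset.mem_biUnion, Finset.mem_image]
      exact Or.inl (Or.inl (Or.inl ⟨i, Finset.mem_univ i, m, hm, rfl⟩))
    · rw [notMem_support_iff.1 hm]
      exact Subalgebra.zero_mem _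
  have hx : ∀ a, x0 a ∈ Algebra.adjoin k (S : Set ℂ) := by
    intro a
    apply hS
    simp only [S, Finset.mem_union, Finset.mem_image]
    exact Or.inl (Or.inl (Or.inr ⟨a, Finset.mem_univ a, rfl⟩))
  have hu : ∀ i a, u i a ∈ Algebra.adjoin k (S : Set ℂ) := by
    intro i a
    apply hS
    simp only [S, Finset.mem_union, Finset.mem_image]
    exact Or.inl (Or.inr ⟨(i, a), Finset.mem_univ _, rfl⟩)
  have hd : (δ * eval x0 (W (j 0)))⁻¹ ∈ Algebra.adjoin k (S : Set ℂ) := by
    apply hS
    simp only [S, Finset.mem_union, Finset.mem_singleton]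
    exact Or.inr trivial
  generalize Algebra.adjoin k (S : Set ℂ) = T at *
  choose WA hWA using fun i => exists_over T (W i) (hW i)
  let xA : κ → T := fun a => ⟨x0 a, hx a⟩
  let uA : Fin e → κ → T := fun i a => ⟨u i a, hu i a⟩
  -- evaluation
  have hev : ∀ (φ : T →+* ℂ) (P : MvPolynomial κ T), φ (eval xA P) =
      eval (fun a => φ (xA a)) (MvPolynomial.map φ P) := by
    intro φ P
    rw [eval_map, ← coe_eval₂Hom, ← RingHom.comp_apply]
    congr 1
    ext1
    · ext c
      simp
    · simp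
  let MA : Matrix (Fin e) (Fin e) T := Matrix.of fun i l =>
    eval xA (mkDerivation T (fun a => C (uA i a)) (WA (j l.succ))) * eval xA (WA (j 0)) -
        eval xA (WA (j l.succ)) * eval xA (mkDerivation T (fun a => C (uA i a)) (WA (j 0)))
  have hdetA : ∀ φ : T →+* ℂ, φ MA.det = (Matrix.of fun i l : Fin e =>
      eval (fun a => φ (xA a)) (mkDerivation ℂ (fun a => C (φ (uA i a)))
        (MvPolynomial.map φ (WA (j l.succ)))) * eval (fun a => φ (xA a))
        (MvPolynomial.map φ (WA (j 0))) -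
        eval (fun a => φ (xA a)) (MvPolynomial.map φ (WA (j l.succ))) *
          eval (fun a => φ (xA a)) (mkDerivation ℂ (fun a => C (φ (uA i a)))
            (MvPolynomial.map φ (WA (j 0))))).det := by
    intro φ
    rw [RingHom.map_det]
    congr 1
    ext i l
    simp only [MA, RingHom.mapMatrix_apply, Matrix.map_apply, Matrix.of_apply, map_sub, map_mul,
      hev, map_der]
  have hunit : MA.det * eval xA (WA (j 0)) * ⟨_, hd⟩ = 1 := by
    apply Subtype.ext
    have h1 : ((MA.det : T) : ℂ) = δ := by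
      have h2 := hdetA (T.val : T →+* ℂ)
      simp only [hWA] at h2
      exact h2
    have h3 : ((eval xA (WA (j 0)) : T) : ℂ) = eval x0 (W (j 0)) := by
      have h4 := hev (T.val : T →+* ℂ) (WA (j 0))
      rw [hWA] at h4
      exact h4
    change ((MA.det : T) : ℂ) * ((eval xA (WA (j 0)) : T) : ℂ) * (δ * eval x0 (W (j 0)))⁻¹ = 1
    rw [h1, h3]
    exact mul_inv_cancel₀ (mul_ne_zero hdet h0)
  have hunit' := congrArg ψ hunit
  rw [map_one, map_mul, map_mul] at hunit'
  have hne := left_ne_zero_of_mul (hunit'.symm ▸ one_ne_zero :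
    ψ MA.det * ψ (eval xA (WA (j 0))) * ψ ⟨_, hd⟩ ≠ 0)
  refine ⟨L, fun i => MvPolynomial.map (ψ : T →+* ℂ) (WA i), fun a => ψ (xA a),
    fun i a => ψ (uA i a), hL, fun i m => ?_, fun i => ?_, ?_, ?_⟩
  · rw [coeff_map]
    exact hψ _
  · have h1 : aeval WA (F i) = 0 := by
      apply MvPolynomial.map_injective (T.val : T →+* ℂ) Subtype.val_injective
      rw [map_zero]
      have h2 := MvPolynomial.comp_aeval_apply (f := WA)
        (MvPolynomial.mapAlgHom T.val : MvPolynomial κ T →ₐ[k] MvPolynomial κ ℂ) (F i)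
      have h3 : (fun i => (MvPolynomial.mapAlgHom T.val : MvPolynomial κ T →ₐ[k] MvPolynomial κ ℂ)
          (WA i)) = W := funext hWA
      rw [h3, hF i] at h2
      exact h2
    have h2 := MvPolynomial.comp_aeval_apply (f := WA)
      (MvPolynomial.mapAlgHom ψ : MvPolynomial κ T →ₐ[k] MvPolynomial κ ℂ) (F i)
    rw [h1, map_zero] at h2
    exact h2.symm
  · have h1 := hev (ψ : T →+* ℂ) (WA (j 0))
    intro h2
    exact right_ne_zero_of_mul hne (h1.trans h2)
  · have h1 := hdetA (ψ : T →+* ℂ)
    intro h2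
    exact left_ne_zero_of_mul hne (h1.trans h2)

/-- The homogeneous coordinates `x` are those of a point over `L` of the projective variety given by
the forms `F i`. -/
def IsPt {k : Type} [Field k] [Algebra k ℂ] {N : ℕ} {ι : Type} (L : IntermediateField k ℂ)
    (F : ι → MvPolynomial (Fin (N + 1)) k) (x : Fin (N + 1) → ℂ) : Prop :=
  x ≠ 0 ∧ (∀ i, x i ∈ L) ∧ ∀ i, aeval x (F i) = 0

/-- polynomials with coefficients in a subfield -/
theorem exists_overL {k σ : Type} [Field k] [Algebra k ℂ] (L : IntermediateField k ℂ)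
    (P : MvPolynomial σ ℂ) (h : ∀ m, coeff m P ∈ L) :
    ∃ P' : MvPolynomial σ L, MvPolynomial.map (algebraMap L ℂ) P' = P := by
  classical
  refine ⟨∑ m ∈ P.support, monomial m ⟨coeff m P, h m⟩, ?_⟩
  rw [map_sum]
  conv_rhs => rw [P.as_sum]
  refine Finset.sum_congr rfl fun m _ => ?_
  rw [map_monomial]
  rfl

/-- descent of covers -/
theorem descend_cover {k : Type} [Field k] [Algebra k ℂ] {N e : ℕ} {ι : Type}
    (F : ι → MvPolynomial (Fin (N + 1)) k) (hF : ∀ i, ∃ d, (F i).IsHomogeneous d)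
    {I : MvPolynomial (Fin (N + 1)) ℂ → Prop}
    (hI : ∀ i, I (MvPolynomial.map (algebraMap k ℂ) (F i))) {j : Fin (e + 1) → Fin (N + 1)}
    {x : Fin (N + 1) → ℂ} (hx0 : x (j 0) ≠ 0) (h : Cover I j x) :
    ∃ L : IntermediateField k ℂ, FiniteDimensional k L ∧
      ∃ (m : ℕ) (W : Fin (N + 1) → MvPolynomial (Fin m) L), (∀ i, aeval W (F i) = 0) ∧
        (∃ x', x' (j 0) ≠ 0 ∧ Cover (fun H => ∀ t : Fin (N + 1) → ℂ,
          (∀ i, aeval t (F i) = 0) → eval t H = 0) j x') ∧
        (∀ (d : ℕ) (H : MvPolynomial (Fin (N + 1)) ℂ), H.IsHomogeneous d →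
          (∀ t : Fin (N + 1) → ℂ, (∀ i, aeval t (F i) = 0) → eval t H = 0) →
          aeval (fun i => MvPolynomial.map (algebraMap L ℂ) (W i)) H = 0) ∧
        (∀ {w : ℕ} {K : Type} [Field K] [Algebra ℂ K] {y : Fin (N + 1) → K}, e = w →
          y (j 0) ≠ 0 → (IsTranscendenceBasis ℂ fun l : Fin e => y (j l.succ) / y (j 0)) →
          (∀ (d : ℕ) (H : MvPolynomial (Fin (N + 1)) ℂ), H.IsHomogeneous d → aeval y H = 0 →
            ∀ t : Fin (N + 1) → ℂ, (∀ i, aeval t (F i) = 0) → eval t H = 0) →
          ∀ (d : ℕ) (H : MvPolynomial (Fin (N + 1)) ℂ), H.IsHomogeneous d →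
            aeval (fun i => MvPolynomial.map (algebraMap L ℂ) (W i)) H = 0 → aeval y H = 0) ∧
        NoRel fun l => MvPolynomial.map (algebraMap L ℂ) (W (j l)) := by
  classical
  obtain ⟨κ, iκ, W, x0, u, h1, h2, h3⟩ := h
  have hFW : ∀ i, aeval W (F i) = 0 := by
    intro i
    obtain ⟨d, hd⟩ := hF i
    have h4 := h2 d _ (hd.map _) (hI i)
    rwa [aeval_map_algebraMap] at h4
  obtain ⟨L, W', x0', u', hL, hco, hFW', h0', hdet'⟩ := descend F (j := j) (W := W) (x0 := x0)
    (u := u) hFW (by simpa only [h1] using h3) (by rwa [h1])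
  choose WL hWL using fun i => exists_overL L (W' i) (hco i)
  let σ := Fintype.equivFin κ
  have hren : ∀ i, MvPolynomial.map (algebraMap L ℂ) (rename σ (WL i)) = rename σ (W' i) := by
    intro i
    rw [map_rename, hWL]
  have hrel : ∀ (d : ℕ) (H : MvPolynomial (Fin (N + 1)) ℂ), H.IsHomogeneous d →
      (∀ t : Fin (N + 1) → ℂ, (∀ i, aeval t (F i) = 0) → eval t H = 0) → aeval W' H = 0 := by
    intro d H _ hH
    apply MvPolynomial.funext
    intro t
    rw [map_zero]
    have h4 := MvPolynomial.comp_aeval_apply (f := W')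
      (aeval t : MvPolynomial κ ℂ →ₐ[ℂ] ℂ) H
    refine h4.trans (hH _ fun i => ?_)
    have h5 := MvPolynomial.comp_aeval_apply (f := W')
      ((aeval t : MvPolynomial κ ℂ →ₐ[ℂ] ℂ).restrictScalars k) (F i)
    rw [hFW', map_zero] at h5
    exact h5.symm
  have hrn : ∀ {τ : Type} (V : τ → MvPolynomial κ ℂ) (H : MvPolynomial τ ℂ),
      aeval (fun i => rename σ (V i)) H = rename σ (aeval V H) := fun V H =>
    (MvPolynomial.comp_aeval_apply (f := V) (rename σ : MvPolynomial κ ℂ →ₐ[ℂ] _) H).symm
  refine ⟨L, hL, Fintype.card κ, fun i => rename σ (WL i), fun i => ?_, ?_, ?_, ?_, ?_⟩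
  · have h4 : aeval WL (F i) = 0 := by
      apply MvPolynomial.map_injective (algebraMap L ℂ) (algebraMap L ℂ).injective
      rw [map_zero]
      have h5 := MvPolynomial.comp_aeval_apply (f := WL)
        (MvPolynomial.mapAlgHom (IsScalarTower.toAlgHom k L ℂ) :
          MvPolynomial κ L →ₐ[k] MvPolynomial κ ℂ) (F i)
      have h6 : (fun i => (MvPolynomial.mapAlgHom (IsScalarTower.toAlgHom k L ℂ) :
          MvPolynomial κ L →ₐ[k] MvPolynomial κ ℂ) (WL i)) = W' := funext hWL
      rw [h6, hFW' i] at h5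
      exact h5
    have h5 := MvPolynomial.comp_aeval_apply (f := WL)
      ((rename σ : MvPolynomial κ L →ₐ[L] _).restrictScalars k) (F i)
    rw [h4, map_zero] at h5
    exact h5.symm
  · exact ⟨fun i => eval x0' (W' i), h0', κ, iκ, W', x0', u', fun i => rfl, hrel, hdet'⟩
  · intro d H hH h4
    simp only [hren]
    rw [hrn, hrel d H hH h4, map_zero]
  · rintro w K _ _ y rfl hy0 hbas hy d H hH h4
    simp only [hren] at h4
    rw [hrn, map_eq_zero_iff _ (rename_injective _ σ.injective)] at h4
    refine dom (k := ℂ) y (j 0) hy0 (fun l => j l.succ) hbas W'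
      (fun d H hH h0 => hrel d H hH (hy d H hH h0)) (by
        intro h0
        apply h0'
        rw [h0, map_zero]) (fun i => mkDerivation ℂ (fun a => C (u' i a))) (by
        intro h0
        apply hdet'
        have h4 := congrArg (eval x0') h0
        rw [map_zero, RingHom.map_det] at h4
        rw [← h4]
        congr 1
        ext i l
        simp only [RingHom.mapMatrix_apply, Matrix.map_apply, Matrix.of_apply, map_sub,
          map_mul]) d H hH h4
  · intro d P hP h4
    simp only [hren] at h4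
    rw [hrn, map_eq_zero_iff _ (rename_injective _ σ.injective)] at h4
    refine jac (fun l => W' (j l)) (fun i => mkDerivation ℂ (fun a => C (u' i a))) ?_ ?_ d P hP h4
    · intro h5
      apply h0'
      rw [h5, map_zero]
    · intro h4
      apply hdet'
      have h5 := congrArg (eval x0') h4
      rw [map_zero, RingHom.map_det] at h5
      rw [← h5]
      congr 1
      ext i l
      simp only [RingHom.mapMatrix_apply, Matrix.map_apply, Matrix.of_apply, map_sub, map_mul]

/-- rational points on unirational varieties -/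
theorem exists_pt {k : Type} [Field k] [Algebra k ℂ] {N : ℕ} {ι : Type}
    {F : ι → MvPolynomial (Fin (N + 1)) k} {L : IntermediateField k ℂ} {m : ℕ}
    {W : Fin (N + 1) → MvPolynomial (Fin m) L} (hW : ∀ i, aeval W (F i) = 0)
    {i0 : Fin (N + 1)} (hi0 : W i0 ≠ 0)
    {H : MvPolynomial (Fin (N + 1)) ℂ}
    (hH : aeval (fun i => MvPolynomial.map (algebraMap L ℂ) (W i)) H ≠ 0) :
    ∃ x, IsPt L F x ∧ eval x H ≠ 0 := by
  classical
  have hinf : ∀ i : Fin m, (Set.range (algebraMap L ℂ)).Infinite := fun i => by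
    have : Infinite L := inferInstance
    exact Set.infinite_range_of_injective (algebraMap L ℂ).injective
  have hi0' : MvPolynomial.map (algebraMap L ℂ) (W i0) ≠ 0 := by
    rw [Ne, map_eq_zero_iff _ (MvPolynomial.map_injective _ (algebraMap L ℂ).injective)]
    exact hi0
  obtain ⟨t, ht, hne⟩ : ∃ t : Fin m → ℂ, t ∈ Set.pi univ (fun _ => Set.range (algebraMap L ℂ)) ∧
      eval t (aeval (fun i => MvPolynomial.map (algebraMap L ℂ) (W i)) H *
        MvPolynomial.map (algebraMap L ℂ) (W i0)) ≠ 0 := by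
    by_contra hcon
    push Not at hcon
    exact mul_ne_zero hH hi0' (MvPolynomial.funext_set _ hinf fun x hx => by
      rw [hcon x hx, map_zero])
  choose s hs using fun i => ht i (mem_univ i)
  have hev : ∀ i, eval t (MvPolynomial.map (algebraMap L ℂ) (W i)) =
      algebraMap L ℂ (eval s (W i)) := by
    intro i
    have h1 : t = fun a => algebraMap L ℂ (s a) := funext fun a => (hs a).symm
    rw [eval_map, h1]
    exact (MvPolynomial.eval₂_comp_left (algebraMap L ℂ) (RingHom.id L) s (W i)).symm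
  rw [map_mul] at hne
  refine ⟨fun i => algebraMap L ℂ (eval s (W i)), ⟨fun h0 => ?_, fun i => Subtype.property _,
    fun i => ?_⟩, ?_⟩
  · apply right_ne_zero_of_mul hne
    rw [hev]
    exact congrFun h0 i0
  · have h1 := MvPolynomial.comp_aeval_apply (f := W)
      ((IsScalarTower.toAlgHom k L ℂ).comp ((aeval s : MvPolynomial (Fin m) L →ₐ[L] L).restrictScalars k)) (F i)
    rw [hW i, map_zero] at h1
    exact h1.symm
  · have h1 := left_ne_zero_of_mul hne
    have h2 := MvPolynomial.comp_aeval_apply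
      (f := fun i => MvPolynomial.map (algebraMap L ℂ) (W i))
      (aeval t : MvPolynomial (Fin m) ℂ →ₐ[ℂ] ℂ) H
    intro h3
    apply h1
    refine h2.trans ?_
    have h4 : (fun i => (aeval t : MvPolynomial (Fin m) ℂ →ₐ[ℂ] ℂ)
        (MvPolynomial.map (algebraMap L ℂ) (W i))) = fun i => algebraMap L ℂ (eval s (W i)) :=
      funext fun i => hev i
    rw [h4]
    exact h3

end Pool.Agent.Q33.UR
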