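import Pool.Agent.Q33.UR.Alg

/-!
Dominance by the Jacobian criterion.
-/

set_option autoImplicit false

namespace Pool.Agent.Q33.UR

open MvPolynomial

theorem eval₂_hom {A B' σ : Type} [CommSemiring A] [CommSemiring B'] [Fintype σ] (φ : A →+* B')
    {G : MvPolynomial σ A} {d : ℕ} (hG : G.IsHomogeneous d) (c : B') (x : σ → B') :
    eval₂ φ (fun i => c * x i) G = c ^ d * eval₂ φ x G := by
  rw [eval₂_eq', eval₂_eq', Finset.mul_sum]
  refine Finset.sum_congr rfl fun m hm => ?_
  have h1 : m.degree = d := by
    have h2 := hG (mem_support_iff.1 hm)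
    rwa [Finsupp.degree_eq_weight_one]
  have h3 : ∏ i, (c * x i) ^ m i = c ^ d * ∏ i, x i ^ m i := by
    rw [← h1, Finsupp.degree_eq_sum, ← Finset.prod_pow_eq_pow_sum, ← Finset.prod_mul_distrib]
    refine Finset.prod_congr rfl fun i _ => ?_
    rw [mul_pow]
  rw [h3]
  ring

theorem aeval_hom {k B' σ : Type} [CommRing k] [CommRing B'] [Algebra k B'] [Fintype σ]
    {G : MvPolynomial σ k} {d : ℕ} (hG : G.IsHomogeneous d) (c : B') (x : σ → B') :
    aeval (fun i => c * x i) G = c ^ d * aeval x G := eval₂_hom (algebraMap k B') hG c x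

/-- from inhomogeneous to homogeneous independence -/
theorem hom_of_indep {k K : Type} [CommRing k] [IsDomain k] [Field K] [Algebra k K] {e : ℕ} (x : Fin (e + 1) → K)
    (hx0 : x 0 ≠ 0) (hx : AlgebraicIndependent k fun l : Fin e => x l.succ / x 0) (d : ℕ)
    (P : MvPolynomial (Fin (e + 1)) k) (hP : P.IsHomogeneous d) (h : aeval x P = 0) : P = 0 := by
  classical
  -- the polynomial `P (1, T)`
  let P1 : MvPolynomial (Fin e) k := aeval (Fin.cons 1 X : Fin (e + 1) → MvPolynomial (Fin e) k) P
  have h1 : x = fun l => x 0 * (Fin.cons 1 (fun l : Fin e => x l.succ / x 0) : Fin (e + 1) → K) l := by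
    funext l
    refine Fin.cases ?_ (fun l => ?_) l
    · rw [Fin.cons_zero, mul_one]
    · rw [Fin.cons_succ]
      field_simp
  rw [h1, aeval_hom hP] at h
  have h2 := (mul_eq_zero.1 h).resolve_left (pow_ne_zero _ hx0)
  have h3 : aeval (fun l : Fin e => x l.succ / x 0) P1 = 0 := by
    have h4 := MvPolynomial.comp_aeval_apply (f := (Fin.cons 1 X : Fin (e + 1) → MvPolynomial (Fin e) k))
      (aeval fun l : Fin e => x l.succ / x 0) P
    rw [h4, ← h2]
    congr 2
    funext l
    refine Fin.cases ?_ (fun l => ?_) l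
    · rw [Fin.cons_zero, Fin.cons_zero, map_one]
    · rw [Fin.cons_succ, Fin.cons_succ, aeval_X]
  have hP1 : P1 = 0 := algebraicIndependent_iff.1 hx _ h3
  -- back to the fraction field
  let L := FractionRing (MvPolynomial (Fin (e + 1)) k)
  let ξ : Fin (e + 1) → L := fun l => algebraMap (MvPolynomial (Fin (e + 1)) k) L (X l)
  have hinj : Function.Injective (algebraMap (MvPolynomial (Fin (e + 1)) k) L) :=
    IsFractionRing.injective _ _
  have hξ0 : ξ 0 ≠ 0 := by
    intro h0
    exact X_ne_zero (R := k) (0 : Fin (e + 1)) (hinj (by rw [map_zero]; exact h0))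
  have h5 : ξ = fun l => ξ 0 * (Fin.cons 1 (fun l : Fin e => ξ l.succ / ξ 0) : Fin (e + 1) → L) l := by
    funext l
    refine Fin.cases ?_ (fun l => ?_) l
    · rw [Fin.cons_zero, mul_one]
    · rw [Fin.cons_succ, mul_comm, div_mul_cancel₀ _ hξ0]
  have h6 : aeval ξ P = 0 := by
    rw [h5, aeval_hom hP]
    have h7 := MvPolynomial.comp_aeval_apply (f := (Fin.cons 1 X : Fin (e + 1) → MvPolynomial (Fin e) k))
      (aeval fun l : Fin e => ξ l.succ / ξ 0) P
    have h8 : (fun i => (aeval fun l : Fin e => ξ l.succ / ξ 0)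
        ((Fin.cons 1 X : Fin (e + 1) → MvPolynomial (Fin e) k) i)) =
        (Fin.cons 1 (fun l : Fin e => ξ l.succ / ξ 0) : Fin (e + 1) → L) := by
      funext l
      refine Fin.cases ?_ (fun l => ?_) l
      · rw [Fin.cons_zero, Fin.cons_zero, map_one]
      · rw [Fin.cons_succ, Fin.cons_succ, aeval_X]
    rw [h8] at h7
    have h9 : aeval (Fin.cons 1 (fun l : Fin e => ξ l.succ / ξ 0) : Fin (e + 1) → L) P = 0 := by
      rw [← h7]
      change aeval (fun l : Fin e => ξ l.succ / ξ 0) P1 = 0
      rw [hP1, map_zero]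
    rw [h9, mul_zero]
  apply hinj
  rw [map_zero, ← h6]
  have h7 := MvPolynomial.comp_aeval_apply (f := (X : Fin (e + 1) → MvPolynomial (Fin (e + 1)) k))
    (IsScalarTower.toAlgHom k (MvPolynomial (Fin (e + 1)) k) L) P
  rw [aeval_X_left, AlgHom.id_apply] at h7
  exact h7

/-- **Dominance.** -/
theorem dom {k : Type} [Field k] [CharZero k] {N e : ℕ} {K : Type} [Field K] [Algebra k K]
    (y : Fin (N + 1) → K) (i0 : Fin (N + 1)) (hy0 : y i0 ≠ 0) (jj : Fin e → Fin (N + 1))
    (hbas : IsTranscendenceBasis k fun l => y (jj l) / y i0)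
    {R : Type} [CommRing R] [IsDomain R] [Algebra k R] (W : Fin (N + 1) → R)
    (hW : ∀ (d : ℕ) (H : MvPolynomial (Fin (N + 1)) k), H.IsHomogeneous d → aeval y H = 0 →
      aeval W H = 0) (hW0 : W i0 ≠ 0) (D : Fin e → Derivation k R R)
    (hdet : (Matrix.of fun i l : Fin e => D i (W (jj l)) * W i0 - W (jj l) * D i (W i0)).det ≠ 0)
    (d : ℕ) (H : MvPolynomial (Fin (N + 1)) k) (hH : H.IsHomogeneous d) (h : aeval W H = 0) :
    aeval y H = 0 := by
  classical
  let L := FractionRing R
  have hinj : Function.Injective (algebraMap R L) := IsFractionRing.injective R L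
  let w : Fin (N + 1) → L := fun i => algebraMap R L (W i)
  have hw0 : w i0 ≠ 0 := by
    intro h0
    exact hW0 (hinj (by rw [map_zero]; exact h0))
  have hwa : ∀ {σ : Type} (j : σ → Fin (N + 1)) (P : MvPolynomial σ k),
      aeval (fun l => w (j l)) P = algebraMap R L (aeval (fun l => W (j l)) P) := by
    intro σ j P
    exact (MvPolynomial.comp_aeval_apply (f := fun l => W (j l)) (IsScalarTower.toAlgHom k R L) P).symm
  -- independence of the coordinates of the image
  have hind : AlgebraicIndependent k fun l => w (jj l) / w i0 := by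
    rw [algebraicIndependent_iff]
    intro P hP
    apply indep_of_hom (algebraMap k L) (Fin.cons (w i0) fun l => w (jj l) : Fin (e + 1) → L)
    · exact hw0
    · intro d P hP h
      apply jac (Fin.cons (W i0) fun l => W (jj l) : Fin (e + 1) → R) D hW0 _ d P hP
      · apply hinj
        rw [map_zero, ← h]
        have h1 := hwa (Fin.cons i0 jj : Fin (e + 1) → Fin (N + 1)) P
        have h2 : (fun l => w ((Fin.cons i0 jj : Fin (e + 1) → Fin (N + 1)) l)) =
            (Fin.cons (w i0) fun l => w (jj l) : Fin (e + 1) → L) := by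
          funext l
          refine Fin.cases rfl (fun l => rfl) l
        have h3 : (fun l => W ((Fin.cons i0 jj : Fin (e + 1) → Fin (N + 1)) l)) =
            (Fin.cons (W i0) fun l => W (jj l) : Fin (e + 1) → R) := by
          funext l
          refine Fin.cases rfl (fun l => rfl) l
        rw [h2, h3] at h1
        exact h1.symm
      · exact hdet
    · exact hP
  -- the two maps
  let z : Fin (N + 1) → K := fun i => y i / y i0
  let ω : Fin (N + 1) → L := fun i => w i / w i0
  have hzy : ∀ i, y i = y i0 * z i := fun i => by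
    change y i = y i0 * (y i / y i0)
    field_simp
  have hωw : ∀ i, w i = w i0 * ω i := fun i => by
    change w i = w i0 * (w i / w i0)
    rw [mul_comm, div_mul_cancel₀ _ hw0]
  have hker : ∀ F : MvPolynomial (Fin (N + 1)) k, aeval z F = 0 → aeval ω F = 0 := by
    intro F hF
    obtain ⟨d, G, hG, hGe⟩ := exists_hmg F i0
    have h1 := hGe (algebraMap k K) y z hzy
    have h2 := hGe (algebraMap k L) w ω hωw
    have h3 : aeval y G = 0 := by
      change eval₂ (algebraMap k K) y G = 0
      rw [h1]
      have h4 : eval₂ (algebraMap k K) z F = 0 := hF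
      rw [h4, mul_zero]
    have h5 := hW d G hG h3
    have h6 : aeval w G = 0 := by
      have h7 := hwa (fun i => i) G
      rw [h5, map_zero] at h7
      exact h7
    have h8 : eval₂ (algebraMap k L) w G = 0 := h6
    rw [h8] at h2
    exact (mul_eq_zero.1 h2.symm).resolve_left (pow_ne_zero _ hw0)
  have halg : Algebra.IsAlgebraic (Algebra.adjoin k (Set.range fun l : Fin e =>
      (aeval z : MvPolynomial (Fin (N + 1)) k →ₐ[k] K) (X (jj l)))) K := by
    have h1 : (fun l : Fin e => (aeval z : MvPolynomial (Fin (N + 1)) k →ₐ[k] K) (X (jj l))) =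
        fun l => y (jj l) / y i0 := by
      funext l
      rw [aeval_X]
    rw [h1]
    exact hbas.isAlgebraic
  have hind' : AlgebraicIndependent k fun l : Fin e =>
      (aeval ω : MvPolynomial (Fin (N + 1)) k →ₐ[k] L) (X (jj l)) := by
    have h1 : (fun l : Fin e => (aeval ω : MvPolynomial (Fin (N + 1)) k →ₐ[k] L) (X (jj l))) =
        fun l => w (jj l) / w i0 := by
      funext l
      rw [aeval_X]
    rw [h1]
    exact hind
  have hfin := drop (aeval z) (aeval ω) hker (fun l : Fin e => X (jj l)) halg hind' H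
  have h1 : aeval ω H = 0 := by
    have h2 := aeval_hom hH (w i0) ω
    rw [← funext hωw] at h2
    have h7 := hwa (fun i => i) H
    rw [h, map_zero] at h7
    have h8 : aeval w H = 0 := h7
    rw [h8] at h2
    exact (mul_eq_zero.1 h2.symm).resolve_left (pow_ne_zero _ hw0)
  have h2 := hfin h1
  have h3 := aeval_hom hH (y i0) z
  rw [← funext hzy] at h3
  rw [h3, h2, mul_zero]

/-- a transcendence basis among the ratios of coordinates -/
theorem exists_coord_basis {k : Type} [Field k] {N w : ℕ} {K : Type} [Field K] [Algebra k K]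
    (y : Fin (N + 1) → K) (i0 : Fin (N + 1)) (hy0 : y i0 ≠ 0)
    (hgen : IntermediateField.adjoin k {z | ∃ i j, y j ≠ 0 ∧ z = y i / y j} = ⊤)
    (hdim : Algebra.trdeg k K = w) :
    ∃ jj : Fin w → Fin (N + 1), IsTranscendenceBasis k fun l => y (jj l) / y i0 := by
  classical
  let s : Set K := Set.range fun i => y i / y i0
  have h1 : IntermediateField.adjoin k s = ⊤ := by
    rw [eq_top_iff, ← hgen, IntermediateField.adjoin_le_iff]
    rintro z ⟨i, j, hj, rfl⟩
    have h2 : y i / y j = (y i / y i0) / (y j / y i0) := by field_simp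
    rw [h2]
    exact div_mem (IntermediateField.subset_adjoin _ _ ⟨i, rfl⟩)
      (IntermediateField.subset_adjoin _ _ ⟨j, rfl⟩)
  have halg : Algebra.IsAlgebraic (Algebra.adjoin k s) K := by
    constructor
    intro x
    have h2 : x ∈ IntermediateField.adjoin k s := by
      rw [h1]
      exact IntermediateField.mem_top
    obtain ⟨a, ha, b, hb, rfl⟩ := IntermediateField.mem_adjoin_iff_div.1 h2
    rw [div_eq_mul_inv]
    exact (isAlgebraic_algebraMap (⟨a, ha⟩ : Algebra.adjoin k s)).mul
      (isAlgebraic_algebraMap (⟨b, hb⟩ : Algebra.adjoin k s)).inv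
  obtain ⟨t, hts, ht⟩ := exists_isTranscendenceBasis_subset (R := k) s
  have hfin : Finite t := by
    have : s.Finite := Set.finite_range _
    exact this.subset hts
  have hcard : Nat.card t = w := by
    have h2 := ht.cardinalMk_eq_trdeg
    rw [hdim] at h2
    have h3 := Nat.cast_card (α := t)
    rw [h2] at h3
    exact_mod_cast h3
  have e : Fin w ≃ t := (finCongr hcard.symm).trans (Finite.equivFin t).symm
  choose j hj using fun l : Fin w => hts (e l).2
  refine ⟨j, ?_⟩
  have h2 : (fun l => y (j l) / y i0) = (fun x : t => (x : K)) ∘ e := by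
    funext l
    exact hj l
  rw [h2]
  exact ht.comp_equiv e

/-- extending the base by one transcendental element -/
theorem trdeg_drop {k A M : Type} [Field k] [CommRing A] [IsDomain A] [Algebra k A] [Field M]
    [Algebra k M] [Algebra A M] [IsScalarTower k A M] (hinj : Function.Injective (algebraMap A M))
    (hA : Algebra.trdeg k A ≤ 1) {w : ℕ} (g : Fin (w + 1) → M) (hg : AlgebraicIndependent k g) :
    ∃ l : Fin w → Fin (w + 1), AlgebraicIndependent A fun i => g (l i) := by
  classical
  let T : Subalgebra A M := Algebra.adjoin A (Set.range g)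
  let g' : Fin (w + 1) → T := fun l => ⟨g l, Algebra.subset_adjoin ⟨l, rfl⟩⟩
  have hg' : AlgebraicIndependent k g' := by
    have h1 : Function.Injective (T.val.restrictScalars k) := Subtype.val_injective
    exact (AlgHom.algebraicIndependent_iff (T.val.restrictScalars k) h1).1 hg
  have hfs1 : FaithfulSMul k A := (faithfulSMul_iff_algebraMap_injective k A).2
    (algebraMap k A).injective
  have hAT : Function.Injective (algebraMap A T) := by
    intro a b h
    exact hinj (congrArg Subtype.val h)
  have hfs2 : FaithfulSMul A T := (faithfulSMul_iff_algebraMap_injective A T).2 hAT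
  have halg : Algebra.IsAlgebraic (Algebra.adjoin A (Set.range g')) T := by
    have h1 : Algebra.adjoin A (Set.range g') = ⊤ := by
      have h2 := Algebra.adjoin_adjoin_coe_preimage (R := A) (s := Set.range g)
      have h3 : (Subtype.val : T → M) ⁻¹' (Set.range g) = Set.range g' := by
        ext x
        constructor
        · rintro ⟨l, hl⟩
          exact ⟨l, Subtype.ext hl⟩
        · rintro ⟨l, rfl⟩
          exact ⟨l, rfl⟩
      rw [← h3]
      exact h2
    rw [h1]
    constructor
    intro x
    exact isAlgebraic_algebraMap (⟨x, trivial⟩ : (⊤ : Subalgebra A T))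
  obtain ⟨t, hts, ht⟩ := exists_isTranscendenceBasis_subset (R := A) (Set.range g')
  have h1 : Algebra.trdeg k A + Algebra.trdeg A T = Algebra.trdeg k T := trdeg_add_eq k A
  have h2 := hg'.cardinalMk_le_trdeg
  have h3 := ht.cardinalMk_eq_trdeg
  have hfin : Finite t := (Set.finite_range g').subset hts
  have hw : w ≤ Nat.card t := by
    rw [← h1, ← h3] at h2
    have h4 : Cardinal.mk (Fin (w + 1)) ≤ 1 + Cardinal.mk t := h2.trans (by gcongr)
    rw [← Nat.cast_card (α := t), Cardinal.mk_fin] at h4
    have h5 : ((w + 1 : ℕ) : Cardinal) ≤ ((1 + Nat.card t : ℕ) : Cardinal) := by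
      push_cast at h4 ⊢
      exact h4
    have h6 : w + 1 ≤ 1 + Nat.card t := by exact_mod_cast h5
    omega
  let ε : Fin w → t := fun i => (Finite.equivFin t).symm (Fin.castLE hw i)
  have hε : Function.Injective ε := fun i j h =>
    Fin.castLE_injective hw ((Finite.equivFin t).symm.injective h)
  choose l hl using fun i => hts (ε i).2
  refine ⟨l, ?_⟩
  have h4 : AlgebraicIndependent A fun i => ((ε i : T)) := ht.1.comp ε hε
  have h5 := (AlgHom.algebraicIndependent_iff T.val Subtype.val_injective).2 h4
  have h6 : (T.val ∘ fun i => ((ε i : T))) = fun i => g (l i) := by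
    funext i
    exact (congrArg Subtype.val (hl i)).symm
  rw [← h6]
  exact h5

end Pool.Agent.Q33.UR
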