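import Pool.Agent.Q33.UR.Conv

/-!
Zariski-dense entire curves given by linear differential equations with polynomial coefficients.
-/

set_option autoImplicit false

namespace Pool.Agent.Q33.UR

open MvPolynomial Metric Set Filter Topology Pool.Agent.TH143 Pool.Agent.TH143.GT
open Pool.Agent.W602.GT (IsForm)
open Pool.Agent.Q33.OD (LinSys polyB)
open Pool.Agent.Q33.SP (Unirational)

variable {Ω : Set ℂ} {B : Subalgebra ℂ (ℂ → ℂ)} {N : ℕ}

/-- The polynomials `W 0, …, W (m - 1)` satisfy no homogeneous algebraic relation. -/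
def NoRel {m : ℕ} {κ : Type} (W : Fin m → MvPolynomial κ ℂ) : Prop :=
  ∀ (d : ℕ) (P : MvPolynomial (Fin m) ℂ), P.IsHomogeneous d → aeval W P = 0 → P = 0

/-- There is a polynomial map `W` from an affine space with `W (x0) = x` which satisfies all
homogeneous relations of the curve `f`, and whose coordinates `j` satisfy no homogeneous relation. -/
def UniThrough (Ω : Set ℂ) (f : ℂ → Fin (N + 1) → ℂ) {m : ℕ} (j : Fin m → Fin (N + 1))
    (x : Fin (N + 1) → ℂ) : Prop :=
  ∃ (g : ℕ) (W : Fin (N + 1) → MvPolynomial (Fin g) ℂ) (x0 : Fin g → ℂ),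
    (∀ i, eval x0 (W i) = x i) ∧
    (∀ H, IsForm H → (∀ s ∈ Ω, eval (f s) H = 0) → aeval W H = 0) ∧ NoRel fun l => W (j l)

theorem cover_through {f : ℂ → Fin (N + 1) → ℂ} {e : ℕ} {j : Fin (e + 1) → Fin (N + 1)}
    {x : Fin (N + 1) → ℂ} (hx0 : x (j 0) ≠ 0)
    (h : Cover (fun H => ∀ s ∈ Ω, eval (f s) H = 0) j x) : UniThrough Ω f j x := by
  classical
  obtain ⟨κ, iκ, W, x0, u, h1, h2, h3⟩ := h
  let σ := Fintype.equivFin κ
  have h6 : ∀ {τ : Type} (V : τ → MvPolynomial κ ℂ) (H : MvPolynomial τ ℂ),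
      aeval (fun i => rename σ (V i)) H = rename σ (aeval V H) := fun V H =>
    (MvPolynomial.comp_aeval_apply (f := V) (rename σ : MvPolynomial κ ℂ →ₐ[ℂ] _) H).symm
  refine ⟨Fintype.card κ, fun i => rename σ (W i), fun a => x0 (σ.symm a), fun i => ?_,
    fun H hH h0 => ?_, fun d P hP h0 => ?_⟩
  · rw [eval_rename, ← h1 i]
    congr 2
    funext a
    simp
  · obtain ⟨d, hHd⟩ := hH
    rw [h6, h2 d H hHd h0, map_zero]
  · rw [h6, map_eq_zero_iff _ (rename_injective _ σ.injective)] at h0
    refine jac (fun l => W (j l)) (fun i => mkDerivation ℂ (fun a => C (u i a))) ?_ ?_ d P hP h0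
    · intro h4
      apply hx0
      rw [← h1, h4, map_zero]
    · intro h4
      apply h3
      have h5 := congrArg (eval x0) h4
      rw [map_zero, RingHom.map_det] at h5
      rw [← h5]
      congr 1
      ext i l
      simp only [RingHom.mapMatrix_apply, Matrix.map_apply, Matrix.of_apply, map_sub, map_mul, h1]

/-- **Unirational subvarieties** of dimension at least the transcendence degree through all points
but countably many. -/
theorem through_gen (hΩ : IsOpen Ω) (hΩc : IsPreconnected Ω) (hB : DiffRing Ω B)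
    {e r : ℕ} (f : ℂ → Fin (N + 1) → ℂ)
    (hf : ∀ j, AnalyticOnNhd ℂ (fun w => f w j) Ω) (hlin : LinSys r Ω B f)
    (j : Fin (e + 1) → Fin (N + 1)) (hind : IndepOver Ω B fun z l => f z (j l)) :
    ∃ E : Set ℂ, E.Countable ∧ ∀ z ∈ Ω \ E, f z (j 0) ≠ 0 ∧ UniThrough Ω f j (f z) := by
  obtain ⟨E, hE, h⟩ := uni_gen hΩ hΩc hB f hf hlin j hind
  refine ⟨E, hE, fun z hz => ?_⟩
  obtain ⟨h1, h2⟩ := h z hz
  exact ⟨h1, cover_through h1 h2⟩

theorem polyB_ring : DiffRing univ polyB := by
  refine ⟨?_, ?_⟩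
  · rintro _ ⟨P, rfl⟩ z _
    exact (P.differentiable.analyticAt z)
  · rintro _ ⟨P, rfl⟩
    exact ⟨_, ⟨P.derivative, rfl⟩, fun z _ => P.hasDerivAt z⟩

/-- Zariski-dense curves have transcendence degree at least `w - 1` over the polynomials. -/
theorem codim_one {p : Ideal (MvPolynomial (Fin (N + 1)) ℂ)} {Q : MvPolynomial (Fin (N + 1)) ℂ}
    {K : Type} [Field K] [Algebra ℂ K] {w : ℕ} {y : Fin (N + 1) → K}
    (hy : FunField p Q K (w + 1) y) {f : ℂ → Fin (N + 1) → ℂ}
    (hf : ∀ j, Differentiable ℂ fun w => f w j) (hd : ZDense p f univ) :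
    ∃ j : Fin (w + 1) → Fin (N + 1), IndepOver univ polyB fun z l => f z (j l) := by
  classical
  obtain ⟨i0, hi0⟩ := Function.ne_iff.1 hy.sub.ne
  have hy0 : y i0 ≠ 0 := hi0
  obtain ⟨jj, hjj⟩ := exists_coord_basis y i0 hy0 hy.sub.gen hy.sub.dim
  -- the field of meromorphic functions
  have hdom : IsDomain (Hol (univ : Set ℂ)) := hol_domain isPreconnected_univ univ_nonempty
  let M := FractionRing (Hol (univ : Set ℂ))
  have hM : Function.Injective (algebraMap (Hol (univ : Set ℂ)) M) := IsFractionRing.injective _ _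
  have han : ∀ j, AnalyticOnNhd ℂ (fun w => f w j) univ := fun j =>
    (hf j).differentiableOn.analyticOnNhd isOpen_univ
  let F : Fin (N + 1) → Hol (univ : Set ℂ) := fun i => toHol (fun z => f z i) (han i)
  let φ : Polynomial ℂ →ₐ[ℂ] Hol (univ : Set ℂ) :=
    Polynomial.aeval (toHol (fun z => z) analyticOnNhd_id)
  have hφ : ∀ (q : Polynomial ℂ) (z : (univ : Set ℂ)), evz z (φ q) = q.eval z.1 := by
    intro q z
    have h1 := Polynomial.aeval_algHom_apply (evz z) (toHol (fun z => z) analyticOnNhd_id) q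
    have h2 : evz z (toHol (fun z => z) analyticOnNhd_id) = z.1 := rfl
    rw [h2] at h1
    rw [← h1, Polynomial.coe_aeval_eq_eval]
  have hφi : Function.Injective φ := by
    rw [injective_iff_map_eq_zero]
    intro q hq
    apply Polynomial.funext
    intro z
    rw [← hφ q ⟨z, mem_univ z⟩, hq, map_zero, Polynomial.eval_zero]
  let _ : Algebra (Polynomial ℂ) M := ((algebraMap (Hol (univ : Set ℂ)) M).comp φ.toRingHom).toAlgebra
  have hst : IsScalarTower ℂ (Polynomial ℂ) M := IsScalarTower.of_algebraMap_eq' (by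
    ext c
    change algebraMap ℂ M c = algebraMap (Hol (univ : Set ℂ)) M (φ (Polynomial.C c))
    have h1 : φ (Polynomial.C c) = algebraMap ℂ (Hol (univ : Set ℂ)) c := φ.commutes c
    rw [h1, ← IsScalarTower.algebraMap_apply])
  have hAM : Function.Injective (algebraMap (Polynomial ℂ) M) := hM.comp hφi
  -- the coordinates
  let G : Fin (N + 1) → M := fun i => algebraMap (Hol (univ : Set ℂ)) M (F i)
  have hevF : ∀ (z : (univ : Set ℂ)) (i : Fin (N + 1)), evz z (F i) = f z i := fun z i => rfl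
  have hG0 : G i0 ≠ 0 := by
    intro h0
    have h1 : F i0 = 0 := hM (by rw [map_zero]; exact h0)
    have h2 : X i0 ∈ p := hd _ ⟨1, isHomogeneous_X _ _⟩ (fun z hz => by
      rw [eval_X, ← hevF ⟨z, hz⟩, h1, map_zero])
    have h3 := hy.sub.mem _ h2
    unfold Pool.Agent.W602.GT.val at h3
    rw [aeval_X] at h3
    exact hy0 h3
  have hGa : ∀ {τ : Type} (j : τ → Fin (N + 1)) (P : MvPolynomial τ ℂ),
      aeval (fun l => G (j l)) P = algebraMap (Hol (univ : Set ℂ)) M (aeval (fun l => F (j l)) P) :=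
    fun j P => (MvPolynomial.comp_aeval_apply (f := fun l => F (j l))
      (IsScalarTower.toAlgHom ℂ (Hol (univ : Set ℂ)) M) P).symm
  have hgC : AlgebraicIndependent ℂ fun l : Fin (w + 1) => G (jj l) / G i0 := by
    rw [algebraicIndependent_iff]
    intro P hP
    refine indep_of_hom (algebraMap ℂ M)
      (fun l => G ((Fin.cons i0 jj : Fin (w + 2) → Fin (N + 1)) l)) hG0 ?_ P hP
    intro d R hR h
    have h1 : rename (Fin.cons i0 jj : Fin (w + 2) → Fin (N + 1)) R ∈ p := by
      apply hd _ ⟨d, hR.rename_isHomogeneous⟩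
      intro z hz
      have h2 : aeval (fun l => F ((Fin.cons i0 jj : Fin (w + 2) → Fin (N + 1)) l)) R = 0 := by
        apply hM
        rw [map_zero, ← hGa]
        exact h
      have h3 := congrArg (evz (⟨z, hz⟩ : (univ : Set ℂ))) h2
      rw [map_zero, MvPolynomial.comp_aeval_apply] at h3
      rw [eval_rename]
      exact h3
    have h2 := hy.sub.mem _ h1
    unfold Pool.Agent.W602.GT.val at h2
    rw [aeval_rename] at h2
    exact hom_of_indep (fun l => y ((Fin.cons i0 jj : Fin (w + 2) → Fin (N + 1)) l)) hy0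
      hjj.1 d R hR h2
  -- transcendence degrees
  obtain ⟨l, hl⟩ := trdeg_drop (A := Polynomial ℂ) hAM
    (le_of_eq Polynomial.trdeg_of_isDomain) _ hgC
  refine ⟨Fin.cons i0 fun i => jj (l i), fun d P hP h0 a z _ => ?_⟩
  choose q hq using fun a : Fin (w + 1) →₀ ℕ => (coeff a P).2
  let R : MvPolynomial (Fin (w + 1)) (Polynomial ℂ) := ∑ a ∈ P.support, monomial a (q a)
  have hR : R.IsHomogeneous d := by
    apply IsHomogeneous.sum
    intro a ha
    apply isHomogeneous_monomial
    have h2 := hP (mem_support_iff.1 ha)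
    rwa [Finsupp.degree_eq_weight_one]
  obtain ⟨j, hj⟩ : ∃ j : Fin (w + 1) → Fin (N + 1), j = Fin.cons i0 fun i => jj (l i) := ⟨_, rfl⟩
  rw [← hj] at h0
  have hR0 : aeval (fun i => G (j i)) R = 0 := by
    have h1 : aeval (fun i => G (j i)) R = algebraMap (Hol (univ : Set ℂ)) M
        (∑ a ∈ P.support, φ (q a) * ∏ i, F (j i) ^ a i) := by
      simp only [R, map_sum, aeval_monomial, map_mul, map_prod, map_pow]
      refine Finset.sum_congr rfl fun a _ => ?_
      rw [Finsupp.prod_fintype _ _ (fun _ => pow_zero _)]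
      rfl
    rw [h1]
    have h2 : ∑ a ∈ P.support, φ (q a) * ∏ i, F (j i) ^ a i = 0 := by
      apply hol_ext
      intro x
      rw [map_zero, map_sum]
      have h3 := h0 x x.2
      rw [eval₂_eq'] at h3
      rw [← h3]
      refine Finset.sum_congr rfl fun a _ => ?_
      rw [map_mul, hφ, map_prod, evB_apply, hq a]
      simp only [map_pow, hevF]
    rw [h2, map_zero]
  have h1 : G (j 0) = G i0 := by
    rw [hj]
    rfl
  have h2 : (fun i : Fin w => G (j i.succ) / G (j 0)) = fun i => G (jj (l i)) / G i0 := by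
    funext i
    rw [hj]
    rfl
  have h3 := hom_of_indep (k := Polynomial ℂ) (fun i => G (j i)) (by rw [h1]; exact hG0)
    (by rw [h2]; exact hl) d R hR hR0
  by_cases ha : a ∈ P.support
  · have h4 : coeff a R = q a := by
      simp only [R, coeff_sum, coeff_monomial]
      rw [Finset.sum_ite_eq' P.support a q, if_pos ha]
    rw [h3, coeff_zero] at h4
    rw [hq a, ← h4]
    exact Polynomial.eval_zero
  · rw [notMem_support_iff.1 ha]
    rfl

end Pool.Agent.Q33.UR
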