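import Pool.Agent.Q33.UR.Local
import Pool.Agent.Q33.OD.Gen

/-!
Unirational subvarieties through the points of a curve given by linear differential equations over a
differential ring.
-/

set_option autoImplicit false

namespace Pool.Agent.Q33.UR

open MvPolynomial Metric Set Filter Topology Pool.Agent.TH143 Pool.Agent.TH143.GT
open Pool.Agent.Q33.OD (LinSys)

variable {Ω : Set ℂ} {B : Subalgebra ℂ (ℂ → ℂ)}

/-- the value at `z` of an element of the ring `B` of functions -/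
def evB (B : Subalgebra ℂ (ℂ → ℂ)) (z : ℂ) : B →+* ℂ :=
  (Pi.evalRingHom (fun _ : ℂ => ℂ) z).comp B.val.toRingHom

theorem evB_apply (z : ℂ) (b : B) : evB B z b = b.1 z := rfl

/-- The functions `g 0, …, g (m - 1)` satisfy on `Ω` no nontrivial homogeneous algebraic relation
with coefficients in `B`. -/
def IndepOver (Ω : Set ℂ) (B : Subalgebra ℂ (ℂ → ℂ)) {m : ℕ} (g : ℂ → Fin m → ℂ) : Prop :=
  ∀ (d : ℕ) (P : MvPolynomial (Fin m) B), P.IsHomogeneous d →
    (∀ z ∈ Ω, eval₂ (evB B z) (g z) P = 0) → ∀ a, ∀ z ∈ Ω, (coeff a P).1 z = 0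

theorem Cover.mono {N e : ℕ} {I I' : MvPolynomial (Fin (N + 1)) ℂ → Prop}
    {j : Fin (e + 1) → Fin (N + 1)} {x : Fin (N + 1) → ℂ} (h : Cover I j x)
    (hI : ∀ H, I' H → I H) : Cover I' j x := by
  obtain ⟨κ, i1, W, x0, u, h1, h2, h3⟩ := h
  exact ⟨κ, i1, W, x0, u, h1, fun d H hH hI' => h2 d H hH (hI H hI'), h3⟩

/-- clearing denominators -/
theorem indep_loc {S : Set ℂ} (hΩc : IsPreconnected Ω) (hB : DiffRing Ω B) (hSo : IsOpen S)
    (hSne : S.Nonempty) (hSΩ : S ⊆ Ω) (s : ℂ → ℂ) (hsB : s ∈ B) (hSs : ∀ z ∈ S, s z ≠ 0)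
    {m : ℕ} (g : ℂ → Fin m → ℂ) (hg : ∀ j, AnalyticOnNhd ℂ (fun z => g z j) Ω)
    (hind : IndepOver Ω B g) (d : ℕ) (P : MvPolynomial (Fin m) (locAlg B s hsB S hSs))
    (hP : P.IsHomogeneous d)
    (h : ∀ z : S, eval₂ ((evz z : Hol S →+* ℂ).comp (locAlg B s hsB S hSs).val.toRingHom)
      (g z) P = 0) : P = 0 := by
  classical
  obtain ⟨z0, hz0⟩ := hSne
  choose b hbB k hbk using fun a : Fin m →₀ ℕ => (coeff a P).2
  let K := ∑ a ∈ P.support, k a
  have hkK : ∀ a ∈ P.support, k a ≤ K := fun a ha =>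
    Finset.single_le_sum (f := k) (fun _ _ => Nat.zero_le _) ha
  let c : (Fin m →₀ ℕ) → B := fun a => ⟨b a * s ^ (K - k a), B.mul_mem (hbB a) (B.pow_mem hsB _)⟩
  let Q : MvPolynomial (Fin m) B := ∑ a ∈ P.support, monomial a (c a)
  have hQ : Q.IsHomogeneous d := by
    apply IsHomogeneous.sum
    intro a ha
    apply isHomogeneous_monomial
    have h2 := hP (mem_support_iff.1 ha)
    rwa [Finsupp.degree_eq_weight_one]
  have hQe : ∀ z, eval₂ (evB B z) (g z) Q = ∑ a ∈ P.support, (c a).1 z * ∏ j, g z j ^ a j := by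
    intro z
    rw [eval₂_sum]
    refine Finset.sum_congr rfl fun a _ => ?_
    rw [eval₂_monomial, Finsupp.prod_fintype _ _ (fun _ => pow_zero _)]
    rfl
  have h1 : ∀ z ∈ S, eval₂ (evB B z) (g z) Q = 0 := by
    intro z hz
    have h3 := h ⟨z, hz⟩
    rw [eval₂_eq'] at h3
    have h4 := congrArg (fun x => s z ^ K * x) h3
    simp only [mul_zero] at h4
    rw [hQe, ← h4, Finset.mul_sum]
    refine Finset.sum_congr rfl fun a ha => ?_
    have h5 := hbk a ⟨z, hz⟩
    have h6 : ((evz (⟨z, hz⟩ : S) : Hol S →+* ℂ).comp (locAlg B s hsB S hSs).val.toRingHom)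
        (coeff a P) = b a z / s z ^ k a := h5
    rw [h6]
    have h7 := hSs z hz
    simp only [c, Pi.mul_apply, Pi.pow_apply]
    have h8 : s z ^ K = s z ^ (K - k a) * s z ^ (k a) := by
      rw [← pow_add, Nat.sub_add_cancel (hkK a ha)]
    rw [h8]
    field_simp
  have h2 : ∀ z ∈ Ω, eval₂ (evB B z) (g z) Q = 0 := by
    have h3 : AnalyticOnNhd ℂ (fun z => ∑ a ∈ P.support, (c a).1 z * ∏ j, g z j ^ a j) Ω := by
      intro z hz
      apply Finset.analyticAt_fun_sum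
      intro a _
      refine (hB.an _ (c a).2 z hz).fun_mul ?_
      apply Finset.analyticAt_fun_prod
      intro j _
      exact (hg j z hz).fun_pow _
    have h4 := h3.eqOn_zero_of_preconnected_of_eventuallyEq_zero hΩc (hSΩ hz0) (by
      filter_upwards [hSo.mem_nhds hz0] with z hz
      rw [← hQe]
      exact h1 z hz)
    intro z hz
    rw [hQe]
    exact h4 hz
  have h3 := hind d Q hQ h2
  apply MvPolynomial.ext
  intro a
  rw [coeff_zero]
  by_cases ha : a ∈ P.support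
  · apply Subtype.ext
    apply hol_ext
    intro z
    rw [hbk a z]
    have h4 := h3 a z (hSΩ z.2)
    have h5 : coeff a Q = c a := by
      simp only [Q, coeff_sum, coeff_monomial]
      rw [Finset.sum_ite_eq' P.support a c, if_pos ha]
    rw [h5] at h4
    simp only [c, Pi.mul_apply, Pi.pow_apply] at h4
    have h6 := (mul_eq_zero.mp h4).resolve_right (pow_ne_zero _ (hSs z z.2))
    rw [h6, zero_div]
    rfl
  · exact notMem_support_iff.1 ha

/-- **Unirational subvarieties** through the points near a point where the system is regular. -/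
theorem uni_at (hΩ : IsOpen Ω) (hΩc : IsPreconnected Ω) (hB : DiffRing Ω B)
    {N e : ℕ} (f : ℂ → Fin (N + 1) → ℂ)
    (hf : ∀ j, AnalyticOnNhd ℂ (fun w => f w j) Ω) {n : ℕ} {s : ℂ → ℂ}
    {A : Fin n → Fin n → ℂ → ℂ} {M : Fin (N + 1) → Fin n → ℂ → ℂ} {y : ℂ → Fin n → ℂ}
    (hsB : s ∈ B) (hAB : ∀ i k, A i k ∈ B) (hMB : ∀ j k, M j k ∈ B)
    (hsys : ∀ z ∈ Ω, s z ≠ 0 →
      (∀ i, HasDerivAt (fun w => y w i) ((∑ k, A i k z * y z k) / s z) z) ∧
      ∀ j, f z j = ∑ k, M j k z * y z k)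
    (j : Fin (e + 1) → Fin (N + 1)) (hind : IndepOver Ω B fun z l => f z (j l))
    {z0 : ℂ} (hz0 : z0 ∈ Ω) (hsz0 : s z0 ≠ 0) :
    ∀ᶠ z in 𝓝[≠] z0, f z (j 0) ≠ 0 ∧ Cover (fun H => ∀ s ∈ Ω, eval (f s) H = 0) j (f z) := by
  classical
  have hsan := hB.an s hsB
  set Ω' := {z ∈ Ω | s z ≠ 0} with hΩ'
  have hΩ'o : IsOpen Ω' := by
    rw [isOpen_iff_mem_nhds]
    intro z hz
    filter_upwards [hΩ.mem_nhds hz.1, (hsan z hz.1).continuousAt.eventually_ne hz.2] with w h2 h3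
    exact ⟨h2, h3⟩
  choose! der hderB hder using hB.der
  have hAan : ∀ i k, AnalyticOnNhd ℂ (fun z => A i k z / s z ^ 1) Ω' := fun i k z hz =>
    (hB.an _ (hAB i k) z hz.1).fun_div ((hsan z hz.1).fun_pow 1) (pow_ne_zero _ hz.2)
  obtain ⟨rr, hr, hrS, U, hU, hdet⟩ := exists_fund hΩ'o
    (fun z => Matrix.of fun i k => A i k z / s z ^ 1) (fun i k => by
      simpa only [Matrix.of_apply] using hAan i k)
    (show z0 ∈ Ω' from ⟨hz0, hsz0⟩)
  set S := ball z0 rr with hS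
  have hz0S : z0 ∈ S := mem_ball_self hr
  have hSo : IsOpen S := isOpen_ball
  have hSc : IsPreconnected S := (convex_ball z0 rr).isPreconnected
  have hSs : ∀ z ∈ S, s z ≠ 0 := fun z hz => (hrS hz).2
  have hSΩ : S ⊆ Ω := fun z hz => (hrS hz).1
  set c : Fin n → ℂ := Matrix.mulVec (U z0)⁻¹ (y z0) with hc
  have hyU : ∀ z ∈ S, ∀ i, y z i = ∑ l, U z i l * c l := by
    have h2 := sol_zero (a := z0) (r := rr) (fun i k z => A i k z / s z ^ 1)
      (fun i k => (hAan i k).mono hrS)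
      (fun z i => y z i - ∑ l, U z i l * c l) (by
        intro z hz i
        have h3 := (hsys z (hrS hz).1 (hrS hz).2).1 i
        have h4 : HasDerivAt (fun z => ∑ l, U z i l * c l)
            (∑ l, (∑ k, A i k z / s z ^ 1 * U z k l) * c l) z := by
          apply HasDerivAt.fun_sum
          intro l _
          have h5 := (hU z hz i l).mul_const (c l)
          rw [Matrix.mul_apply] at h5
          exact h5
        refine (h3.fun_sub h4).congr_deriv ?_
        simp only [mul_sub, Finset.sum_sub_distrib, Finset.sum_mul,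
          Finset.mul_sum]
        congr 1
        · rw [Finset.sum_div]
          refine Finset.sum_congr rfl fun k _ => ?_
          ring
        rw [Finset.sum_comm]
        refine Finset.sum_congr rfl fun k _ => Finset.sum_congr rfl fun l _ => ?_
        ring) (by
        intro i
        have h6 : ∑ l, U z0 i l * c l = y z0 i := by
          have h7 : Matrix.mulVec (U z0) c = y z0 := by
            rw [hc, Matrix.mulVec_mulVec, Matrix.mul_nonsing_inv _ ((hdet z0 hz0S).isUnit),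
              Matrix.one_mulVec]
          rw [← h7]
          rfl
        rw [h6, sub_self])
    intro z hz i
    exact sub_eq_zero.mp (h2 z hz i)
  -- the coefficients
  let bb : B × ℕ → ℂ → ℂ := fun p z => p.1.1 z / s z ^ p.2
  have hbb : ∀ p, AnalyticOnNhd ℂ (bb p) S := fun p z hz =>
    (hB.an _ p.1.2 z (hSΩ hz)).fun_div ((hsan z (hSΩ hz)).fun_pow _) (pow_ne_zero _ (hSs z hz))
  let dd : B × ℕ → B × ℕ := fun p =>
    (⟨der p.1.1 * s - algebraMap ℂ (ℂ → ℂ) (p.2 : ℂ) * p.1.1 * der s,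
      B.sub_mem (B.mul_mem (hderB _ p.1.2) hsB)
        (B.mul_mem (B.mul_mem (B.algebraMap_mem _) p.1.2) (hderB _ hsB))⟩, p.2 + 1)
  have hdd : ∀ p, ∀ z ∈ S, HasDerivAt (bb p) (bb (dd p) z) z := by
    rintro ⟨b, k⟩ z hz
    have h2 := hder b.1 b.2 z (hSΩ hz)
    have h3 := hder s hsB z (hSΩ hz)
    have h4 := hSs z hz
    refine (h2.fun_div (h3.fun_pow k) (pow_ne_zero k h4)).congr_deriv ?_
    have h5 : ∀ c : ℂ, (algebraMap ℂ (ℂ → ℂ) c) z = c := fun c => rfl
    simp only [bb, dd, Pi.sub_apply, Pi.mul_apply, h5]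
    cases k with
    | zero => simp; field_simp
    | succ k =>
      rw [Nat.add_sub_cancel]
      field_simp
      ring
  have hf0 : ∃ z ∈ S, f z (j 0) ≠ 0 := by
    by_contra hcon
    push Not at hcon
    have h3 : (fun w => f w (j 0)) =ᶠ[𝓝 z0] 0 := by
      filter_upwards [hSo.mem_nhds hz0S] with z hz
      exact hcon z hz
    have h4 := (hf (j 0)).eqOn_zero_of_preconnected_of_eventuallyEq_zero hΩc hz0 h3
    have h5 := hind 1 (X 0) (isHomogeneous_X _ _) (fun z hz => by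
      rw [eval₂_X]
      exact h4 hz) (Finsupp.single 0 1) z0 hz0
    rw [coeff_X, if_pos rfl] at h5
    exact one_ne_zero (α := ℂ) h5
  obtain ⟨w, hwan, ⟨a, haS, hwa⟩, hw⟩ := uni_local hSo hSc ⟨z0, hz0S⟩ bb hbb dd hdd
    (fun i k => (⟨A i k, hAB i k⟩, 1)) U
    (fun z hz i j => by
      have := hU z hz i j
      rw [Matrix.mul_apply] at this
      exact this) hdet (locAlg B s hsB S hSs) (fun p => ⟨p.1.1, p.1.2, p.2, fun z => rfl⟩)
    (fun j k => (⟨M j k, hMB j k⟩, 0)) c f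
    (by
      intro z hz j
      rw [(hsys z (hrS hz).1 (hrS hz).2).2 j]
      refine Finset.sum_congr rfl fun k _ => ?_
      rw [hyU z hz k, Finset.mul_sum]
      refine Finset.sum_congr rfl fun l _ => ?_
      simp only [bb, pow_zero, div_one]
      ring) j hf0
    (indep_loc hΩc hB hSo ⟨z0, hz0S⟩ hSΩ s hsB hSs (fun z l => f z (j l))
      (fun l => hf (j l)) hind)
  have hev : ∀ᶠ z in 𝓝[≠] z0, w z ≠ 0 := by
    rcases (hwan z0 hz0S).eventually_eq_zero_or_eventually_ne_zero with h | h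
    · exfalso
      exact hwa (hwan.eqOn_zero_of_preconnected_of_eventuallyEq_zero hSc hz0S h haS)
    · exact h
  have hevS : ∀ᶠ z in 𝓝[≠] z0, z ∈ S := mem_nhdsWithin_of_mem_nhds (hSo.mem_nhds hz0S)
  filter_upwards [hev, hevS] with z hz hzS
  obtain ⟨h1, h2⟩ := hw z hzS hz
  exact ⟨h1, h2.mono fun H hH s hs => hH s (hSΩ hs)⟩

/-- a set without accumulation points in an open set is countable there -/
theorem countable_of_disc {Ω' E : Set ℂ}
    (h : ∀ z ∈ Ω', ∀ᶠ w in 𝓝[≠] z, w ∉ E) : (E ∩ Ω').Countable := by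
  have hd : DiscreteTopology (E ∩ Ω' : Set ℂ) := by
    rw [discreteTopology_subtype_iff]
    rintro z ⟨-, hz⟩
    rw [Filter.inf_principal_eq_bot]
    filter_upwards [h z hz] with w hw hw'
    exact hw hw'.1
  have : Countable (E ∩ Ω' : Set ℂ) := countable_of_Lindelof_of_discrete
  exact this

/-- the zeros of a nonzero holomorphic function -/
theorem zeros_disc (hΩc : IsPreconnected Ω) {g : ℂ → ℂ} (hg : AnalyticOnNhd ℂ g Ω)
    (hne : ∃ z ∈ Ω, g z ≠ 0) {z0 : ℂ} (hz0 : z0 ∈ Ω) : ∀ᶠ z in 𝓝[≠] z0, g z ≠ 0 := by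
  rcases (hg z0 hz0).eventually_eq_zero_or_eventually_ne_zero with h | h
  · exfalso
    obtain ⟨a, ha, hga⟩ := hne
    exact hga (hg.eqOn_zero_of_preconnected_of_eventuallyEq_zero hΩc hz0 h ha)
  · exact h

/-- **Unirational subvarieties** through all points but countably many. -/
theorem uni_gen (hΩ : IsOpen Ω) (hΩc : IsPreconnected Ω) (hB : DiffRing Ω B)
    {N e r : ℕ} (f : ℂ → Fin (N + 1) → ℂ)
    (hf : ∀ j, AnalyticOnNhd ℂ (fun w => f w j) Ω) (hlin : LinSys r Ω B f)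
    (j : Fin (e + 1) → Fin (N + 1)) (hind : IndepOver Ω B fun z l => f z (j l)) :
    ∃ E : Set ℂ, E.Countable ∧ ∀ z ∈ Ω \ E, f z (j 0) ≠ 0 ∧
      Cover (fun H => ∀ s ∈ Ω, eval (f s) H = 0) j (f z) := by
  obtain ⟨n, s, A, M, y, hnr, hsB, ⟨z1, hz1, hsz1⟩, hAB, hMB, hsys⟩ := hlin
  let E1 : Set ℂ := {z | s z = 0}
  let E2 : Set ℂ := {z | ¬ (f z (j 0) ≠ 0 ∧ Cover (fun H => ∀ s ∈ Ω, eval (f s) H = 0) j (f z))}
  let Ω' : Set ℂ := {z ∈ Ω | s z ≠ 0}
  refine ⟨(E1 ∩ Ω) ∪ (E2 ∩ Ω'), ?_, ?_⟩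
  · apply Set.Countable.union
    · apply countable_of_disc
      intro z hz
      exact zeros_disc hΩc (hB.an s hsB) ⟨z1, hz1, hsz1⟩ hz
    · apply countable_of_disc
      rintro z ⟨hz, hsz⟩
      filter_upwards [uni_at hΩ hΩc hB f hf hsB hAB hMB hsys j hind hz hsz] with w hw hw'
      exact hw' hw
  · rintro z ⟨hz, hzE⟩
    by_contra hcon
    apply hzE
    by_cases hsz : s z = 0
    · exact Or.inl ⟨hsz, hz⟩
    · exact Or.inr ⟨hcon, hz, hsz⟩

end Pool.Agent.Q33.UR
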