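import Pool.Agent.Q33.UR.Alg
import Pool.Agent.Q33.OD.Exp
import Pool.Agent.H159R3.Exp.Curve

/-!
Polynomial parametrisations of the closures of one-parameter groups of matrices.
-/

set_option autoImplicit false

namespace Pool.Agent.Q33.UR

open MvPolynomial
open Pool.Agent.H159R3.Exp (vec core')

/-- Finitely many complex numbers are integral combinations of numbers without integral relations. -/
theorem exists_lat (Λ : Finset ℂ) : ∃ (m : ℕ) (l : Fin m → ℂ) (ν : ℂ → Fin m → ℤ),
    (∀ q : Fin m → ℤ, ∑ a, (q a : ℂ) * l a = 0 → q = 0) ∧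
    ∀ μ ∈ Λ, μ = ∑ a, (ν μ a : ℂ) * l a := by
  classical
  let M : Submodule ℤ ℂ := Submodule.span ℤ (Λ : Set ℂ)
  have hfin : Module.Finite ℤ M := Module.Finite.span_of_finite ℤ Λ.finite_toSet
  have htf : Module.IsTorsionFree ℤ M := inferInstance
  have hfree : Module.Free ℤ M := Module.free_of_finite_type_torsion_free'
  let b := Module.finBasis ℤ M
  refine ⟨Module.finrank ℤ M, fun a => (b a : ℂ),
    fun μ => if h : μ ∈ M then fun a => b.repr ⟨μ, h⟩ a else 0, ?_, ?_⟩
  · intro q hq
    have h1 : ∑ a, q a • b a = 0 := by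
      apply Subtype.ext
      rw [Submodule.coe_sum, ZeroMemClass.coe_zero, ← hq]
      refine Finset.sum_congr rfl fun a _ => ?_
      rw [Submodule.coe_smul, zsmul_eq_mul]
    have h2 := (Fintype.linearIndependent_iff.1 b.linearIndependent) q h1
    exact funext h2
  · intro μ hμ
    have hM : μ ∈ M := Submodule.subset_span hμ
    have h1 := b.sum_repr ⟨μ, hM⟩
    have h2 := congrArg (Subtype.val) h1
    rw [Submodule.coe_sum] at h2
    have h3 : ((⟨μ, hM⟩ : M) : ℂ) = μ := rfl
    rw [h3] at h2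
    conv_lhs => rw [← h2]
    refine Finset.sum_congr rfl fun a _ => ?_
    rw [Submodule.coe_smul, zsmul_eq_mul]
    simp only [dif_pos hM]

/-- the scaling factor -/
noncomputable def qq (m K : ℕ) : MvPolynomial (Fin (m + 1)) ℂ := ∏ a : Fin m, X a.succ ^ K

/-- the exponential curve -/
noncomputable def vecl {m : ℕ} (l : Fin m → ℂ) (t : ℂ) : Fin (m + 1) → ℂ :=
  vec (fun a t => l a * t) t

theorem vecl_zero {m : ℕ} (l : Fin m → ℂ) (t : ℂ) : vecl l t 0 = t := rfl

theorem vecl_succ {m : ℕ} (l : Fin m → ℂ) (t : ℂ) (a : Fin m) :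
    vecl l t a.succ = Complex.exp (l a * t) := rfl

theorem eval_qq {m : ℕ} (K : ℕ) (x : Fin (m + 1) → ℂ) :
    eval x (qq m K) = ∏ a : Fin m, x a.succ ^ K := by
  simp only [qq, map_prod, map_pow, eval_X]

theorem eval_qq_vecl {m : ℕ} (K : ℕ) (l : Fin m → ℂ) (t : ℂ) :
    eval (vecl l t) (qq m K) = Complex.exp ((K * ∑ a, l a) * t) := by
  rw [eval_qq, Finset.mul_sum, Finset.sum_mul, Complex.exp_sum]
  refine Finset.prod_congr rfl fun a _ => ?_
  rw [vecl_succ, ← Complex.exp_nat_mul, mul_assoc]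

/-- One-parameter groups as polynomials in the variable and in exponentials of independent numbers,
up to a common factor. -/
theorem exists_exps {n e : ℕ} (β : Fin e → Matrix (Fin n) (Fin n) ℂ) :
    ∃ (m K : ℕ) (l : Fin m → ℂ) (E : Fin e → Matrix (Fin n) (Fin n) (MvPolynomial (Fin (m + 1)) ℂ))
      (ex : Fin e → ℂ → Matrix (Fin n) (Fin n) ℂ),
      (∀ q : Fin m → ℤ, ∑ a, (q a : ℂ) * l a = 0 → q = 0) ∧ (∀ i, ex i 0 = 1) ∧
      (∀ i t r s, HasDerivAt (fun t => ex i t r s) ((ex i t * β i) r s) t) ∧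
      ∀ i t r s, eval (vecl l t) (E i r s) = eval (vecl l t) (qq m K) * ex i t r s := by
  classical
  choose Λ x ex hcard hex h0 hder using fun i => Pool.Agent.Q33.OD.exp_flow (β i)
  obtain ⟨m, l, ν, hl, hν⟩ := exists_lat (Finset.univ.biUnion Λ)
  let K : ℕ := ∑ μ ∈ Finset.univ.biUnion Λ, ∑ a, (ν μ a).natAbs
  have hK : ∀ i, ∀ μ ∈ Λ i, ∀ a, 0 ≤ ν μ a + K := by
    intro i μ hμ a
    have h1 : (ν μ a).natAbs ≤ ∑ a, (ν μ a).natAbs := Finset.single_le_sum
      (f := fun a => (ν μ a).natAbs) (fun _ _ => Nat.zero_le _) (Finset.mem_univ a)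
    have h2 : ∑ a, (ν μ a).natAbs ≤ K := Finset.single_le_sum
      (f := fun μ => ∑ a, (ν μ a).natAbs) (fun _ _ => Nat.zero_le _)
      (Finset.mem_biUnion.2 ⟨i, Finset.mem_univ i, hμ⟩)
    omega
  refine ⟨m, K, l, fun i => Matrix.of fun r s => ∑ μ ∈ Λ i, ∑ a ∈ Finset.range n,
    C (x i μ a r s) * X 0 ^ a * ∏ b : Fin m, X b.succ ^ (ν μ b + K).toNat, ex, hl, h0, hder, ?_⟩
  intro i t r s
  change eval (vecl l t) (∑ μ ∈ Λ i, ∑ a ∈ Finset.range n,
    C (x i μ a r s) * X 0 ^ a * ∏ b : Fin m, X b.succ ^ (ν μ b + K).toNat) = _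
  rw [hex, eval_qq, Finset.mul_sum, map_sum]
  refine Finset.sum_congr rfl fun μ hμ => ?_
  rw [Finset.mul_sum, map_sum]
  refine Finset.sum_congr rfl fun a _ => ?_
  simp only [map_mul, map_prod, map_pow, eval_C, eval_X, vecl_zero, vecl_succ]
  have h1 : ∏ b : Fin m, Complex.exp (l b * t) ^ (ν μ b + K).toNat =
      (∏ b : Fin m, Complex.exp (l b * t) ^ K) * Complex.exp (μ * t) := by
    have h2 : Complex.exp (μ * t) = ∏ b : Fin m, Complex.exp (l b * t) ^ ν μ b := by
      have h3 : μ * t = (∑ a, (ν μ a : ℂ) * l a) * t :=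
        congrArg (fun y => y * t) (hν μ (Finset.mem_biUnion.2 ⟨i, Finset.mem_univ i, hμ⟩))
      rw [h3, Finset.sum_mul, Complex.exp_sum]
      refine Finset.prod_congr rfl fun b _ => ?_
      rw [← Complex.exp_int_mul, mul_assoc]
    rw [h2, ← Finset.prod_mul_distrib]
    refine Finset.prod_congr rfl fun b _ => ?_
    rw [← zpow_natCast, ← zpow_natCast, Int.toNat_of_nonneg (hK i μ hμ b),
      ← zpow_add₀ (Complex.exp_ne_zero _), add_comm]
  rw [h1]
  ring

/-- The curve given by the variable and exponentials of independent numbers is Zariski-dense. -/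
theorem core_tor {m : ℕ} {l : Fin m → ℂ}
    (hl : ∀ q : Fin m → ℤ, ∑ a, (q a : ℂ) * l a = 0 → q = 0)
    (Q : MvPolynomial (Fin (m + 1)) ℂ) (hQ : ∀ t, eval (vecl l t) Q = 0) (x : Fin (m + 1) → ℂ)
    (hx : ∀ a : Fin m, x a.succ ≠ 0) : eval x Q = 0 := by
  have h5 := core' (fun a t => l a * t) (fun a => differentiable_id.const_mul _) 0
    (fun a => x a.succ) hx (by
      intro q hq
      have h6 : q = 0 := by
        apply hl
        rw [← hq]
        refine Finset.sum_congr rfl fun a _ => ?_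
        congr 1
        have h7 : HasDerivAt (fun t : ℂ => l a * t) (l a * 1) 0 :=
          (hasDerivAt_id (0 : ℂ)).const_mul (l a)
        rw [h7.deriv, mul_one]
      rw [h6]
      simp) (x 0) Q hQ
  have h6 : (Fin.cons (x 0) (fun a => Complex.exp (l a * 0) * x a.succ) : Fin (m + 1) → ℂ) = x := by
    funext a
    refine Fin.cases rfl (fun a => ?_) a
    simp
  rw [h6] at h5
  exact h5

/-- Polynomial relations along the exponential curve. -/
theorem par_zero {m K : ℕ} {l : Fin m → ℂ} (hl : ∀ q : Fin m → ℤ, ∑ a, (q a : ℂ) * l a = 0 → q = 0)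
    {κ : Type} [Finite κ] (E : κ → MvPolynomial (Fin (m + 1)) ℂ) (ex : ℂ → κ → ℂ)
    (hE : ∀ t p, eval (vecl l t) (E p) = eval (vecl l t) (qq m K) * ex t p)
    (R : MvPolynomial κ ℂ) (hR : ∀ t, eval (ex t) R = 0) (x : Fin (m + 1) → ℂ)
    (hx : ∀ a : Fin m, x a.succ ≠ 0) :
    eval (fun p => (eval x (qq m K))⁻¹ * eval x (E p)) R = 0 := by
  classical
  obtain ⟨d, G, hG, h⟩ := exists_hmg (rename Option.some R) (none : Option κ)
  have h1 : ∀ (c : ℂ) (u : κ → ℂ), eval (fun o => o.elim c fun p => c * u p) G =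
      c ^ d * eval u R := by
    intro c u
    have h2 := h (RingHom.id ℂ) (fun o => o.elim c fun p => c * u p) (fun o => o.elim 1 u)
      (fun o => by cases o <;> simp)
    rw [eval₂_rename] at h2
    exact h2
  let Q : MvPolynomial (Fin (m + 1)) ℂ := aeval (fun o : Option κ => o.elim (qq m K) E) G
  have hQe : ∀ y, eval y Q = eval (fun o : Option κ => o.elim (eval y (qq m K)) fun p =>
      eval y (E p)) G := by
    intro y
    have h3 := MvPolynomial.comp_aeval_apply (f := fun o : Option κ => o.elim (qq m K) E)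
      (aeval y : MvPolynomial (Fin (m + 1)) ℂ →ₐ[ℂ] ℂ) G
    have h4 : (fun i : Option κ => (aeval y : MvPolynomial (Fin (m + 1)) ℂ →ₐ[ℂ] ℂ)
        (i.elim (qq m K) E)) = fun o : Option κ => o.elim (eval y (qq m K)) fun p =>
        eval y (E p) := by
      funext o
      cases o <;> rfl
    rw [h4] at h3
    exact h3
  have hQ : ∀ z, eval (vecl l z) Q = 0 := by
    intro t
    rw [hQe]
    have h3 : (fun o : Option κ => o.elim (eval (vecl l t) (qq m K)) fun p =>
        eval (vecl l t) (E p)) = fun o : Option κ =>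
        o.elim (eval (vecl l t) (qq m K)) fun p => eval (vecl l t) (qq m K) * ex t p := by
      funext o
      cases o with
      | none => rfl
      | some p => exact hE t p
    rw [h3, h1, hR, mul_zero]
  have h5 := core_tor hl Q hQ x hx
  rw [hQe] at h5
  have hq : eval x (qq m K) ≠ 0 := by
    rw [eval_qq]
    exact Finset.prod_ne_zero_iff.2 fun a _ => pow_ne_zero _ (hx a)
  have h7 := h1 (eval x (qq m K)) (fun p => (eval x (qq m K))⁻¹ * eval x (E p))
  have h8 : (fun o : Option κ => o.elim (eval x (qq m K)) fun p => eval x (qq m K) *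
      ((eval x (qq m K))⁻¹ * eval x (E p))) = fun o : Option κ => o.elim (eval x (qq m K)) fun p =>
      eval x (E p) := by
    funext o
    cases o with
    | none => rfl
    | some p =>
      simp only [Option.elim_some]
      rw [mul_inv_cancel_left₀ hq]
  rw [h8, h5] at h7
  exact (mul_eq_zero.1 h7.symm).resolve_left (pow_ne_zero _ hq)

/-- a product with one factor -/
theorem prod_one {M : Type} [Monoid M] : ∀ {e : ℕ} (f : Fin e → M) (i : Fin e),
    (∀ j, j ≠ i → f j = 1) → (List.ofFn f).prod = f i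
  | 0, _, i, _ => i.elim0
  | e + 1, f, i, h => by
    rw [List.ofFn_succ, List.prod_cons]
    refine Fin.cases (fun h => ?_) (fun i h => ?_) i h
    · have h1 : (List.ofFn fun i : Fin e => f i.succ).prod = 1 := by
        apply List.prod_eq_one
        intro x hx
        rw [List.mem_ofFn] at hx
        obtain ⟨j, rfl⟩ := hx
        exact h _ (Fin.succ_ne_zero j)
      rw [h1, mul_one]
    · rw [h 0 (Fin.succ_ne_zero i).symm, one_mul,
        prod_one (fun i => f i.succ) i fun j hj => h _ fun h2 => hj (Fin.succ_injective _ h2)]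

end Pool.Agent.Q33.UR
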