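import Pool.Agent.Q33.UR.Tan
import Pool.Agent.Q33.UR.Par
import Pool.Agent.TH143.Local
import Pool.Agent.Q33.OD.Ode

/-!
Unirational subvarieties through the points of a curve given by linear differential equations: the
local theorem.
-/

set_option autoImplicit false

namespace Pool.Agent.Q33.UR

open MvPolynomial Metric Set Filter Topology Pool.Agent.TH143 Pool.Agent.TH143.GT

/-- polynomials which vanish on the torus -/
theorem zero_of_tor {κ : Type} [Fintype κ] {P : MvPolynomial κ ℂ}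
    (h : ∀ t : κ → ℂ, (∀ a, t a ≠ 0) → eval t P = 0) : P = 0 := by
  classical
  have h1 : P * ∏ a, X a = 0 := by
    apply MvPolynomial.funext
    intro t
    rw [map_mul, map_prod, map_zero]
    by_cases ht : ∀ a, t a ≠ 0
    · rw [h t ht, zero_mul]
    · push Not at ht
      obtain ⟨a, ha⟩ := ht
      rw [Finset.prod_eq_zero (Finset.mem_univ a) (by rw [eval_X]; exact ha), mul_zero]
  rcases mul_eq_zero.1 h1 with h2 | h2
  · exact h2
  · exact absurd h2 (Finset.prod_ne_zero_iff.2 fun a _ => X_ne_zero a)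

theorem prod_smul {n : ℕ} : ∀ {e : ℕ} (c : Fin e → ℂ) (M : Fin e → Matrix (Fin n) (Fin n) ℂ),
    (List.ofFn fun i => c i • M i).prod = (∏ i, c i) • (List.ofFn M).prod
  | 0, _, _ => by simp
  | e + 1, c, M => by
    rw [List.ofFn_succ, List.prod_cons, prod_smul (fun i => c i.succ) fun i => M i.succ,
      List.ofFn_succ, List.prod_cons, Fin.prod_univ_succ, Matrix.smul_mul, Matrix.mul_smul,
      smul_smul]

theorem eval_hom {σ : Type} [Fintype σ] {G : MvPolynomial σ ℂ} {d : ℕ} (hG : G.IsHomogeneous d)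
    (c : ℂ) (x : σ → ℂ) : eval (fun i => c * x i) G = c ^ d * eval x G := by
  rw [eval_eq', eval_eq', Finset.mul_sum]
  refine Finset.sum_congr rfl fun m hm => ?_
  have h1 : m.degree = d := by
    have h2 := hG (mem_support_iff.1 hm)
    rwa [Finsupp.degree_eq_weight_one]
  have h3 : ∏ i, (c * x i) ^ m i = c ^ d * ∏ i, x i ^ m i := by
    rw [← h1, Finsupp.degree_eq_sum, ← Finset.prod_pow_eq_pow_sum, ← Finset.prod_mul_distrib]
    refine Finset.prod_congr rfl fun i _ => ?_
    rw [mul_pow]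
  rw [h3]
  ring

/-- Through `x` there is the image of a polynomial map `W` which satisfies the relations `I` and whose
coordinates `j 0, …, j e` have a nonvanishing Jacobian. -/
def Cover {N e : ℕ} (I : MvPolynomial (Fin (N + 1)) ℂ → Prop) (j : Fin (e + 1) → Fin (N + 1))
    (x : Fin (N + 1) → ℂ) : Prop :=
  ∃ (κ : Type) (_ : Fintype κ) (W : Fin (N + 1) → MvPolynomial κ ℂ) (x0 : κ → ℂ)
    (u : Fin e → κ → ℂ), (∀ i, eval x0 (W i) = x i) ∧
    (∀ (d : ℕ) (H : MvPolynomial (Fin (N + 1)) ℂ), H.IsHomogeneous d → I H → aeval W H = 0) ∧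
    (Matrix.of fun i l : Fin e =>
      eval x0 (mkDerivation ℂ (fun a => C (u i a)) (W (j l.succ))) * x (j 0) -
        x (j l.succ) * eval x0 (mkDerivation ℂ (fun a => C (u i a)) (W (j 0)))).det ≠ 0

section mon

variable {ι : Type} {n : ℕ} (b : ι → ℂ → ℂ) (U : ℂ → Matrix (Fin n) (Fin n) ℂ) (S : Set ℂ)

/-- the point `(b z, U z g)` -/
def pg (z : ℂ) (g : Matrix (Fin n) (Fin n) ℂ) : ι ⊕ (Fin n × Fin n) → ℂ :=
  Sum.elim (fun i => b i z) (fun p => (U z * g) p.1 p.2)

/-- right translation of polynomials -/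
noncomputable def tr (g : Matrix (Fin n) (Fin n) ℂ) (P : MvPolynomial (ι ⊕ (Fin n × Fin n)) ℂ) :
    MvPolynomial (ι ⊕ (Fin n × Fin n)) ℂ :=
  aeval (Sum.elim (fun i => X (Sum.inl i)) (fun p => ∑ k, X (Sum.inr (p.1, k)) * C (g k p.2))) P

theorem eval_tr (z : ℂ) (g h : Matrix (Fin n) (Fin n) ℂ)
    (P : MvPolynomial (ι ⊕ (Fin n × Fin n)) ℂ) : eval (pg b U z h) (tr g P) =
      eval (pg b U z (h * g)) P := by
  have h3 := MvPolynomial.comp_aeval_apply (f := Sum.elim (fun i => X (Sum.inl i))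
    (fun p : Fin n × Fin n => ∑ k, X (Sum.inr (p.1, k)) * C (g k p.2)))
    (aeval (pg b U z h) : MvPolynomial (ι ⊕ (Fin n × Fin n)) ℂ →ₐ[ℂ] ℂ) P
  refine Eq.trans h3 ?_
  rw [← aeval_eq_eval]
  congr 2
  funext l
  rcases l with i | p
  · simp [pg]
  · simp only [Sum.elim_inr, map_sum, map_mul, aeval_X, pg]
    rw [← Matrix.mul_assoc, Matrix.mul_apply]
    refine Finset.sum_congr rfl fun k _ => ?_
    congr 1
    simp

/-- the matrices which preserve the relations -/
def mon : Submonoid (Matrix (Fin n) (Fin n) ℂ) where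
  carrier := {g | ∀ P, Rel (vv b U) S P → ∀ z ∈ S, eval (pg b U z g) P = 0}
  one_mem' := by
    intro P hP z hz
    have h1 : pg b U z 1 = vv b U z := by
      unfold pg vv
      rw [Matrix.mul_one]
    rw [h1]
    exact hP z hz
  mul_mem' := by
    intro g h hg hh P hP z hz
    rw [← eval_tr]
    apply hg _ _ z hz
    intro s hs
    have h1 : vv b U s = pg b U s 1 := by
      unfold pg vv
      rw [Matrix.mul_one]
    rw [h1, eval_tr, one_mul]
    exact hh P hP s hs

variable {b U S}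

/-- one-parameter groups -/
theorem exp_mem {β : Matrix (Fin n) (Fin n) ℂ}
    (hδ : ∀ P, Rel (vv b U) S P → Rel (vv b U) S (mkDerivation ℂ (WW β) P))
    {ex : ℂ → Matrix (Fin n) (Fin n) ℂ} (h0 : ex 0 = 1)
    (hder : ∀ t r s, HasDerivAt (fun t => ex t r s) ((ex t * β) r s) t) (t : ℂ) :
    ex t ∈ mon b U S := by
  intro P hP z hz
  refine rel_flow hδ hz (fun t => pg b U z (ex t)) ?_ ?_ P hP t
  · intro t _ l
    rcases l with i | ⟨i, j⟩
    · simp only [pg, Sum.elim_inl, WW, map_zero]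
      exact hasDerivAt_const t _
    · simp only [pg, Sum.elim_inr, WW, map_sum, map_mul, eval_X, eval_C]
      have h1 : HasDerivAt (fun s => (U z * ex s) i j) (∑ k, U z i k * (ex t * β) k j) t := by
        simp only [Matrix.mul_apply]
        apply HasDerivAt.fun_sum
        intro k _
        have := (hder t k j).const_mul (U z i k)
        rw [Matrix.mul_apply] at this
        exact this
      refine h1.congr_deriv ?_
      rw [← Matrix.mul_apply, ← Matrix.mul_assoc, Matrix.mul_apply]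
  · unfold pg vv
    rw [h0, Matrix.mul_one]

/-- closures of one-parameter groups -/
theorem par_mem {m K : ℕ} {l : Fin m → ℂ}
    (hl : ∀ q : Fin m → ℤ, ∑ a, (q a : ℂ) * l a = 0 → q = 0)
    {E : Matrix (Fin n) (Fin n) (MvPolynomial (Fin (m + 1)) ℂ)}
    {ex : ℂ → Matrix (Fin n) (Fin n) ℂ} (hex : ∀ t, ex t ∈ mon b U S)
    (hE : ∀ t r s, eval (vecl l t) (E r s) = eval (vecl l t) (qq m K) * ex t r s)
    (x : Fin (m + 1) → ℂ) (hx : ∀ a : Fin m, x a.succ ≠ 0) :
    (eval x (qq m K))⁻¹ • E.map (eval x) ∈ mon b U S := by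
  intro P hP z hz
  let R : MvPolynomial (Fin n × Fin n) ℂ := aeval (Sum.elim (fun i => C (b i z))
    (fun p => ∑ k, C (U z p.1 k) * X (k, p.2))) P
  have hR : ∀ Y : Matrix (Fin n) (Fin n) ℂ, eval (fun p => Y p.1 p.2) R =
      eval (pg b U z Y) P := by
    intro Y
    have h3 := MvPolynomial.comp_aeval_apply (f := Sum.elim (fun i => C (b i z))
      (fun p : Fin n × Fin n => ∑ k, C (U z p.1 k) * X (k, p.2)))
      (aeval (fun p : Fin n × Fin n => Y p.1 p.2) : MvPolynomial (Fin n × Fin n) ℂ →ₐ[ℂ] ℂ) P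
    refine Eq.trans h3 ?_
    rw [← aeval_eq_eval]
    congr 2
    funext l
    rcases l with i | p
    · simp [pg]
    · simp only [Sum.elim_inr, map_sum, map_mul, aeval_X, pg, Matrix.mul_apply]
      refine Finset.sum_congr rfl fun k _ => ?_
      congr 1
      simp
  have h1 := par_zero (K := K) hl (fun p : Fin n × Fin n => E p.1 p.2)
    (fun t p => ex t p.1 p.2) (fun t p => hE t p.1 p.2) R
    (fun t => by rw [hR (ex t)]; exact hex t P hP z hz) x hx
  rw [← hR]
  rw [← h1]
  rfl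

end mon

/-- the parametrised product -/
theorem exists_cover {S : Set ℂ} {ι : Type} {n e : ℕ} {b : ι → ℂ → ℂ}
    {U : ℂ → Matrix (Fin n) (Fin n) ℂ} {N : ℕ} (L : Fin (N + 1) → Fin n → ι) (c : Fin n → ℂ)
    {f : ℂ → Fin (N + 1) → ℂ}
    (hf : ∀ z ∈ S, ∀ j, f z j = ∑ k, ∑ l, b (L j k) z * c l * U z k l)
    (j : Fin (e + 1) → Fin (N + 1)) (β : Fin e → Matrix (Fin n) (Fin n) ℂ)
    (hδ : ∀ i, ∀ P, Rel (vv b U) S P → Rel (vv b U) S (mkDerivation ℂ (WW (β i)) P))
    {z : ℂ} (hz : z ∈ S) {Φ : Fin (N + 1) → MvPolynomial (ι ⊕ (Fin n × Fin n)) ℂ}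
    (hΦd : ∀ j, Φ j = ∑ k, ∑ l, X (Sum.inl (L j k)) * MvPolynomial.C (c l) * X (Sum.inr (k, l)))
    (hw : (Matrix.of fun i l : Fin e =>
      eval (vv b U z) (mkDerivation ℂ (WW (β i)) (Φ (j l.succ))) * eval (vv b U z) (Φ (j 0)) -
        eval (vv b U z) (Φ (j l.succ)) *
          eval (vv b U z) (mkDerivation ℂ (WW (β i)) (Φ (j 0)))).det ≠ 0) :
    Cover (fun H => ∀ s ∈ S, eval (f s) H = 0) j (f z) := by
  classical
  have hΦ : ∀ z ∈ S, ∀ j, eval (vv b U z) (Φ j) = f z j := by
    intro z hz j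
    rw [hf z hz j, hΦd]
    simp only [map_sum, map_mul, eval_C, eval_X, vv, Sum.elim_inr, Sum.elim_inl]
  have hqe : ∀ (R : MvPolynomial (Fin (N + 1)) ℂ) (x : ι ⊕ (Fin n × Fin n) → ℂ),
      eval x (bind₁ Φ R) = eval (fun j => eval x (Φ j)) R := by
    intro R x
    rw [eval, eval₂Hom_bind₁]
    rfl
  obtain ⟨m, K, l, E, ex, hl, hex0, hexd, hE⟩ := exists_exps β
  have hexm : ∀ i t, ex i t ∈ mon b U S := fun i t => exp_mem (hδ i) (hex0 i) (hexd i) t
  let κ := Fin e × Fin (m + 1)
  let EE' : Fin e → Matrix (Fin n) (Fin n) (MvPolynomial κ ℂ) := fun i =>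
    (E i).map (rename fun a => (i, a))
  let PP : Matrix (Fin n) (Fin n) (MvPolynomial κ ℂ) := (List.ofFn EE').prod
  have hPP : ∀ x : κ → ℂ, PP.map (eval x) =
      (List.ofFn fun i => (E i).map (eval fun a => x (i, a))).prod := by
    intro x
    have h1 := map_list_prod ((eval x).mapMatrix (m := Fin n)) (List.ofFn EE')
    rw [List.map_ofFn] at h1
    change (eval x).mapMatrix PP = _
    rw [h1]
    congr 2
    funext i
    ext r s
    simp only [Function.comp, RingHom.mapMatrix_apply, Matrix.map_apply, EE', eval_rename]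
    rfl
  -- the linear map
  let Ψ : Fin (N + 1) → Matrix (Fin n) (Fin n) ℂ → ℂ := fun j Y =>
    ∑ k, ∑ l, b (L j k) z * c l * (U z * Y) k l
  have hΨ : ∀ j Y, Ψ j Y = eval (pg b U z Y) (Φ j) := by
    intro j Y
    rw [hΦd]
    simp only [map_sum, map_mul, eval_C, eval_X, pg, Sum.elim_inr, Sum.elim_inl, Ψ]
  have hΨs : ∀ j (a : ℂ) Y, Ψ j (a • Y) = a * Ψ j Y := by
    intro j a Y
    simp only [Ψ, Matrix.mul_smul, Matrix.smul_apply, smul_eq_mul, Finset.mul_sum]
    refine Finset.sum_congr rfl fun k _ => Finset.sum_congr rfl fun l _ => ?_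
    ring
  let W : Fin (N + 1) → MvPolynomial κ ℂ := fun j =>
    ∑ k, ∑ l, C (b (L j k) z * c l) * ∑ r, C (U z k r) * PP r l
  have hW : ∀ x j, eval x (W j) = Ψ j (PP.map (eval x)) := by
    intro x j
    simp only [W, Ψ, map_sum, map_mul, eval_C, Matrix.mul_apply, Matrix.map_apply]
  -- the base point and the curves through it
  let x0 : κ → ℂ := fun p => vecl l 0 p.2
  let xc : Fin e → ℂ → κ → ℂ := fun i t p => if p.1 = i then vecl l t p.2 else vecl l 0 p.2
  let u : Fin e → κ → ℂ := fun i p => if p.1 = i then (Fin.cons 1 l : Fin (m + 1) → ℂ) p.2 else 0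
  have hq0 : eval (vecl l 0) (qq m K) = 1 := by
    rw [eval_qq_vecl, mul_zero, Complex.exp_zero]
  have hE0 : ∀ i, (E i).map (eval (vecl l 0)) = 1 := by
    intro i
    ext r s
    rw [Matrix.map_apply, hE, hq0, one_mul, hex0]
  have hxc0 : ∀ i, xc i 0 = x0 := by
    intro i
    funext p
    simp only [xc, x0, ite_self]
  have hPc : ∀ i t, PP.map (eval (xc i t)) = eval (vecl l t) (qq m K) • ex i t := by
    intro i t
    rw [hPP, prod_one _ i]
    · ext r s
      have h1 : (fun a => xc i t (i, a)) = vecl l t := by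
        funext a
        simp only [xc, if_true]
      rw [Matrix.map_apply, h1, hE, Matrix.smul_apply, smul_eq_mul]
    · intro i' hi'
      have h1 : (fun a => xc i t (i', a)) = vecl l 0 := by
        funext a
        simp only [xc, if_neg hi']
      rw [h1, hE0]
  have hWc : ∀ i t j, eval (xc i t) (W j) =
      Complex.exp ((K * ∑ a, l a) * t) * eval (pg b U z (ex i t)) (Φ j) := by
    intro i t j
    rw [hW, hPc, hΨs, hΨ, eval_qq_vecl]
  have hpg1 : pg b U z 1 = vv b U z := by
    unfold pg vv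
    rw [Matrix.mul_one]
  have hP0 : PP.map (eval x0) = 1 := by
    rw [hPP]
    apply List.prod_eq_one
    intro y hy
    rw [List.mem_ofFn] at hy
    obtain ⟨i, rfl⟩ := hy
    exact hE0 i
  have hW0 : ∀ j, eval x0 (W j) = f z j := by
    intro j
    rw [hW, hP0, hΨ, hpg1, hΦ z hz]
  have hder : ∀ i j, eval x0 (mkDerivation ℂ (fun a => C (u i a)) (W j)) =
      (K * ∑ a, l a) * f z j + eval (vv b U z) (mkDerivation ℂ (WW (β i)) (Φ j)) := by
    intro i j
    have h1 : HasDerivAt (fun t => eval (xc i t) (W j))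
        (eval (xc i 0) (mkDerivation ℂ (fun a => C (u i a)) (W j))) 0 := by
      apply hasDerivAt_sol
      intro p
      rw [eval_C]
      by_cases hp : p.1 = i
      · simp only [xc, u, if_pos hp]
        obtain ⟨i', a⟩ := p
        refine Fin.cases ?_ (fun a => ?_) a
        · simp only [vecl_zero, Fin.cons_zero]
          exact hasDerivAt_id 0
        · simp only [vecl_succ, Fin.cons_succ]
          have h2 := ((hasDerivAt_id (0 : ℂ)).const_mul (l a)).cexp
          simpa using h2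
      · simp only [xc, u, if_neg hp]
        exact hasDerivAt_const _ _
    rw [hxc0] at h1
    have h2 : HasDerivAt (fun t : ℂ => Complex.exp ((K * ∑ a, l a) * t)) (K * ∑ a, l a) 0 := by
      have h3 := ((hasDerivAt_id (0 : ℂ)).const_mul (K * ∑ a, l a)).cexp
      simpa using h3
    have hysol : Sol (WW (β i)) (fun t => pg b U z (ex i t)) univ := by
      intro t _ l
      rcases l with i' | ⟨r, s⟩
      · simp only [pg, Sum.elim_inl, WW, map_zero]
        exact hasDerivAt_const t _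
      · simp only [pg, Sum.elim_inr, WW, map_sum, map_mul, eval_X, eval_C]
        have h1 : HasDerivAt (fun t => (U z * ex i t) r s) (∑ k, U z r k * (ex i t * β i) k s) t := by
          simp only [Matrix.mul_apply]
          apply HasDerivAt.fun_sum
          intro k _
          have := (hexd i t k s).const_mul (U z r k)
          rw [Matrix.mul_apply] at this
          exact this
        refine h1.congr_deriv ?_
        rw [← Matrix.mul_apply, ← Matrix.mul_assoc, Matrix.mul_apply]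
    have h3 := hasDerivAt_sol (WW (β i)) (fun t => pg b U z (ex i t)) 0 (hysol 0 (mem_univ 0)) (Φ j)
    beta_reduce at h3
    rw [hex0, hpg1] at h3
    have h4 := h2.mul h3
    have h5 : (fun t => eval (xc i t) (W j)) = (fun t : ℂ => Complex.exp ((K * ∑ a, l a) * t)) *
        fun t => eval (pg b U z (ex i t)) (Φ j) := by
      funext t
      rw [hWc]
      rfl
    rw [h5] at h1
    have h6 := h1.unique h4
    rw [h6, hex0, hpg1, hΦ z hz, mul_zero, Complex.exp_zero, one_mul]
  refine ⟨κ, inferInstance, W, x0, u, hW0, ?_, ?_⟩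
  · intro d H hH hI
    apply zero_of_tor
    intro x hx
    have h1 := MvPolynomial.comp_aeval_apply (f := W)
      (aeval x : MvPolynomial κ ℂ →ₐ[ℂ] ℂ) H
    have h2 : eval x (aeval W H) = eval (fun j => eval x (W j)) H := h1
    let g : Matrix (Fin n) (Fin n) ℂ :=
      (List.ofFn fun i => (eval (fun a => x (i, a)) (qq m K))⁻¹ •
        (E i).map (eval fun a => x (i, a))).prod
    have hg : g ∈ mon b U S := by
      apply Submonoid.list_prod_mem
      intro y hy
      rw [List.mem_ofFn] at hy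
      obtain ⟨i, rfl⟩ := hy
      exact par_mem hl (hexm i) (fun t r s => hE i t r s) _ fun a => hx (i, a.succ)
    have hq : ∀ i, eval (fun a => x (i, a)) (qq m K) ≠ 0 := by
      intro i
      rw [eval_qq]
      exact Finset.prod_ne_zero_iff.2 fun a _ => pow_ne_zero _ (hx (i, a.succ))
    have hgs : PP.map (eval x) = (∏ i, eval (fun a => x (i, a)) (qq m K)) • g := by
      rw [← prod_smul, hPP]
      congr 2
      funext i
      rw [smul_smul, mul_inv_cancel₀ (hq i), one_smul]
    have h3 : (fun j => eval x (W j)) = fun j => (∏ i, eval (fun a => x (i, a)) (qq m K)) *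
        eval (pg b U z g) (Φ j) := by
      funext j
      rw [hW, hgs, hΨs, hΨ]
    rw [h2, h3, eval_hom hH]
    have h4 := hg (bind₁ Φ H) (fun s hs => by
      rw [hqe]
      have h5 : (fun j => eval (vv b U s) (Φ j)) = f s := funext (hΦ s hs)
      rw [h5]
      exact hI s hs) z hz
    rw [hqe] at h4
    rw [h4, mul_zero]
  · intro h0
    apply hw
    rw [← h0]
    congr 2
    funext i l
    rw [hder, hder, hΦ z hz, hΦ z hz]
    ring

/-- **The local theorem.** -/
theorem uni_local {S : Set ℂ} (hS : IsOpen S) (hSc : IsPreconnected S) (hne : S.Nonempty)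
    {ι : Type} (b : ι → ℂ → ℂ) (hb : ∀ i, AnalyticOnNhd ℂ (b i) S) (d : ι → ι)
    (hd : ∀ i, ∀ z ∈ S, HasDerivAt (b i) (b (d i) z) z)
    {n : ℕ} (A : Fin n → Fin n → ι) (U : ℂ → Matrix (Fin n) (Fin n) ℂ)
    (hU : ∀ z ∈ S, ∀ i j, HasDerivAt (fun w => U w i j) (∑ k, b (A i k) z * U z k j) z)
    (hdet : ∀ z ∈ S, (U z).det ≠ 0)
    (B : Subalgebra ℂ (Hol S)) (hB : ∀ i, toHol (b i) (hb i) ∈ B)
    {N e : ℕ} (L : Fin (N + 1) → Fin n → ι) (c : Fin n → ℂ) (f : ℂ → Fin (N + 1) → ℂ)
    (hf : ∀ z ∈ S, ∀ j, f z j = ∑ k, ∑ l, b (L j k) z * c l * U z k l)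
    (j : Fin (e + 1) → Fin (N + 1)) (hg0 : ∃ z ∈ S, f z (j 0) ≠ 0)
    (hNA : ∀ (d : ℕ) (P : MvPolynomial (Fin (e + 1)) B), P.IsHomogeneous d →
      (∀ z : S, eval₂ ((evz z : Hol S →+* ℂ).comp B.val.toRingHom) (fun l => f z (j l)) P = 0) →
      P = 0) :
    ∃ w : ℂ → ℂ, AnalyticOnNhd ℂ w S ∧ (∃ z ∈ S, w z ≠ 0) ∧
      ∀ z ∈ S, w z ≠ 0 → f z (j 0) ≠ 0 ∧ Cover (fun H => ∀ s ∈ S, eval (f s) H = 0) j (f z) := by
  classical
  set v := vv b U with hv
  let Φ : Fin (N + 1) → MvPolynomial (ι ⊕ (Fin n × Fin n)) ℂ := fun j =>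
    ∑ k, ∑ l, X (Sum.inl (L j k)) * MvPolynomial.C (c l) * X (Sum.inr (k, l))
  have hΦ : ∀ z ∈ S, ∀ j, eval (v z) (Φ j) = f z j := by
    intro z hz j
    rw [hf z hz j]
    simp only [Φ, map_sum, map_mul, eval_C, eval_X, v, vv, Sum.elim_inr, Sum.elim_inl]
  -- the system
  have hsol : Sol (EE d A) v S := by
    intro z hz l
    rcases l with i | ⟨i, j⟩
    · have := hd i z hz
      simpa [EE, v, vv] using this
    · have := hU z hz i j
      simpa [EE, v, vv] using this
  have hvan : ∀ l, AnalyticOnNhd ℂ (fun z => v z l) S := by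
    intro l
    have := hsol.analytic hS (X l)
    simpa using this
  let V : ι ⊕ (Fin n × Fin n) → Hol S := fun l => toHol (fun z => v z l) (hvan l)
  have hVe : ∀ (z : S), (fun l => evz z (V l)) = v z := fun z => rfl
  have hVP : ∀ (z : S) (P : MvPolynomial (ι ⊕ (Fin n × Fin n)) ℂ),
      evz z (aeval V P) = eval (v z) P := by
    intro z P
    have h4 := MvPolynomial.comp_aeval_apply (f := V) (evz z) P
    rw [h4, ← MvPolynomial.aeval_eq_eval]
    rfl
  have hrel : ∀ P, Rel v S P ↔ aeval V P = 0 := by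
    intro P
    constructor
    · intro h
      exact hol_ext fun z => by rw [hVP, map_zero]; exact h z z.2
    · intro h z hz
      rw [← hVP ⟨z, hz⟩, h, map_zero]
  obtain ⟨a, M, haP, haG0, haG⟩ := exists_tangents hSc hne B V (fun i => hB i)
    (fun l => Φ (j l)) (by
      obtain ⟨z, hz, h⟩ := hg0
      intro h0
      apply h
      rw [← hΦ z hz, ← hVP ⟨z, hz⟩, h0, map_zero]) (by
      intro d P hP h
      apply hNA d P hP
      intro z
      have h1 := congrArg (evz z) h
      rw [map_zero] at h1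
      rw [← h1]
      have h2 := hom_eval₂ P B.val.toRingHom (evz z : Hol S →+* ℂ) (fun l => aeval V (Φ (j l)))
      refine Eq.trans ?_ h2.symm
      congr 1
      funext l
      change f z (j l) = evz z (aeval V (Φ (j l)))
      rw [hVP, hΦ z z.2])
  let β : Fin e → Matrix (Fin n) (Fin n) ℂ := fun i => (U a)⁻¹ * Matrix.of fun r s => M i (r, s)
  have hUβ : ∀ i, ∀ p : Fin n × Fin n, (U a * β i) p.1 p.2 = M i p := by
    intro i p
    simp only [β]
    rw [← Matrix.mul_assoc, Matrix.mul_nonsing_inv _ ((hdet a a.2).isUnit), Matrix.one_mul]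
    rfl
  have hW1 : ∀ (i : Fin e) (i' : ι), eval (fun l => evz a (V l)) (WW (β i) (Sum.inl i')) = 0 := by
    intro i i'
    simp [WW]
  have hW2 : ∀ (i : Fin e) (p : Fin n × Fin n),
      eval (fun l => evz a (V l)) (WW (β i) (Sum.inr p)) = M i p := by
    intro i p
    rw [← hUβ i p, Matrix.mul_apply]
    simp only [WW, Sum.elim_inr, map_sum, map_mul, eval_X, eval_C]
    rfl
  have haG' := haG (fun i => WW (β i)) (fun i i' => hW1 i i') fun i p => hW2 i p
  have hδ : ∀ i, ∀ P, Rel v S P → Rel v S (mkDerivation ℂ (WW (β i)) P) := fun i =>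
    rel_of_point hS hSc hsol (comm_EW d A (β i)) a.2
      (fun P hP => haP i (WW (β i)) (hW1 i) (hW2 i) P ((hrel P).mp hP))
  rw [hVe] at haG' haG0
  let MM : Matrix (Fin e) (Fin e) (MvPolynomial (ι ⊕ (Fin n × Fin n)) ℂ) := Matrix.of fun i l =>
    mkDerivation ℂ (WW (β i)) (Φ (j l.succ)) * Φ (j 0) -
      Φ (j l.succ) * mkDerivation ℂ (WW (β i)) (Φ (j 0))
  have hMM : ∀ z, eval (v z) MM.det = (Matrix.of fun i l : Fin e =>
      eval (v z) (mkDerivation ℂ (WW (β i)) (Φ (j l.succ))) * eval (v z) (Φ (j 0)) -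
        eval (v z) (Φ (j l.succ)) *
          eval (v z) (mkDerivation ℂ (WW (β i)) (Φ (j 0)))).det := by
    intro z
    rw [RingHom.map_det]
    congr 1
    ext i l
    simp only [MM, RingHom.mapMatrix_apply, Matrix.map_apply, Matrix.of_apply, map_sub, map_mul]
  refine ⟨fun z => eval (v z) (MM.det * Φ (j 0)), hsol.analytic hS _, ⟨a, a.2, ?_⟩, ?_⟩
  · beta_reduce
    rw [map_mul, hMM]
    exact mul_ne_zero haG' haG0
  · intro z hz hwz
    beta_reduce at hwz
    rw [map_mul, hMM] at hwz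
    refine ⟨?_, exists_cover L c hf j β hδ hz (fun _ => rfl) (left_ne_zero_of_mul hwz)⟩
    rw [← hΦ z hz]
    exact right_ne_zero_of_mul hwz

end Pool.Agent.Q33.UR
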