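import Pool.Agent.Q33.UR.Gen
import Pool.Agent.Q33.UR.Dom
import Pool.Agent.Q33.OD.Punc
import Pool.Agent.Q33.SP.Hull4

/-!
A projective variety is unirational if and only if it contains a nondegenerate curve given by linear
differential equations.
-/

set_option autoImplicit false

namespace Pool.Agent.Q33.UR

open MvPolynomial Metric Set Filter Topology Pool.Agent.TH143 Pool.Agent.TH143.GT
open Pool.Agent.W602.GT (IsForm)
open Pool.Agent.Q33.OD (LinSys polyB)
open Pool.Agent.Q33.SP (Unirational)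

variable {Ω : Set ℂ} {B : Subalgebra ℂ (ℂ → ℂ)} {N : ℕ}

/-- `w` of the ratios of the coordinates of `f` are algebraically independent over `B`. -/
def Full (Ω : Set ℂ) (B : Subalgebra ℂ (ℂ → ℂ)) (w : ℕ) (f : ℂ → Fin (N + 1) → ℂ) : Prop :=
  ∃ j : Fin (w + 1) → Fin (N + 1), IndepOver Ω B fun z l => f z (j l)

/-- Every homogeneous algebraic relation with coefficients in `B` that holds for `f` holds
identically on the variety with the ideal `p`. -/
def NonDeg (Ω : Set ℂ) (B : Subalgebra ℂ (ℂ → ℂ)) (p : Ideal (MvPolynomial (Fin (N + 1)) ℂ))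
    (f : ℂ → Fin (N + 1) → ℂ) : Prop :=
  ∀ (d : ℕ) (P : MvPolynomial (Fin (N + 1)) B), P.IsHomogeneous d →
    (∀ z ∈ Ω, eval₂ (evB B z) (f z) P = 0) → ∀ z ∈ Ω, MvPolynomial.map (evB B z) P ∈ p

theorem cover_unirational {w : ℕ} {K : Type} [Field K] [Algebra ℂ K] {y : Fin (N + 1) → K}
    {I : MvPolynomial (Fin (N + 1)) ℂ → Prop} {j : Fin (w + 1) → Fin (N + 1)}
    (hI : ∀ (d : ℕ) (H : MvPolynomial (Fin (N + 1)) ℂ), H.IsHomogeneous d → aeval y H = 0 → I H)
    (hy0 : y (j 0) ≠ 0) (hbas : IsTranscendenceBasis ℂ fun l : Fin w => y (j l.succ) / y (j 0))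
    {x : Fin (N + 1) → ℂ} (hx0 : x (j 0) ≠ 0) (h : Cover I j x) : Unirational y := by
  classical
  obtain ⟨κ, iκ, W, x0, u, h1, h2, h3⟩ := h
  have hev : ∀ H, eval x0 (aeval W H) = eval x H := by
    intro H
    have h4 := MvPolynomial.comp_aeval_apply (f := W) (aeval x0 : MvPolynomial κ ℂ →ₐ[ℂ] ℂ) H
    have h5 : (fun i => (aeval x0 : MvPolynomial κ ℂ →ₐ[ℂ] ℂ) (W i)) = x := funext h1
    rw [h5] at h4
    exact h4
  have hdom := dom (k := ℂ) y (j 0) hy0 (fun l => j l.succ) hbas W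
    (fun d H hH h0 => h2 d H hH (hI d H hH h0)) (by
      intro h0
      apply hx0
      rw [← h1, h0, map_zero]) (fun i => mkDerivation ℂ (fun a => C (u i a))) (by
      intro h0
      apply h3
      have h4 := congrArg (eval x0) h0
      rw [map_zero, RingHom.map_det] at h4
      rw [← h4]
      congr 1
      ext i l
      simp only [RingHom.mapMatrix_apply, Matrix.map_apply, Matrix.of_apply, map_sub, map_mul, h1])
  let σ := Fintype.equivFin κ
  refine ⟨Fintype.card κ, fun i => rename σ (W i), fun H hH => ?_⟩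
  have h6 : aeval (fun i => rename σ (W i)) H = rename σ (aeval W H) :=
    (MvPolynomial.comp_aeval_apply (f := W) (rename σ : MvPolynomial κ ℂ →ₐ[ℂ] _) H).symm
  obtain ⟨d, hHd⟩ := hH
  rw [h6, map_eq_zero_iff _ (rename_injective _ σ.injective)]
  exact ⟨fun h0 => h2 d H hHd (hI d H hHd h0), fun h0 => hdom d H hHd h0⟩

theorem exists_point (hΩ : IsOpen Ω) (hne : Ω.Nonempty) {E : Set ℂ} (hE : E.Countable) :
    ∃ z, z ∈ Ω \ E := by
  by_contra hcon
  push Not at hcon
  have h1 : Ω ⊆ E := by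
    intro z hz
    by_contra h
    exact hcon z ⟨hz, h⟩
  have h2 : Ω.Countable := hE.mono h1
  have h3 := h2.dense_compl ℝ
  obtain ⟨z, hz⟩ := h3.inter_open_nonempty Ω hΩ hne
  exact hz.2 hz.1

/-- relations of the variety are relations of the curve -/
theorem full_basis {p : Ideal (MvPolynomial (Fin (N + 1)) ℂ)} {Q : MvPolynomial (Fin (N + 1)) ℂ}
    {K : Type} [Field K] [Algebra ℂ K] {w : ℕ} {y : Fin (N + 1) → K} (hy : FunField p Q K w y)
    (hne : Ω.Nonempty) {f : ℂ → Fin (N + 1) → ℂ} (hX : ∀ z ∈ Ω, ∀ H ∈ p, eval (f z) H = 0)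
    {j : Fin (w + 1) → Fin (N + 1)} (hj : IndepOver Ω B fun z l => f z (j l)) :
    y (j 0) ≠ 0 ∧ IsTranscendenceBasis ℂ fun l : Fin w => y (j l.succ) / y (j 0) := by
  classical
  obtain ⟨z0, hz0⟩ := hne
  have hhom : ∀ (d : ℕ) (P : MvPolynomial (Fin (w + 1)) ℂ), P.IsHomogeneous d →
      aeval (fun l => y (j l)) P = 0 → P = 0 := by
    intro d P hP h
    have h1 : rename j P ∈ p := by
      apply hy.mem _ ⟨d, hP.rename_isHomogeneous⟩
      unfold Pool.Agent.W602.GT.val
      rw [aeval_rename]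
      exact h
    have h2 : (MvPolynomial.map (algebraMap ℂ B) P).IsHomogeneous d := hP.map _
    have h3 := hj d (MvPolynomial.map (algebraMap ℂ B) P) h2 (by
      intro z hz
      rw [eval₂_map]
      have h4 : (evB B z).comp (algebraMap ℂ B) = RingHom.id ℂ := by
        ext c
        rfl
      rw [h4]
      have h5 := hX z hz _ h1
      rw [eval_rename] at h5
      exact h5)
    ext a
    have h6 := h3 a z0 hz0
    rw [coeff_map] at h6
    rw [coeff_zero]
    exact h6
  have hy0 : y (j 0) ≠ 0 := by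
    intro h0
    have h1 := hhom 1 (X 0) (isHomogeneous_X _ _) (by rw [aeval_X]; exact h0)
    exact X_ne_zero (R := ℂ) (0 : Fin (w + 1)) h1
  refine ⟨hy0, ?_⟩
  have hind : AlgebraicIndependent ℂ fun l : Fin w => y (j l.succ) / y (j 0) := by
    rw [algebraicIndependent_iff]
    intro P hP
    exact indep_of_hom (algebraMap ℂ K) (fun l => y (j l)) hy0 hhom P hP
  apply AlgebraicIndependent.isTranscendenceBasis_of_trdeg_le_of_finite hind
  rw [hy.sub.dim]
  simp

/-- **Curves of maximal transcendence degree** given by linear differential equations. -/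
theorem unirational_of_full (hΩ : IsOpen Ω) (hΩc : IsPreconnected Ω) (hne : Ω.Nonempty)
    (hB : DiffRing Ω B) {f : ℂ → Fin (N + 1) → ℂ} (hf : ∀ j, AnalyticOnNhd ℂ (fun w => f w j) Ω)
    {r : ℕ} (hlin : LinSys r Ω B f) {p : Ideal (MvPolynomial (Fin (N + 1)) ℂ)}
    {Q : MvPolynomial (Fin (N + 1)) ℂ} (hX : ∀ z ∈ Ω, ∀ H ∈ p, eval (f z) H = 0)
    {K : Type} [Field K] [Algebra ℂ K] {w : ℕ} {y : Fin (N + 1) → K} (hy : FunField p Q K w y)
    (hfull : Full Ω B w f) : Unirational y := by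
  obtain ⟨j, hj⟩ := hfull
  obtain ⟨hy0, hbas⟩ := full_basis hy hne hX hj
  obtain ⟨E, hE, hcov⟩ := uni_gen hΩ hΩc hB f hf hlin j hj
  obtain ⟨z, hz⟩ := exists_point hΩ hne hE
  obtain ⟨h1, h2⟩ := hcov z hz
  exact cover_unirational (fun d H hH h0 s hs => hX s hs H (hy.mem H ⟨d, hH⟩ h0)) hy0 hbas h1 h2

/-- nondegenerate curves have maximal transcendence degree -/
theorem full_of_nonDeg {f : ℂ → Fin (N + 1) → ℂ} {p : Ideal (MvPolynomial (Fin (N + 1)) ℂ)}
    {Q : MvPolynomial (Fin (N + 1)) ℂ}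
    {K : Type} [Field K] [Algebra ℂ K] {w : ℕ} {y : Fin (N + 1) → K} (hy : FunField p Q K w y)
    (h : NonDeg Ω B p f) : Full Ω B w f := by
  classical
  obtain ⟨i0, hi0⟩ := Function.ne_iff.1 hy.sub.ne
  have hy0 : y i0 ≠ 0 := hi0
  obtain ⟨jj, hjj⟩ := exists_coord_basis y i0 hy0 hy.sub.gen hy.sub.dim
  refine ⟨Fin.cons i0 jj, fun d P hP h0 a z hz => ?_⟩
  have h1 := h d (rename (Fin.cons i0 jj : Fin (w + 1) → Fin (N + 1)) P) hP.rename_isHomogeneous
    (fun z hz => by
      rw [eval₂_rename]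
      exact h0 z hz) z hz
  have h2 := hy.sub.mem _ h1
  unfold Pool.Agent.W602.GT.val at h2
  rw [map_rename, aeval_rename] at h2
  have h3 := hom_of_indep (fun l => y ((Fin.cons i0 jj : Fin (w + 1) → Fin (N + 1)) l)) hy0
    hjj.1 d (MvPolynomial.map (evB B z) P) (hP.map _) h2
  have h4 := congrArg (coeff a) h3
  rw [coeff_map, coeff_zero] at h4
  exact h4

end Pool.Agent.Q33.UR
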