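import Pool.Agent.Q33.UR.Codim

/-!
Sequences given by linear difference equations: the tangent vectors which preserve the relations.
-/

set_option autoImplicit false

namespace Pool.Agent.Q33.UR

open MvPolynomial Filter Topology Pool.Agent.TH143

/-- the point `(b m, U m)` -/
def vs {ι : Type} {n : ℕ} (b : ι → ℕ → ℂ) (U : ℕ → Matrix (Fin n) (Fin n) ℂ) (m : ℕ) :
    ι ⊕ (Fin n × Fin n) → ℂ :=
  Sum.elim (fun i => b i m) (fun p => U m p.1 p.2)

/-- An ultrafilter for which no relation holds. -/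
theorem exists_ultra {T : Type} (F : T → Set ℕ) (hne : Nonempty T)
    (hdir : ∀ s t, ∃ r, F r ⊆ F s ∩ F t) (hinf : ∀ t, ∃ᶠ m in atTop, m ∈ F t) :
    ∃ u : Ultrafilter ℕ, (u : Filter ℕ) ≤ atTop ∧ ∀ t, ∀ᶠ m in (u : Filter ℕ), m ∈ F t := by
  have h1 : (⨅ t, (atTop ⊓ 𝓟 (F t))).NeBot := by
    apply Filter.iInf_neBot_of_directed
    · intro s t
      obtain ⟨r, hr⟩ := hdir s t
      refine ⟨r, ?_, ?_⟩
      · exact inf_le_inf_left _ (principal_mono.2 fun x hx => (hr hx).1)
      · exact inf_le_inf_left _ (principal_mono.2 fun x hx => (hr hx).2)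
    · intro t
      exact Filter.frequently_mem_iff_neBot.1 (hinf t)
  obtain ⟨u, hu⟩ := Ultrafilter.exists_le (⨅ t, (atTop ⊓ 𝓟 (F t)))
  refine ⟨u, ?_, fun t => ?_⟩
  · obtain ⟨t⟩ := hne
    exact hu.trans ((iInf_le _ t).trans inf_le_left)
  · exact (hu.trans ((iInf_le _ t).trans inf_le_right)) (mem_principal_self _)

section

variable {ι : Type} {n : ℕ} {b : ι → ℕ → ℂ} {U : ℕ → Matrix (Fin n) (Fin n) ℂ}

/-- the derivative in the direction of the vector `h` -/
noncomputable def dd (h : Fin n × Fin n → ℂ) (x : ι ⊕ (Fin n × Fin n) → ℂ)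
    (P : MvPolynomial (ι ⊕ (Fin n × Fin n)) ℂ) : ℂ :=
  ∑ p, h p * eval x (pderiv (Sum.inr p) P)

theorem dd_add (h : Fin n × Fin n → ℂ) (x : ι ⊕ (Fin n × Fin n) → ℂ)
    (P Q : MvPolynomial (ι ⊕ (Fin n × Fin n)) ℂ) : dd h x (P + Q) = dd h x P + dd h x Q := by
  simp only [dd, map_add, mul_add, Finset.sum_add_distrib]

theorem dd_mul (h : Fin n × Fin n → ℂ) (x : ι ⊕ (Fin n × Fin n) → ℂ)
    (P Q : MvPolynomial (ι ⊕ (Fin n × Fin n)) ℂ) :
    dd h x (P * Q) = eval x P * dd h x Q + eval x Q * dd h x P := by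
  simp only [dd, pderiv_mul, map_add, map_mul, mul_add, Finset.sum_add_distrib, Finset.mul_sum]
  rw [add_comm]
  congr 1 <;> refine Finset.sum_congr rfl fun p _ => ?_ <;> ring

theorem dd_C (h : Fin n × Fin n → ℂ) (x : ι ⊕ (Fin n × Fin n) → ℂ) (c : ℂ) :
    dd h x (C c) = 0 := by
  simp [dd]

theorem dd_inl (h : Fin n × Fin n → ℂ) (x : ι ⊕ (Fin n × Fin n) → ℂ) (i : ι) :
    dd h x (X (Sum.inl i)) = 0 := by
  classical
  refine Finset.sum_eq_zero fun p _ => ?_
  rw [pderiv_X_of_ne (by simp), map_zero, mul_zero]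

theorem dd_inr (h : Fin n × Fin n → ℂ) (x : ι ⊕ (Fin n × Fin n) → ℂ) (p : Fin n × Fin n) :
    dd h x (X (Sum.inr p)) = h p := by
  classical
  unfold dd
  rw [Finset.sum_eq_single p]
  · rw [pderiv_X_self, map_one, mul_one]
  · intro q _ hq
    rw [pderiv_X_of_ne (by simpa using hq.symm), map_zero, mul_zero]
  · intro h
    exact absurd (Finset.mem_univ p) h

/-- right translations -/
theorem dd_WW (β : Matrix (Fin n) (Fin n) ℂ) (m : ℕ)
    (P : MvPolynomial (ι ⊕ (Fin n × Fin n)) ℂ) :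
    eval (vs b U m) (mkDerivation ℂ (WW β) P) = dd (fun p => (U m * β) p.1 p.2) (vs b U m) P := by
  induction P using MvPolynomial.induction_on with
  | C c => rw [dd_C, derivation_C, map_zero]
  | add P Q hP hQ => rw [map_add, map_add, hP, hQ, dd_add]
  | mul_X P i hP =>
    rw [Derivation.leibniz, dd_mul, map_add, smul_eq_mul, smul_eq_mul, map_mul, map_mul, hP]
    congr 2
    rw [mkDerivation_X]
    rcases i with i | p
    · rw [dd_inl]
      simp [WW]
    · rw [dd_inr, Matrix.mul_apply]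
      simp only [WW, Sum.elim_inr, map_sum, map_mul, eval_X, eval_C]
      rfl

variable (b U) in
/-- the germs of relations -/
def relI : Ideal (MvPolynomial (ι ⊕ (Fin n × Fin n)) ℂ) where
  carrier := {P | ∀ᶠ m in atTop, eval (vs b U m) P = 0}
  add_mem' := by
    intro P Q hP hQ
    filter_upwards [hP, hQ] with m h1 h2
    rw [map_add, h1, h2, add_zero]
  zero_mem' := Eventually.of_forall fun m => map_zero _
  smul_mem' := by
    intro Q P hP
    filter_upwards [hP] with m h1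
    rw [smul_eq_mul, map_mul, h1, mul_zero]

theorem mem_relI {P : MvPolynomial (ι ⊕ (Fin n × Fin n)) ℂ} :
    P ∈ relI b U ↔ ∀ᶠ m in atTop, eval (vs b U m) P = 0 := Iff.rfl

/-- the shift -/
noncomputable def tauS (p : ι → MvPolynomial ι ℂ) (a : Fin n → Fin n → MvPolynomial ι ℂ) :
    MvPolynomial (ι ⊕ (Fin n × Fin n)) ℂ →ₐ[ℂ] MvPolynomial (ι ⊕ (Fin n × Fin n)) ℂ :=
  aeval (Sum.elim (fun i => rename Sum.inl (p i))
    (fun q => ∑ k, rename Sum.inl (a q.1 k) * X (Sum.inr (k, q.2))))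

theorem eval_tauS {p : ι → MvPolynomial ι ℂ} {a : Fin n → Fin n → MvPolynomial ι ℂ}
    (hp : ∀ i m, b i (m + 1) = eval (fun i => b i m) (p i))
    (hU : ∀ m i j, U (m + 1) i j = ∑ k, eval (fun i => b i m) (a i k) * U m k j) (m : ℕ)
    (P : MvPolynomial (ι ⊕ (Fin n × Fin n)) ℂ) :
    eval (vs b U m) (tauS p a P) = eval (vs b U (m + 1)) P := by
  have h3 := MvPolynomial.comp_aeval_apply (f := Sum.elim (fun i => rename Sum.inl (p i))
    (fun q : Fin n × Fin n => ∑ k, rename Sum.inl (a q.1 k) * X (Sum.inr (k, q.2))))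
    (aeval (vs b U m) : MvPolynomial (ι ⊕ (Fin n × Fin n)) ℂ →ₐ[ℂ] ℂ) P
  refine Eq.trans h3 ?_
  rw [← aeval_eq_eval]
  congr 2
  funext l
  have h4 : ∀ q : MvPolynomial ι ℂ, (aeval (vs b U m) : MvPolynomial (ι ⊕ (Fin n × Fin n)) ℂ →ₐ[ℂ] ℂ)
      (rename Sum.inl q) = eval (fun i => b i m) q := by
    intro q
    rw [aeval_rename]
    rfl
  rcases l with i | q
  · simp only [Sum.elim_inl, h4]
    exact (hp i m).symm
  · simp only [Sum.elim_inr, map_sum, map_mul, h4, aeval_X]
    exact (hU m q.1 q.2).symm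

theorem tauS_WW (p : ι → MvPolynomial ι ℂ) (a : Fin n → Fin n → MvPolynomial ι ℂ)
    (β : Matrix (Fin n) (Fin n) ℂ) (P : MvPolynomial (ι ⊕ (Fin n × Fin n)) ℂ) :
    tauS p a (mkDerivation ℂ (WW β) P) = mkDerivation ℂ (WW β) (tauS p a P) := by
  have hren : ∀ q : MvPolynomial ι ℂ,
      mkDerivation ℂ (WW β) (rename Sum.inl q : MvPolynomial (ι ⊕ (Fin n × Fin n)) ℂ) = 0 := by
    intro q
    induction q using MvPolynomial.induction_on with
    | C c => rw [rename_C, derivation_C]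
    | add P Q hP hQ => rw [map_add, map_add, hP, hQ, add_zero]
    | mul_X P i hP =>
      rw [map_mul, rename_X, Derivation.leibniz, hP, mkDerivation_X]
      simp [WW]
  induction P using MvPolynomial.induction_on with
  | C c => rw [derivation_C, map_zero, algHom_C, algebraMap_eq, derivation_C]
  | add P Q hP hQ => rw [map_add, map_add, hP, hQ, map_add, map_add]
  | mul_X P i hP =>
    rw [Derivation.leibniz, map_mul, Derivation.leibniz, map_add, smul_eq_mul, smul_eq_mul,
      smul_eq_mul, smul_eq_mul, map_mul, map_mul, hP, mkDerivation_X]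
    congr 2
    rcases i with i | q
    · simp only [tauS, aeval_X, Sum.elim_inl, WW, map_zero]
      exact (hren _).symm
    · have hW : ∀ q : Fin n × Fin n, (WW β (Sum.inr q) : MvPolynomial (ι ⊕ (Fin n × Fin n)) ℂ) =
          ∑ k, X (Sum.inr (q.1, k)) * C (β k q.2) := fun q => rfl
      rw [hW]
      simp only [tauS, aeval_X, Sum.elim_inr, map_sum, map_mul, Derivation.leibniz, hren,
        mkDerivation_X, smul_eq_mul, mul_zero, add_zero, aeval_C, algebraMap_eq, hW]
      simp only [Finset.sum_mul, Finset.mul_sum]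
      rw [Finset.sum_comm]
      refine Finset.sum_congr rfl fun k _ => Finset.sum_congr rfl fun k' _ => ?_
      ring

variable (b U) in
/-- the tangent space at the point `m` -/
def tanS (m : ℕ) : Submodule ℂ (Matrix (Fin n) (Fin n) ℂ) where
  carrier := {β | ∀ P ∈ relI b U, eval (vs b U m) (mkDerivation ℂ (WW β) P) = 0}
  add_mem' := by
    intro β γ hβ hγ P hP
    have h1 := hβ P hP
    have h2 := hγ P hP
    rw [dd_WW] at h1 h2 ⊢
    simp only [dd, Matrix.mul_add, Matrix.add_apply, add_mul, Finset.sum_add_distrib] at h1 h2 ⊢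
    rw [h1, h2, add_zero]
  zero_mem' := by
    intro P _
    rw [dd_WW]
    simp [dd]
  smul_mem' := by
    intro c β hβ P hP
    have h1 := hβ P hP
    rw [dd_WW] at h1 ⊢
    simp only [dd, Matrix.mul_smul, Matrix.smul_apply, smul_eq_mul, mul_assoc] at h1 ⊢
    rw [← Finset.mul_sum, h1, mul_zero]

theorem tanS_mono {p : ι → MvPolynomial ι ℂ} {a : Fin n → Fin n → MvPolynomial ι ℂ}
    (hp : ∀ i m, b i (m + 1) = eval (fun i => b i m) (p i))
    (hU : ∀ m i j, U (m + 1) i j = ∑ k, eval (fun i => b i m) (a i k) * U m k j) :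
    Monotone (tanS b U) := by
  apply monotone_nat_of_le_succ
  intro m β hβ P hP
  rw [← eval_tauS hp hU, tauS_WW]
  apply hβ
  rw [mem_relI] at hP ⊢
  simp only [eval_tauS hp hU]
  exact (tendsto_add_atTop_nat 1).eventually hP

/-- tangent vectors at one point preserve the relations -/
theorem exists_stab {p : ι → MvPolynomial ι ℂ} {a : Fin n → Fin n → MvPolynomial ι ℂ}
    (hp : ∀ i m, b i (m + 1) = eval (fun i => b i m) (p i))
    (hU : ∀ m i j, U (m + 1) i j = ∑ k, eval (fun i => b i m) (a i k) * U m k j) :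
    ∃ m1, ∀ m, m1 ≤ m → ∀ β ∈ tanS b U m, ∀ P ∈ relI b U,
      mkDerivation ℂ (WW β) P ∈ relI b U := by
  obtain ⟨m1, hm1⟩ := monotone_stabilizes_iff_noetherian.2
    (inferInstance : IsNoetherian ℂ (Matrix (Fin n) (Fin n) ℂ)) ⟨tanS b U, tanS_mono hp hU⟩
  refine ⟨m1, fun m hm β hβ P hP => ?_⟩
  rw [mem_relI]
  filter_upwards [eventually_ge_atTop m] with k hk
  exact (tanS_mono hp hU hk hβ) P hP

/-- all relations hold from some point on -/
theorem exists_unif [Finite ι] : ∃ m0, ∀ m, m0 ≤ m → ∀ P ∈ relI b U, eval (vs b U m) P = 0 := by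
  classical
  have : IsNoetherianRing (MvPolynomial (ι ⊕ (Fin n × Fin n)) ℂ) := inferInstance
  obtain ⟨s, hs⟩ := this.noetherian (relI b U)
  have h1 : ∀ᶠ m in atTop, ∀ P ∈ s, eval (vs b U m) P = 0 := by
    rw [eventually_all_finset]
    intro P hP
    have h2 : P ∈ relI b U := by
      rw [← hs]
      exact Submodule.subset_span hP
    exact h2
  obtain ⟨m0, hm0⟩ := eventually_atTop.1 h1
  refine ⟨m0, fun m hm P hP => ?_⟩
  have h2 : relI b U ≤ RingHom.ker (eval (vs b U m)) := by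
    rw [← hs]
    exact Submodule.span_le.2 fun P hP => hm0 m hm P hP
  exact h2 hP

end

end Pool.Agent.Q33.UR
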