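import Pool.Agent.Q33.UR.SeqA

/-!
Unirational subvarieties through the points of a sequence given by linear difference equations.
-/

set_option autoImplicit false

namespace Pool.Agent.Q33.UR

open MvPolynomial Filter Topology Pool.Agent.TH143

section

variable {ι : Type} {n : ℕ} {b : ι → ℕ → ℂ} {U : ℕ → Matrix (Fin n) (Fin n) ℂ}

variable (b) in
/-- the germs of relations between the coefficients -/
def cofI : Ideal (MvPolynomial ι ℂ) where
  carrier := {P | ∀ᶠ m in atTop, eval (fun i => b i m) P = 0}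
  add_mem' := by
    intro P Q hP hQ
    filter_upwards [hP, hQ] with m h1 h2
    rw [map_add, h1, h2, add_zero]
  zero_mem' := Eventually.of_forall fun m => map_zero _
  smul_mem' := by
    intro Q P hP
    filter_upwards [hP] with m h1
    rw [smul_eq_mul, map_mul, h1, mul_zero]

theorem cofI_prime (hB : ∀ P : MvPolynomial ι ℂ, (∀ᶠ m in atTop, eval (fun i => b i m) P = 0) ∨
    ∀ᶠ m in atTop, eval (fun i => b i m) P ≠ 0) : (cofI b).IsPrime := by
  refine ⟨fun h => ?_, fun {P Q} h => ?_⟩
  · rw [Ideal.eq_top_iff_one] at h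
    have h1 : ∀ᶠ m in atTop, eval (fun i => b i m) (1 : MvPolynomial ι ℂ) = 0 := h
    obtain ⟨m, hm⟩ := h1.exists
    rw [map_one] at hm
    exact one_ne_zero hm
  · rcases hB P with h1 | h1
    · exact Or.inl h1
    · right
      have h2 : ∀ᶠ m in atTop, eval (fun i => b i m) (P * Q) = 0 := h
      filter_upwards [h1, h2] with m h3 h4
      rw [map_mul] at h4
      exact (mul_eq_zero.1 h4).resolve_left h3

/-- an ultrafilter for which independent sequences remain independent -/
theorem exists_ultra_ind (hB : ∀ P : MvPolynomial ι ℂ,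
      (∀ᶠ m in atTop, eval (fun i => b i m) P = 0) ∨ ∀ᶠ m in atTop, eval (fun i => b i m) P ≠ 0)
    {e : ℕ} (g : ℕ → Fin (e + 1) → ℂ)
    (hind : ∀ (d : ℕ) (P : MvPolynomial (Fin (e + 1)) (MvPolynomial ι ℂ)), P.IsHomogeneous d →
      (∀ᶠ m in atTop, eval₂ (eval fun i => b i m) (g m) P = 0) →
      ∀ a, ∀ᶠ m in atTop, eval (fun i => b i m) (coeff a P) = 0) :
    ∃ u : Ultrafilter ℕ, (u : Filter ℕ) ≤ atTop ∧
      (∀ (d : ℕ) (P : MvPolynomial (Fin (e + 1)) (MvPolynomial ι ℂ)), P.IsHomogeneous d →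
      (∀ᶠ m in (u : Filter ℕ), eval₂ (eval fun i => b i m) (g m) P = 0) →
      ∀ a, ∀ᶠ m in atTop, eval (fun i => b i m) (coeff a P) = 0) := by
  classical
  have hprime := cofI_prime hB
  let T := {P : MvPolynomial (Fin (e + 1)) (MvPolynomial ι ℂ) //
    (∃ d, P.IsHomogeneous d) ∧ ∃ a, coeff a P ∉ cofI b}
  have h1 : (1 : MvPolynomial ι ℂ) ∉ cofI b := fun h => hprime.ne_top
    ((Ideal.eq_top_iff_one _).2 h)
  obtain ⟨u, hu, hu'⟩ := exists_ultra (T := T)
    (fun P => {m | eval₂ (eval fun i => b i m) (g m) P.1 ≠ 0})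
    ⟨⟨1, ⟨0, isHomogeneous_one _ _⟩, 0, by rwa [coeff_zero_one]⟩⟩
    (by
      rintro ⟨P, ⟨d, hP⟩, a, ha⟩ ⟨Q, ⟨d', hQ⟩, a', ha'⟩
      have hPQ : ∃ a, coeff a (P * Q) ∉ cofI b := by
        by_contra hcon
        push Not at hcon
        have h2 : MvPolynomial.map (Ideal.Quotient.mk (cofI b)) (P * Q) = 0 := by
          ext a
          rw [coeff_map, coeff_zero]
          exact Ideal.Quotient.eq_zero_iff_mem.2 (hcon a)
        rw [map_mul] at h2
        have hdom : IsDomain (MvPolynomial ι ℂ ⧸ cofI b) := Ideal.Quotient.isDomain _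
        rcases mul_eq_zero.1 h2 with h3 | h3
        · apply ha
          have h4 := congrArg (coeff a) h3
          rw [coeff_map, coeff_zero] at h4
          exact Ideal.Quotient.eq_zero_iff_mem.1 h4
        · apply ha'
          have h4 := congrArg (coeff a') h3
          rw [coeff_map, coeff_zero] at h4
          exact Ideal.Quotient.eq_zero_iff_mem.1 h4
      refine ⟨⟨P * Q, ⟨d + d', hP.mul hQ⟩, hPQ⟩, fun m hm => ?_⟩
      have hm' : eval₂ (eval fun i => b i m) (g m) (P * Q) ≠ 0 := hm
      rw [eval₂_mul] at hm'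
      exact ⟨left_ne_zero_of_mul hm', right_ne_zero_of_mul hm'⟩)
    (by
      rintro ⟨P, ⟨d, hP⟩, a, ha⟩
      rw [Filter.Frequently]
      intro h2
      apply ha
      apply hind d P hP _ a
      filter_upwards [h2] with m hm
      by_contra h3
      exact hm h3)
  refine ⟨u, hu, fun d P hP h a => ?_⟩
  by_contra ha
  have h2 := hu' ⟨P, ⟨d, hP⟩, a, ha⟩
  obtain ⟨m, h3, h4⟩ := (h.and h2).exists
  exact h4 h3

end

/-- **The local theorem** for sequences. -/
theorem seq_local {ι : Type} [Finite ι] {b : ι → ℕ → ℂ} {p : ι → MvPolynomial ι ℂ}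
    (hp : ∀ i m, b i (m + 1) = eval (fun i => b i m) (p i)) {n : ℕ}
    {a : Fin n → Fin n → MvPolynomial ι ℂ} {U : ℕ → Matrix (Fin n) (Fin n) ℂ}
    (hU : ∀ m i j, U (m + 1) i j = ∑ k, eval (fun i => b i m) (a i k) * U m k j)
    (hdet : ∀ m, (U m).det ≠ 0)
    (hB : ∀ P : MvPolynomial ι ℂ, (∀ᶠ m in atTop, eval (fun i => b i m) P = 0) ∨
      ∀ᶠ m in atTop, eval (fun i => b i m) P ≠ 0)
    {N e : ℕ} (L : Fin (N + 1) → Fin n → ι) (c : Fin n → ℂ) (f : ℕ → Fin (N + 1) → ℂ)
    (hf : ∀ m j, f m j = ∑ k, ∑ l, b (L j k) m * c l * U m k l)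
    (j : Fin (e + 1) → Fin (N + 1))
    (hind : ∀ (d : ℕ) (P : MvPolynomial (Fin (e + 1)) (MvPolynomial ι ℂ)), P.IsHomogeneous d →
      (∀ᶠ m in atTop, eval₂ (eval fun i => b i m) (fun l => f m (j l)) P = 0) →
      ∀ a, ∀ᶠ m in atTop, eval (fun i => b i m) (coeff a P) = 0) :
    ∃ᶠ m in atTop, f m (j 0) ≠ 0 ∧
      Cover (fun H => ∀ᶠ s in atTop, eval (f s) H = 0) j (f m) := by
  classical
  obtain ⟨u, hu, hui⟩ := exists_ultra_ind hB (fun m l => f m (j l)) hind
  have hprime := cofI_prime hB
  let K := (u : Filter ℕ).Germ ℂ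
  let G : (ℕ → ℂ) →+* K := Filter.Germ.coeRingHom (u : Filter ℕ)
  have hG0 : ∀ s : ℕ → ℂ, G s = 0 ↔ ∀ᶠ m in (u : Filter ℕ), s m = 0 := by
    intro s
    exact Filter.Germ.coe_eq
  have hGe : ∀ s t : ℕ → ℂ, G s = G t ↔ ∀ᶠ m in (u : Filter ℕ), s m = t m := by
    intro s t
    exact Filter.Germ.coe_eq
  have hGs : ∀ x : K, ∃ s : ℕ → ℂ, G s = x := fun x =>
    Filter.Germ.inductionOn x fun f => ⟨f, rfl⟩
  let ψ : MvPolynomial ι ℂ →+* K := G.comp (RingHom.pi fun m => eval fun i => b i m)
  have hψ : ∀ P, ψ P = G fun m => eval (fun i => b i m) P := fun P => rfl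
  let Φ : Fin (N + 1) → MvPolynomial (ι ⊕ (Fin n × Fin n)) ℂ := fun j =>
    ∑ k, ∑ l, X (Sum.inl (L j k)) * MvPolynomial.C (c l) * X (Sum.inr (k, l))
  have hΦ : ∀ m j, eval (vs b U m) (Φ j) = f m j := by
    intro m j
    rw [hf m j]
    simp only [Φ, map_sum, map_mul, eval_C, eval_X, vs, Sum.elim_inr, Sum.elim_inl]
  let x : Fin (e + 1) → K := fun l => G fun m => f m (j l)
  -- evaluation of polynomials over the polynomial ring
  have hev : ∀ P : MvPolynomial (Fin (e + 1)) (MvPolynomial ι ℂ),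
      eval₂ ψ x P = G fun m => eval₂ (eval fun i => b i m) (fun l => f m (j l)) P := by
    intro P
    have h1 := hom_eval₂ P (RingHom.pi fun m => eval fun i => b i m : MvPolynomial ι ℂ →+* (ℕ → ℂ))
      G (fun l m => f m (j l))
    rw [← hom_eval₂ P (RingHom.pi fun m => eval fun i => b i m : MvPolynomial ι ℂ →+* (ℕ → ℂ))
      G (fun l m => f m (j l))]
    congr 1
    funext m
    have h2 := hom_eval₂ P (RingHom.pi fun m => eval fun i => b i m :
      MvPolynomial ι ℂ →+* (ℕ → ℂ)) (Pi.evalRingHom (fun _ => ℂ) m) (fun l m => f m (j l))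
    exact h2
  let R := ψ.range
  have hcR : CharZero R := charZero_of_injective_ringHom
    (f := ψ.rangeRestrict.comp (C : ℂ →+* MvPolynomial ι ℂ)) (RingHom.injective _)
  -- independence
  have hx1 : ∀ (d : ℕ) (P : MvPolynomial (Fin (e + 1)) R), P.IsHomogeneous d →
      eval₂ R.subtype x P = 0 → P = 0 := by
    intro d P hP h
    choose q hq using fun a : Fin (e + 1) →₀ ℕ => (coeff a P).2
    let P' : MvPolynomial (Fin (e + 1)) (MvPolynomial ι ℂ) := ∑ a ∈ P.support, monomial a (q a)
    have hP' : P'.IsHomogeneous d := by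
      apply IsHomogeneous.sum
      intro a ha
      apply isHomogeneous_monomial
      have h2 := hP (mem_support_iff.1 ha)
      rwa [Finsupp.degree_eq_weight_one]
    have h1 : MvPolynomial.map ψ.rangeRestrict P' = P := by
      simp only [P', map_sum, map_monomial]
      conv_rhs => rw [P.as_sum]
      refine Finset.sum_congr rfl fun a _ => ?_
      congr 1
      exact Subtype.ext (hq a)
    have h2 : eval₂ ψ x P' = 0 := by
      rw [← h, ← h1, eval₂_map]
      rfl
    rw [hev, hG0] at h2
    have h3 := hui d P' hP' h2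
    rw [← h1]
    ext a
    rw [coeff_map, coeff_zero]
    change ψ (coeff a P') = 0
    rw [hψ, hG0]
    exact hu (h3 a)
  have hx0 : x 0 ≠ 0 := by
    intro h0
    have h2 := hx1 1 (X 0) (isHomogeneous_X _ _) (by rw [eval₂_X]; exact h0)
    exact X_ne_zero (R := R) (0 : Fin (e + 1)) h2
  have hx2 := indep_of_hom R.subtype x hx0 hx1
  obtain ⟨D, hDadd, hDmul, hDB, hD⟩ := exists_ders (B := R) (R := K) (K := K)
    R.subtype Subtype.val_injective (fun a b h => h) (fun l => x l.succ / x 0) hx2
  have hDψ : ∀ i P, D i (ψ P) = 0 := fun i P => hDB i ⟨ψ P, P, rfl⟩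
  have hD0 : ∀ i, D i 0 = 0 := by
    intro i
    have := hDadd i 0 0
    rw [add_zero] at this
    linear_combination - this
  choose h hh using fun (i : Fin e) (q : Fin n × Fin n) => hGs (D i (G fun m => U m q.1 q.2))
  -- the chain rule
  have hchain : ∀ i P, D i (G fun m => eval (vs b U m) P) =
      G fun m => dd (fun q => h i q m) (vs b U m) P := by
    intro i P
    induction P using MvPolynomial.induction_on with
    | C t =>
      have h1 : (G fun m => eval (vs b U m) (C t)) = ψ (C t) := by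
        rw [hψ]
        simp only [eval_C]
      rw [h1, hDψ]
      simp only [dd_C]
      exact (map_zero G).symm
    | add P Q hP hQ =>
      have h1 : (G fun m => eval (vs b U m) (P + Q)) =
          (G fun m => eval (vs b U m) P) + G fun m => eval (vs b U m) Q := by
        rw [← map_add]
        congr 1
        funext m
        exact map_add _ _ _
      have h2 : (G fun m => dd (fun q => h i q m) (vs b U m) (P + Q)) =
          (G fun m => dd (fun q => h i q m) (vs b U m) P) +
            G fun m => dd (fun q => h i q m) (vs b U m) Q := by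
        rw [← map_add]
        congr 1
        funext m
        exact dd_add _ _ _ _
      rw [h1, h2, hDadd, hP, hQ]
    | mul_X P l hP =>
      have h1 : (G fun m => eval (vs b U m) (P * X l)) =
          (G fun m => eval (vs b U m) P) * G fun m => eval (vs b U m) (X l) := by
        rw [← map_mul]
        congr 1
        funext m
        exact map_mul _ _ _
      have h2 : (G fun m => dd (fun q => h i q m) (vs b U m) (P * X l)) =
          (G fun m => eval (vs b U m) P) * (G fun m => dd (fun q => h i q m) (vs b U m) (X l)) +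
          (G fun m => eval (vs b U m) (X l)) * G fun m => dd (fun q => h i q m) (vs b U m) P := by
        rw [← map_mul, ← map_mul, ← map_add]
        congr 1
        funext m
        exact dd_mul _ _ _ _
      have h3 : D i (G fun m => eval (vs b U m) (X l)) =
          G fun m => dd (fun q => h i q m) (vs b U m) (X l) := by
        rcases l with l | q
        · have h4 : (G fun m => eval (vs b U m) (X (Sum.inl l))) = ψ (X l) := by
            rw [hψ]
            simp only [eval_X]
            rfl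
          rw [h4, hDψ]
          simp only [dd_inl]
          exact (map_zero G).symm
        · simp only [dd_inr, eval_X]
          exact (hh i q).symm
      rw [h1, h2, hDmul, hP, h3]
  -- generators of the relations
  obtain ⟨m0, hm0⟩ := exists_unif (b := b) (U := U)
  obtain ⟨m1, hm1⟩ := exists_stab hp hU
  have hnoeth : IsNoetherianRing (MvPolynomial (ι ⊕ (Fin n × Fin n)) ℂ) := inferInstance
  obtain ⟨s, hs⟩ := hnoeth.noetherian (relI b U)
  have hE1 : ∀ᶠ m in (u : Filter ℕ), ∀ P ∈ s, ∀ i, dd (fun q => h i q m) (vs b U m) P = 0 := by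
    rw [eventually_all_finset]
    intro P hP
    rw [eventually_all]
    intro i
    have h2 : P ∈ relI b U := by
      rw [← hs]
      exact Submodule.subset_span hP
    have h3 : (G fun m => eval (vs b U m) P) = 0 := (hG0 _).2 (hu h2)
    have h4 := hchain i P
    rw [h3, hD0] at h4
    exact (hG0 _).1 h4.symm
  have hE2 : ∀ᶠ m in (u : Filter ℕ), f m (j 0) ≠ 0 := by
    by_contra h1
    apply hx0
    rw [Ultrafilter.eventually_not] at h1
    push Not at h1
    exact (hG0 _).2 h1
  have hxe : ∀ l, x l = G fun m => eval (vs b U m) (Φ (j l)) := by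
    intro l
    simp only [hΦ]
    rfl
  have hE3 : ∀ᶠ m in (u : Filter ℕ), ∀ i l : Fin e,
      dd (fun q => h i q m) (vs b U m) (Φ (j l.succ)) * f m (j 0) -
        f m (j l.succ) * dd (fun q => h i q m) (vs b U m) (Φ (j 0)) =
        if l = i then f m (j 0) ^ 2 else 0 := by
    rw [eventually_all]
    intro i
    rw [eventually_all]
    intro l
    rw [← hGe]
    have h2' : (x l.succ / x 0) * x 0 = x l.succ := div_mul_cancel₀ _ hx0
    have h2 := h2'.symm
    have h3 : D i (x l.succ) = (x l.succ / x 0) * D i (x 0) + x 0 * if l = i then 1 else 0 := by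
      conv_lhs => rw [h2]
      rw [hDmul, hD]
    have h4 : (G fun m => dd (fun q => h i q m) (vs b U m) (Φ (j l.succ)) * f m (j 0) -
        f m (j l.succ) * dd (fun q => h i q m) (vs b U m) (Φ (j 0))) =
        D i (x l.succ) * x 0 - x l.succ * D i (x 0) := by
      rw [hxe l.succ, hxe 0, hchain, hchain, ← map_mul, ← map_mul, ← map_sub]
      congr 1
      funext m
      simp only [Pi.sub_apply, Pi.mul_apply, hΦ]
    rw [h4, h3]
    by_cases hl : l = i
    · simp only [if_pos hl]
      have h5 : (G fun m => f m (j 0) ^ 2) = x 0 ^ 2 := by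
        rw [← map_pow]
        rfl
      rw [h5]
      linear_combination D i (x 0) * h2'
    · simp only [if_neg hl]
      have h5 : (G fun _ => (0 : ℂ)) = 0 := map_zero G
      rw [h5]
      linear_combination D i (x 0) * h2'
  have hE4 : ∀ᶠ m in (u : Filter ℕ), m0 ≤ m := hu (eventually_ge_atTop m0)
  have hE5 : ∀ᶠ m in (u : Filter ℕ), m1 ≤ m := hu (eventually_ge_atTop m1)
  suffices hall : ∀ᶠ m in (u : Filter ℕ), f m (j 0) ≠ 0 ∧
      Cover (fun H => ∀ᶠ s in atTop, eval (f s) H = 0) j (f m) from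
    hall.frequently.filter_mono hu
  filter_upwards [hE1, hE2, hE3, hE4, hE5] with m h1 h2 h3 h4 h5
  refine ⟨h2, ?_⟩
  let β : Fin e → Matrix (Fin n) (Fin n) ℂ := fun i => (U m)⁻¹ * Matrix.of fun r t => h i (r, t) m
  have hUβ : ∀ i, (fun q : Fin n × Fin n => (U m * β i) q.1 q.2) = fun q => h i q m := by
    intro i
    funext q
    simp only [β]
    rw [← Matrix.mul_assoc, Matrix.mul_nonsing_inv _ ((hdet m).isUnit), Matrix.one_mul]
    rfl
  have hdβ : ∀ i P, eval (vs b U m) (mkDerivation ℂ (WW (β i)) P) =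
      dd (fun q => h i q m) (vs b U m) P := by
    intro i P
    rw [dd_WW, hUβ]
  have hβ : ∀ i, β i ∈ tanS b U m := by
    intro i P hP
    rw [hdβ]
    rw [← hs] at hP
    have h6 : eval (vs b U m) P = 0 ∧ dd (fun q => h i q m) (vs b U m) P = 0 := by
      induction hP using Submodule.span_induction with
      | mem P hP => exact ⟨hm0 m h4 P (by rw [← hs]; exact Submodule.subset_span hP), h1 P hP i⟩
      | zero => exact ⟨map_zero _, by simp [dd]⟩
      | add P Q _ _ hP hQ =>
        exact ⟨by rw [map_add, hP.1, hQ.1, add_zero], by rw [dd_add, hP.2, hQ.2, add_zero]⟩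
      | smul Q P _ hP =>
        rw [smul_eq_mul]
        exact ⟨by rw [map_mul, hP.1, mul_zero], by rw [dd_mul, hP.1, hP.2]; ring⟩
    exact h6.2
  -- extension to the complex plane
  let S : Set ℂ := {z | ∃ k : ℕ, m0 ≤ k ∧ z = k}
  have hfl : ∀ k : ℕ, ⌊((k : ℂ)).re⌋₊ = k := by
    intro k
    simp
  have hrel : ∀ P, Rel (vv (fun i z => b i ⌊z.re⌋₊) fun z => U ⌊z.re⌋₊) S P ↔ P ∈ relI b U := by
    intro P
    constructor
    · intro h6
      rw [mem_relI]
      filter_upwards [eventually_ge_atTop m0] with k hk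
      have h7 := h6 (k : ℂ) ⟨k, hk, rfl⟩
      have h8 : vv (fun i z => b i ⌊z.re⌋₊) (fun z => U ⌊z.re⌋₊) (k : ℂ) = vs b U k := by
        unfold vv vs
        beta_reduce
        rw [hfl]
      rwa [h8] at h7
    · rintro h6 z ⟨k, hk, rfl⟩
      have h8 : vv (fun i z => b i ⌊z.re⌋₊) (fun z => U ⌊z.re⌋₊) (k : ℂ) = vs b U k := by
        unfold vv vs
        beta_reduce
        rw [hfl]
      rw [h8]
      exact hm0 k hk P h6
  have h9 : vv (fun i z => b i ⌊z.re⌋₊) (fun z => U ⌊z.re⌋₊) (m : ℂ) = vs b U m := by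
    unfold vv vs
    beta_reduce
    rw [hfl]
  have hcov := exists_cover (S := S) (b := fun i z => b i ⌊z.re⌋₊) (U := fun z => U ⌊z.re⌋₊) L c
    (f := fun z => f ⌊z.re⌋₊) (fun z _ j => hf _ j) j β
    (fun i P hP => (hrel _).2 (hm1 m h5 (β i) (hβ i) P ((hrel P).1 hP)))
    (z := (m : ℂ)) ⟨m, h4, rfl⟩ (fun _ => rfl) (by
      rw [h9]
      have h6 : (Matrix.of fun i l : Fin e =>
          eval (vs b U m) (mkDerivation ℂ (WW (β i)) (Φ (j l.succ))) * eval (vs b U m) (Φ (j 0)) -
            eval (vs b U m) (Φ (j l.succ)) *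
              eval (vs b U m) (mkDerivation ℂ (WW (β i)) (Φ (j 0)))) =
          Matrix.diagonal fun _ => f m (j 0) ^ 2 := by
        ext i l
        rw [Matrix.of_apply, hdβ, hdβ, hΦ, hΦ, h3 i l, Matrix.diagonal_apply]
        by_cases hl : l = i
        · rw [if_pos hl, if_pos hl.symm]
        · rw [if_neg hl, if_neg fun h => hl h.symm]
      change (Matrix.of fun i l : Fin e =>
          eval (vs b U m) (mkDerivation ℂ (WW (β i)) (Φ (j l.succ))) * eval (vs b U m) (Φ (j 0)) -
            eval (vs b U m) (Φ (j l.succ)) *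
              eval (vs b U m) (mkDerivation ℂ (WW (β i)) (Φ (j 0)))).det ≠ 0
      rw [h6, Matrix.det_diagonal]
      exact Finset.prod_ne_zero_iff.2 fun _ _ => pow_ne_zero _ h2)
  beta_reduce at hcov
  rw [hfl] at hcov
  refine hcov.mono fun H hH => ?_
  rintro z ⟨k, hk, rfl⟩
  rw [hfl]
  have hqe : ∀ (R : MvPolynomial (Fin (N + 1)) ℂ) (k : ℕ),
      eval (vs b U k) (bind₁ Φ R) = eval (f k) R := by
    intro R k
    rw [eval, eval₂Hom_bind₁]
    have h10 : f k = fun j => eval (vs b U k) (Φ j) := funext fun j => (hΦ k j).symm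
    rw [h10]
    rfl
  rw [← hqe]
  apply hm0 k hk
  rw [mem_relI]
  filter_upwards [hH] with i hi
  rw [hqe]
  exact hi

end Pool.Agent.Q33.UR
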