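import Pool.Agent.Q33.UR.SeqB

/-!
Sequences of points given by linear difference equations over a ring of sequences.
-/

set_option autoImplicit false

namespace Pool.Agent.Q33.UR

open MvPolynomial Filter Topology Pool.Agent.TH143 Pool.Agent.TH143.GT
open Pool.Agent.Q33.SP (Unirational)

/-- `B` is a ring of sequences, finitely generated over the complex numbers and closed under the
shift, and each sequence in `B` is zero from some point on or nonzero from some point on. -/
structure SeqRing (B : Subalgebra ℂ (ℕ → ℂ)) : Prop where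
  fg : B.FG
  shift : ∀ b ∈ B, (fun m => b (m + 1)) ∈ B
  ev : ∀ b ∈ B, (∀ᶠ m in atTop, b m = 0) ∨ ∀ᶠ m in atTop, b m ≠ 0

/-- the value at `m` of an element of the ring `B` of sequences -/
def evS (B : Subalgebra ℂ (ℕ → ℂ)) (m : ℕ) : B →+* ℂ :=
  (Pi.evalRingHom (fun _ : ℕ => ℂ) m).comp B.val.toRingHom

theorem evS_apply {B : Subalgebra ℂ (ℕ → ℂ)} (m : ℕ) (b : B) : evS B m b = b.1 m := rfl

/-- The sequences `g 0, …, g (r - 1)` satisfy no nontrivial homogeneous algebraic relation with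
coefficients in `B` for all large `m`. -/
def IndepSeq (B : Subalgebra ℂ (ℕ → ℂ)) {r : ℕ} (g : ℕ → Fin r → ℂ) : Prop :=
  ∀ (d : ℕ) (P : MvPolynomial (Fin r) B), P.IsHomogeneous d →
    (∀ᶠ m in atTop, eval₂ (evS B m) (g m) P = 0) → ∀ a, ∀ᶠ m in atTop, (coeff a P).1 m = 0

/-- The sequence `f` of vectors is given by a linear system over the ring `B` of sequences: for all
large `m`, `f (m) = M (m) u (m)` where `s (m) u (m + 1) = A (m) u (m)`, with `s`, `A`, `M` over `B`,
`s (m) ≠ 0` and `det A (m) ≠ 0`. -/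
def LinSeq (B : Subalgebra ℂ (ℕ → ℂ)) {N : ℕ} (f : ℕ → Fin (N + 1) → ℂ) : Prop :=
  ∃ (n : ℕ) (s : ℕ → ℂ) (A : Fin n → Fin n → ℕ → ℂ) (M : Fin (N + 1) → Fin n → ℕ → ℂ)
    (u : ℕ → Fin n → ℂ), s ∈ B ∧ (∀ i k, A i k ∈ B) ∧ (∀ j k, M j k ∈ B) ∧
    ∀ᶠ m in atTop, s m ≠ 0 ∧ (Matrix.of fun i k => A i k m).det ≠ 0 ∧
      (∀ i, s m * u (m + 1) i = ∑ k, A i k m * u m k) ∧ ∀ j, f m j = ∑ k, M j k m * u m k

theorem Cover.scale {N e : ℕ} {I I' : MvPolynomial (Fin (N + 1)) ℂ → Prop}
    {j : Fin (e + 1) → Fin (N + 1)} {x x' : Fin (N + 1) → ℂ} (h : Cover I j x) {c : ℂ} (hc : c ≠ 0)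
    (hx : ∀ i, x i = c * x' i)
    (hI : ∀ (d : ℕ) (H : MvPolynomial (Fin (N + 1)) ℂ), H.IsHomogeneous d → I' H → I H) :
    Cover I' j x' := by
  obtain ⟨κ, i1, W, x0, u, h1, h2, h3⟩ := h
  refine ⟨κ, i1, fun i => C c⁻¹ * W i, x0, u, fun i => ?_, fun d H hH hI' => ?_, ?_⟩
  · rw [map_mul, eval_C, h1, hx, inv_mul_cancel_left₀ hc]
  · apply MvPolynomial.funext
    intro t
    rw [map_zero]
    have h4 : ∀ V : Fin (N + 1) → MvPolynomial κ ℂ,
        eval t (aeval V H) = eval (fun i => eval t (V i)) H := fun V =>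
      MvPolynomial.comp_aeval_apply (f := V) (aeval t : MvPolynomial κ ℂ →ₐ[ℂ] ℂ) H
    rw [h4]
    simp only [map_mul, eval_C]
    rw [eval_hom hH, ← h4, h2 d H hH (hI d H hH hI'), map_zero, mul_zero]
  · have h4 : (Matrix.of fun i l : Fin e =>
        eval x0 (mkDerivation ℂ (fun a => C (u i a)) (C c⁻¹ * W (j l.succ))) * x' (j 0) -
          x' (j l.succ) * eval x0 (mkDerivation ℂ (fun a => C (u i a)) (C c⁻¹ * W (j 0)))) =
        (c⁻¹ ^ 2) • (Matrix.of fun i l : Fin e =>
        eval x0 (mkDerivation ℂ (fun a => C (u i a)) (W (j l.succ))) * x (j 0) -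
          x (j l.succ) * eval x0 (mkDerivation ℂ (fun a => C (u i a)) (W (j 0)))) := by
      ext i l
      simp only [Matrix.of_apply, Matrix.smul_apply, smul_eq_mul, Derivation.leibniz, derivation_C,
        mul_zero, add_zero, map_mul, eval_C, hx]
      field_simp
    rw [h4, Matrix.det_smul]
    exact mul_ne_zero (pow_ne_zero _ (pow_ne_zero _ (inv_ne_zero hc))) h3

/-- **Unirational subvarieties** through infinitely many points of a sequence given by a linear
system of difference equations. -/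
theorem uni_seq {B : Subalgebra ℂ (ℕ → ℂ)} (hB : SeqRing B) {N e : ℕ} {f : ℕ → Fin (N + 1) → ℂ}
    (hlin : LinSeq B f) (j : Fin (e + 1) → Fin (N + 1)) (hind : IndepSeq B fun m l => f m (j l)) :
    ∃ᶠ m in atTop, f m (j 0) ≠ 0 ∧ Cover (fun H => ∀ᶠ s in atTop, eval (f s) H = 0) j (f m) := by
  classical
  obtain ⟨n, s, A, M, u, hs, hA, hM, hsys⟩ := hlin
  obtain ⟨m2, hm2⟩ := eventually_atTop.1 hsys
  obtain ⟨G0, hG0⟩ := hB.fg
  let G : Finset (ℕ → ℂ) := G0 ∪ (Finset.univ.image fun q : Fin n × Fin n => A q.1 q.2) ∪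
    Finset.univ.image fun q : Fin (N + 1) × Fin n => M q.1 q.2
  let ι := {g : ℕ → ℂ // g ∈ G}
  have hGB : ∀ g : ι, g.1 ∈ B := by
    rintro ⟨g, hg⟩
    simp only [G, Finset.mem_union, Finset.mem_image] at hg
    rcases hg with (hg | ⟨q, -, rfl⟩) | ⟨q, -, rfl⟩
    · rw [← hG0]
      exact Algebra.subset_adjoin hg
    · exact hA _ _
    · exact hM _ _
  have hGg : ∀ g ∈ B, ∃ P : MvPolynomial ι ℂ, g = aeval (fun g : ι => g.1) P := by
    intro g hg
    have h1 : B ≤ (aeval (fun g : ι => g.1) : MvPolynomial ι ℂ →ₐ[ℂ] (ℕ → ℂ)).range := by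
      rw [← hG0, Algebra.adjoin_le_iff]
      intro g hg
      exact ⟨X ⟨g, Finset.mem_union_left _ (Finset.mem_union_left _ hg)⟩, by simp⟩
    obtain ⟨P, hP⟩ := h1 hg
    exact ⟨P, hP.symm⟩
  have hev : ∀ (P : MvPolynomial ι ℂ) (m : ℕ),
      (aeval (fun g : ι => g.1) P : ℕ → ℂ) m = eval (fun g : ι => g.1 m) P := fun P m =>
    MvPolynomial.comp_aeval_apply (f := fun g : ι => g.1)
      (Pi.evalAlgHom ℂ (fun _ : ℕ => ℂ) m) P
  let b : ι → ℕ → ℂ := fun g m => g.1 (m + m2)
  choose p hp' using fun g : ι => hGg _ (hB.shift g.1 (hGB g))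
  have hp : ∀ i m, b i (m + 1) = eval (fun i => b i m) (p i) := by
    intro i m
    have h1 := congrFun (hp' i) (m + m2)
    rw [hev] at h1
    have h2 : m + 1 + m2 = m + m2 + 1 := by omega
    change i.1 (m + 1 + m2) = _
    rw [h2]
    exact h1
  have hAG : ∀ i k, A i k ∈ G := fun i k => Finset.mem_union_left _
    (Finset.mem_union_right _ (Finset.mem_image.2 ⟨(i, k), Finset.mem_univ _, rfl⟩))
  have hMG : ∀ i k, M i k ∈ G := fun i k =>
    (Finset.mem_union_right _ (Finset.mem_image.2 ⟨(i, k), Finset.mem_univ _, rfl⟩))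
  -- the fundamental matrix
  let A' : ℕ → Matrix (Fin n) (Fin n) ℂ := fun m => Matrix.of fun i k => A i k (m + m2)
  let U : ℕ → Matrix (Fin n) (Fin n) ℂ := fun m => Nat.rec 1 (fun m V => A' m * V) m
  have hU0 : U 0 = 1 := rfl
  have hUs : ∀ m, U (m + 1) = A' m * U m := fun m => rfl
  let g : ℕ → ℂ := fun m => ∏ k ∈ Finset.range m, s (k + m2)
  have hg0 : ∀ m, g m ≠ 0 := fun m => Finset.prod_ne_zero_iff.2 fun k _ =>
    (hm2 (k + m2) (by omega)).1
  have hu : ∀ m i, g m * u (m + m2) i = ∑ l, U m i l * u m2 l := by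
    intro m
    induction m with
    | zero =>
      intro i
      simp only [g, Finset.range_zero, Finset.prod_empty, one_mul, zero_add, hU0,
        Matrix.one_apply, ite_mul, zero_mul, Finset.sum_ite_eq, Finset.mem_univ, if_true]
    | succ m ih =>
      intro i
      have h1 := (hm2 (m + m2) (by omega)).2.2.1 i
      have h2 : m + 1 + m2 = m + m2 + 1 := by omega
      have h3 : g (m + 1) = g m * s (m + m2) := Finset.prod_range_succ _ _
      rw [h2, h3, mul_assoc, h1, Finset.mul_sum]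
      simp only [hUs, Matrix.mul_apply, Finset.sum_mul]
      rw [Finset.sum_comm]
      refine Finset.sum_congr rfl fun k _ => ?_
      rw [mul_left_comm, ih k, Finset.mul_sum]
      refine Finset.sum_congr rfl fun l _ => ?_
      simp only [A', Matrix.of_apply]
      ring
  have hU : ∀ m i k, U (m + 1) i k =
      ∑ l, eval (fun i => b i m) (X (⟨A i l, hAG i l⟩ : ι)) * U m l k := by
    intro m i k
    rw [hUs, Matrix.mul_apply]
    refine Finset.sum_congr rfl fun l _ => ?_
    rw [eval_X]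
    rfl
  have hdet : ∀ m, (U m).det ≠ 0 := by
    intro m
    induction m with
    | zero =>
      rw [hU0, Matrix.det_one]
      exact one_ne_zero
    | succ m ih =>
      rw [hUs, Matrix.det_mul]
      exact mul_ne_zero (hm2 (m + m2) (by omega)).2.1 ih
  let f' : ℕ → Fin (N + 1) → ℂ := fun m j => g m * f (m + m2) j
  have hf' : ∀ m i, f' m i = ∑ k, ∑ l, b ⟨M i k, hMG i k⟩ m * u m2 l * U m k l := by
    intro m i
    change g m * f (m + m2) i = _
    rw [(hm2 (m + m2) (by omega)).2.2.2 i, Finset.mul_sum]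
    refine Finset.sum_congr rfl fun k _ => ?_
    rw [mul_left_comm, hu, Finset.mul_sum]
    refine Finset.sum_congr rfl fun l _ => ?_
    change M i k (m + m2) * _ = M i k (m + m2) * _ * _
    ring
  have hshift : ∀ {Q : ℕ → Prop}, (∀ᶠ m in atTop, Q (m + m2)) ↔ ∀ᶠ m in atTop, Q m := by
    intro Q
    conv_rhs => rw [← Filter.map_add_atTop_eq_nat m2]
    exact Filter.eventually_map.symm
  have hcof : ∀ P : MvPolynomial ι ℂ, (∀ᶠ m in atTop, eval (fun i => b i m) P = 0) ∨
      ∀ᶠ m in atTop, eval (fun i => b i m) P ≠ 0 := by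
    intro P
    have hPB : (aeval (fun g : ι => g.1) P : ℕ → ℂ) ∈ B := by
      have h1 := MvPolynomial.comp_aeval_apply (f := fun g : ι => (⟨g.1, hGB g⟩ : B)) B.val P
      change _ = aeval (fun g : ι => g.1) P at h1
      rw [← h1]
      exact (aeval (fun g : ι => (⟨g.1, hGB g⟩ : B)) P).2
    rcases hB.ev _ hPB with h1 | h1
    · left
      have h2 := hshift.2 h1
      filter_upwards [h2] with m hm
      rwa [hev] at hm
    · right
      have h2 := hshift.2 h1
      filter_upwards [h2] with m hm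
      rwa [hev] at hm
  have hind' : ∀ (d : ℕ) (P : MvPolynomial (Fin (e + 1)) (MvPolynomial ι ℂ)), P.IsHomogeneous d →
      (∀ᶠ m in atTop, eval₂ (eval fun i => b i m) (fun l => f' m (j l)) P = 0) →
      ∀ a, ∀ᶠ m in atTop, eval (fun i => b i m) (coeff a P) = 0 := by
    intro d P hP h0 a
    let φ : MvPolynomial ι ℂ →+* B := (aeval (fun g : ι => (⟨g.1, hGB g⟩ : B)) :
      MvPolynomial ι ℂ →ₐ[ℂ] B).toRingHom
    have hφ : ∀ m q, evS B m (φ q) = eval (fun g : ι => g.1 m) q := by
      intro m q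
      rw [← hev]
      have h1 := MvPolynomial.comp_aeval_apply (f := fun g : ι => (⟨g.1, hGB g⟩ : B)) B.val q
      exact congrFun h1 m
    have h1 := hind d (MvPolynomial.map φ P) (hP.map φ) (by
      rw [← hshift]
      filter_upwards [h0] with m hm
      rw [eval₂_map]
      have h2 : (evS B (m + m2)).comp φ = eval (fun i => b i m) := RingHom.ext fun q => hφ _ q
      rw [h2]
      rw [eval₂_eq'] at hm ⊢
      have h3 : ∑ a ∈ P.support, eval (fun i => b i m) (coeff a P) * ∏ i, f' m (j i) ^ a i =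
          g m ^ d * ∑ a ∈ P.support, eval (fun i => b i m) (coeff a P) *
            ∏ i, f (m + m2) (j i) ^ a i := by
        rw [Finset.mul_sum]
        refine Finset.sum_congr rfl fun a ha => ?_
        have h4 : a.degree = d := by
          have h5 := hP (mem_support_iff.1 ha)
          rwa [Finsupp.degree_eq_weight_one]
        have h6 : ∏ i, f' m (j i) ^ a i = g m ^ d * ∏ i, f (m + m2) (j i) ^ a i := by
          rw [← h4, Finsupp.degree_eq_sum, ← Finset.prod_pow_eq_pow_sum, ← Finset.prod_mul_distrib]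
          refine Finset.prod_congr rfl fun i _ => ?_
          rw [mul_pow]
        rw [h6]
        ring
      rw [h3] at hm
      exact (mul_eq_zero.1 hm).resolve_left (pow_ne_zero _ (hg0 m))) a
    rw [← hshift] at h1
    filter_upwards [h1] with m hm
    rw [coeff_map] at hm
    have h2 := hφ (m + m2) (coeff a P)
    rw [evS_apply, hm] at h2
    exact h2.symm
  have hmain := seq_local hp hU hdet hcof (fun i k => (⟨M i k, hMG i k⟩ : ι)) (u m2) f' hf' j hind'
  have h1 : ∃ᶠ m in atTop, f (m + m2) (j 0) ≠ 0 ∧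
      Cover (fun H => ∀ᶠ s in atTop, eval (f s) H = 0) j (f (m + m2)) := by
    refine hmain.mono fun m hm => ⟨right_ne_zero_of_mul hm.1, ?_⟩
    refine hm.2.scale (hg0 m) (fun i => rfl) fun d H hH h2 => ?_
    rw [← hshift] at h2
    filter_upwards [h2] with k hk
    have h3 : f' k = fun i => g k * f (k + m2) i := rfl
    rw [h3, eval_hom hH, hk, mul_zero]
  intro h2
  apply h1
  exact hshift.2 h2

end Pool.Agent.Q33.UR
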