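import Pool.Agent.Q33.UR.SeqC

/-!
Sequences with polynomial coefficients and exponential sequences of points.
-/

set_option autoImplicit false

namespace Pool.Agent.Q33.UR

open MvPolynomial Filter Topology

/-- the ring of the sequences given by polynomials -/
noncomputable def polyS : Subalgebra ℂ (ℕ → ℂ) := Algebra.adjoin ℂ {fun m : ℕ => (m : ℂ)}

theorem mem_polyS {b : ℕ → ℂ} : b ∈ polyS ↔ ∃ q : Polynomial ℂ, ∀ m : ℕ, b m = q.eval (m : ℂ) := by
  have h : ∀ (q : Polynomial ℂ) (m : ℕ),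
      (Polynomial.aeval (fun m : ℕ => (m : ℂ)) q : ℕ → ℂ) m = q.eval (m : ℂ) := by
    intro q m
    have h1 := Polynomial.aeval_algHom_apply (Pi.evalAlgHom ℂ (fun _ : ℕ => ℂ) m)
      (fun m : ℕ => (m : ℂ)) q
    have h2 : (Pi.evalAlgHom ℂ (fun _ : ℕ => ℂ) m) (fun m : ℕ => (m : ℂ)) = (m : ℂ) := rfl
    rw [h2] at h1
    rw [← Polynomial.coe_aeval_eq_eval]
    exact h1.symm
  rw [polyS, Algebra.adjoin_singleton_eq_range_aeval]
  constructor
  · rintro ⟨q, rfl⟩
    exact ⟨q, h q⟩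
  · rintro ⟨q, hq⟩
    exact ⟨q, funext fun m => (h q m).trans (hq m).symm⟩

/-- nonzero polynomials have finitely many zeros -/
theorem poly_ev {q : Polynomial ℂ} (hq : q ≠ 0) : ∀ᶠ m : ℕ in atTop, q.eval (m : ℂ) ≠ 0 := by
  have h1 : {m : ℕ | q.eval (m : ℂ) = 0}.Finite := by
    have h2 : {z : ℂ | q.IsRoot z}.Finite := Polynomial.finite_setOfPred_isRoot hq
    exact h2.preimage (Nat.cast_injective.injOn)
  have h3 := h1.compl_mem_cofinite
  rw [Nat.cofinite_eq_atTop] at h3
  exact h3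

theorem polyS_ring : SeqRing polyS := by
  refine ⟨⟨{fun m : ℕ => (m : ℂ)}, by simp [polyS]⟩, fun b hb => ?_, fun b hb => ?_⟩
  · rw [mem_polyS] at hb ⊢
    obtain ⟨q, hq⟩ := hb
    refine ⟨q.comp (Polynomial.X + 1), fun m => ?_⟩
    rw [hq]
    simp
  · rw [mem_polyS] at hb
    obtain ⟨q, hq⟩ := hb
    by_cases h0 : q = 0
    · left
      refine Eventually.of_forall fun m => ?_
      rw [hq, h0, Polynomial.eval_zero]
    · right
      filter_upwards [poly_ev h0] with m hm
      rwa [hq]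

theorem botS_ring : SeqRing ⊥ := by
  refine ⟨Subalgebra.fg_bot, fun b hb => ?_, fun b hb => ?_⟩
  · obtain ⟨c, rfl⟩ := Algebra.mem_bot.1 hb
    exact Algebra.mem_bot.2 ⟨c, rfl⟩
  · obtain ⟨c, rfl⟩ := Algebra.mem_bot.1 hb
    by_cases h0 : c = 0
    · left
      exact Eventually.of_forall fun m => h0
    · right
      exact Eventually.of_forall fun m => h0

/-- polynomials grow slower than exponentials -/
theorem poly_exp (q : Polynomial ℂ) {r : ℂ} (hr : ‖r‖ < 1) :
    Tendsto (fun m : ℕ => q.eval (m : ℂ) * r ^ m) atTop (𝓝 0) := by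
  have h1 : (fun m : ℕ => q.eval (m : ℂ) * r ^ m) = fun m : ℕ =>
      ∑ k ∈ Finset.range (q.natDegree + 1), q.coeff k * ((m : ℂ) ^ k * r ^ m) := by
    funext m
    rw [Polynomial.eval_eq_sum_range, Finset.sum_mul]
    refine Finset.sum_congr rfl fun k _ => ?_
    ring
  rw [h1]
  have h2 : ∀ k ∈ Finset.range (q.natDegree + 1),
      Tendsto (fun m : ℕ => q.coeff k * ((m : ℂ) ^ k * r ^ m)) atTop (𝓝 0) := by
    intro k _
    rw [← mul_zero (q.coeff k)]
    apply Tendsto.const_mul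
    rw [tendsto_zero_iff_norm_tendsto_zero]
    have h3 := tendsto_pow_const_mul_const_pow_of_abs_lt_one k (r := ‖r‖) (by rwa [abs_norm])
    refine h3.congr fun m => ?_
    rw [norm_mul, norm_pow, norm_pow, Complex.norm_natCast]
  have h3 := tendsto_finsetSum _ h2
  rwa [Finset.sum_const_zero] at h3

/-- a lower bound for polynomials -/
theorem poly_lower {q : Polynomial ℂ} (hq : q ≠ 0) :
    ∃ c : ℝ, 0 < c ∧ ∀ᶠ m : ℕ in atTop, c ≤ ‖q.eval (m : ℂ)‖ := by
  by_cases hd : 0 < q.degree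
  · refine ⟨1, one_pos, ?_⟩
    have h1 := q.tendsto_norm_atTop hd (l := atTop) (z := fun m : ℕ => (m : ℂ)) (by
      simp only [Complex.norm_natCast]
      exact tendsto_natCast_atTop_atTop)
    exact h1.eventually_ge_atTop 1
  · have h1 := Polynomial.eq_C_of_degree_le_zero (le_of_not_gt hd)
    refine ⟨‖q.coeff 0‖, norm_pos_iff.2 fun h => hq (by rw [h1, h, map_zero]),
      Eventually.of_forall fun m => ?_⟩
    rw [h1]
    simp

/-- **Dominant terms.** -/
theorem exp_dom {T : Type} (s : Finset T) (hs : s.Nonempty) (q : T → Polynomial ℂ)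
    (hq : ∀ t ∈ s, q t ≠ 0) (β : T → ℕ) (hβ : ∀ t, 0 < β t) (hinj : Function.Injective β) :
    ∀ᶠ m : ℕ in atTop, ∑ t ∈ s, (q t).eval (m : ℂ) * (β t : ℂ) ^ m ≠ 0 := by
  classical
  obtain ⟨t0, ht0, hmax⟩ := s.exists_max_image β hs
  have hb0 : (β t0 : ℂ) ≠ 0 := Nat.cast_ne_zero.2 (hβ t0).ne'
  obtain ⟨c, hc, hlow⟩ := poly_lower (hq t0 ht0)
  have h1 : Tendsto (fun m : ℕ => ∑ t ∈ s.erase t0,
      (q t).eval (m : ℂ) * ((β t : ℂ) / (β t0 : ℂ)) ^ m) atTop (𝓝 0) := by
    have h3 := tendsto_finsetSum (s.erase t0) (fun t (ht : t ∈ s.erase t0) =>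
      poly_exp (q t) (r := (β t : ℂ) / (β t0 : ℂ)) (by
        rw [norm_div, Complex.norm_natCast, Complex.norm_natCast, div_lt_one (by
          exact_mod_cast hβ t0)]
        have h4 := Finset.mem_erase.1 ht
        have h5 := hmax t h4.2
        have h6 : β t ≠ β t0 := fun h => h4.1 (hinj h)
        exact_mod_cast lt_of_le_of_ne h5 h6))
    rwa [Finset.sum_const_zero] at h3
  have h2 := (tendsto_zero_iff_norm_tendsto_zero.1 h1).eventually_lt_const hc
  filter_upwards [h2, hlow] with m h3 h4 h5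
  have h6 : ∑ t ∈ s, (q t).eval (m : ℂ) * (β t : ℂ) ^ m = (β t0 : ℂ) ^ m *
      ((q t0).eval (m : ℂ) + ∑ t ∈ s.erase t0,
        (q t).eval (m : ℂ) * ((β t : ℂ) / (β t0 : ℂ)) ^ m) := by
    rw [← Finset.add_sum_erase s _ ht0, mul_add, Finset.mul_sum, mul_comm]
    congr 1
    refine Finset.sum_congr rfl fun t _ => ?_
    rw [div_pow]
    field_simp
  rw [h6] at h5
  have h7 := (mul_eq_zero.1 h5).resolve_left (pow_ne_zero _ hb0)
  have h8 : (q t0).eval (m : ℂ) = - ∑ t ∈ s.erase t0,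
        (q t).eval (m : ℂ) * ((β t : ℂ) / (β t0 : ℂ)) ^ m := by
    linear_combination h7
  rw [h8, norm_neg] at h4
  linarith

/-- the primes -/
noncomputable def pr (a : ℕ) : ℕ := Nat.nth Nat.Prime a

theorem pr_prime (a : ℕ) : (pr a).Prime := Nat.prime_nth_prime a

theorem pr_inj : Function.Injective pr := Nat.nth_injective Nat.infinite_setOfPred_prime

/-- the bases -/
noncomputable def bas {m : ℕ} (χ : Fin m →₀ ℕ) : ℕ := ∏ a : Fin m, pr a.val ^ χ a

theorem bas_pos {m : ℕ} (χ : Fin m →₀ ℕ) : 0 < bas χ :=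
  Finset.prod_pos fun a _ => pow_pos (pr_prime a).pos _

theorem bas_inj {m : ℕ} : Function.Injective (bas : (Fin m →₀ ℕ) → ℕ) := by
  classical
  have h : ∀ (χ : Fin m →₀ ℕ) (b : Fin m), (bas χ).factorization (pr b) = χ b := by
    intro χ b
    rw [bas, Nat.factorization_prod (S := Finset.univ) (g := fun a : Fin m => pr a.val ^ χ a)
      fun a _ => (pow_pos (pr_prime a).pos _).ne']
    rw [Finsupp.finsetSum_apply, Finset.sum_eq_single b]
    · rw [(pr_prime b).factorization_pow, Finsupp.single_eq_same]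
    · intro a _ ha
      rw [(pr_prime a).factorization_pow, Finsupp.single_eq_of_ne]
      intro h
      exact ha (Fin.val_injective (pr_inj h).symm)
    · intro h
      exact absurd (Finset.mem_univ b) h
  intro χ χ' he
  ext b
  rw [← h χ b, he, h]

/-- the sequence of parameters -/
noncomputable def tt {m : ℕ} (τ : Fin m → ℂ) (k : ℕ) (a : Fin m) : ℂ := τ a * (pr a : ℂ) ^ k

theorem tt_prod {m : ℕ} (τ : Fin m → ℂ) (k : ℕ) (χ : Fin m →₀ ℕ) :
    ∏ a, tt τ k a ^ χ a = (∏ a, τ a ^ χ a) * (bas χ : ℂ) ^ k := by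
  rw [bas, Nat.cast_prod, ← Finset.prod_pow, ← Finset.prod_mul_distrib]
  refine Finset.prod_congr rfl fun a _ => ?_
  rw [tt, mul_pow, Nat.cast_pow, ← pow_mul, ← pow_mul, mul_comm k]

/-- **Exponential sequences** on unirational varieties. -/
theorem gen_seq {N m : ℕ} (W : Fin (N + 1) → MvPolynomial (Fin m) ℂ) {τ : Fin m → ℂ}
    (hτ : ∀ a, τ a ≠ 0) (H : MvPolynomial (Fin (N + 1)) polyS)
    (h : ∃ᶠ k in atTop, eval₂ (evS polyS k) (fun i => eval (tt τ k) (W i)) H = 0) (k : ℕ) :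
    aeval W (MvPolynomial.map (evS polyS k) H) = 0 := by
  classical
  let WB : Fin (N + 1) → MvPolynomial (Fin m) polyS := fun i =>
    MvPolynomial.map (algebraMap ℂ polyS) (W i)
  let Q : MvPolynomial (Fin m) polyS := eval₂ C WB H
  have hcomp : ∀ k, (evS polyS k).comp (algebraMap ℂ polyS) = RingHom.id ℂ := by
    intro k
    ext c
    rfl
  have hQ1 : ∀ k, MvPolynomial.map (evS polyS k) Q = aeval W (MvPolynomial.map (evS polyS k) H) := by
    intro k
    have h1 := hom_eval₂ H (C : polyS →+* MvPolynomial (Fin m) polyS)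
      (MvPolynomial.map (evS polyS k)) WB
    rw [aeval_def, eval₂_map]
    refine h1.trans ?_
    congr 1
    · ext b
      rw [RingHom.comp_apply, RingHom.comp_apply, map_C]
      rfl
    · funext i
      change MvPolynomial.map (evS polyS k) (MvPolynomial.map (algebraMap ℂ polyS) (W i)) = W i
      rw [MvPolynomial.map_map, hcomp, MvPolynomial.map_id]
  have hQ2 : ∀ k, eval₂ (evS polyS k) (fun i => eval (tt τ k) (W i)) H =
      ∑ χ ∈ Q.support, ((coeff χ Q).1 k * ∏ a, τ a ^ χ a) * (bas χ : ℂ) ^ k := by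
    intro k
    have h1 : eval₂ (evS polyS k) (fun i => eval (tt τ k) (W i)) H =
        eval (tt τ k) (MvPolynomial.map (evS polyS k) Q) := by
      rw [hQ1]
      have h3 := MvPolynomial.comp_aeval_apply (f := W)
        (aeval (tt τ k) : MvPolynomial (Fin m) ℂ →ₐ[ℂ] ℂ) (MvPolynomial.map (evS polyS k) H)
      refine Eq.trans ?_ h3.symm
      rw [aeval_def, eval₂_map]
      rfl
    rw [h1, eval_map, eval₂_eq']
    refine Finset.sum_congr rfl fun χ _ => ?_
    rw [tt_prod, mul_assoc]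
    rfl
  choose q hq using fun χ : Fin m →₀ ℕ => mem_polyS.1 (coeff χ Q).2
  have hQ0 : Q = 0 := by
    by_contra hne
    have h1 := exp_dom Q.support (Finset.nonempty_iff_ne_empty.2 fun h => hne (support_eq_empty.1 h))
      (fun χ => Polynomial.C (∏ a, τ a ^ χ a) * q χ) (by
        intro χ hχ
        apply mul_ne_zero
        · rw [Ne, Polynomial.C_eq_zero]
          exact Finset.prod_ne_zero_iff.2 fun a _ => pow_ne_zero _ (hτ a)
        · intro h0
          apply mem_support_iff.1 hχ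
          apply Subtype.ext
          funext k
          rw [hq, h0, Polynomial.eval_zero]
          rfl) bas bas_pos bas_inj
    obtain ⟨k, h2, h3⟩ := (h.and_eventually h1).exists
    apply h3
    rw [← h2, hQ2]
    refine Finset.sum_congr rfl fun χ _ => ?_
    rw [Polynomial.eval_mul, Polynomial.eval_C, hq]
    ring
  rw [← hQ1, hQ0, map_zero]

end Pool.Agent.Q33.UR
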