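import Pool.Agent.Q33.UR.SeqD
import Pool.Agent.Q33.UR.Desc

/-!
Nondegenerate sequences of points.
-/

set_option autoImplicit false

namespace Pool.Agent.Q33.UR

open MvPolynomial Filter Topology Pool.Agent.TH143 Pool.Agent.TH143.GT
open Pool.Agent.W602.GT (IsForm)

variable {B : Subalgebra ℂ (ℕ → ℂ)} {N : ℕ}

/-- sequences of maximal transcendence degree -/
theorem full_basis_seq {p : Ideal (MvPolynomial (Fin (N + 1)) ℂ)}
    {Q : MvPolynomial (Fin (N + 1)) ℂ}
    {K : Type} [Field K] [Algebra ℂ K] {w : ℕ} {y : Fin (N + 1) → K} (hy : FunField p Q K w y)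
    {f : ℕ → Fin (N + 1) → ℂ} (hX : ∀ m, ∀ H ∈ p, eval (f m) H = 0)
    {j : Fin (w + 1) → Fin (N + 1)} (hj : IndepSeq B fun m l => f m (j l)) :
    y (j 0) ≠ 0 ∧ IsTranscendenceBasis ℂ fun l : Fin w => y (j l.succ) / y (j 0) := by
  classical
  have hhom : ∀ (d : ℕ) (P : MvPolynomial (Fin (w + 1)) ℂ), P.IsHomogeneous d →
      aeval (fun l => y (j l)) P = 0 → P = 0 := by
    intro d P hP h
    have h1 : rename j P ∈ p := by
      apply hy.mem _ ⟨d, hP.rename_isHomogeneous⟩
      unfold Pool.Agent.W602.GT.val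
      rw [aeval_rename]
      exact h
    have h2 : (MvPolynomial.map (algebraMap ℂ B) P).IsHomogeneous d := hP.map _
    have h3 := hj d (MvPolynomial.map (algebraMap ℂ B) P) h2 (Eventually.of_forall fun m => by
      rw [eval₂_map]
      have h4 : (evS B m).comp (algebraMap ℂ B) = RingHom.id ℂ := by
        ext c
        rfl
      rw [h4]
      have h5 := hX m _ h1
      rw [eval_rename] at h5
      exact h5)
    ext a
    obtain ⟨m, h6⟩ := (h3 a).exists
    rw [coeff_map] at h6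
    rw [coeff_zero]
    exact h6
  have hy0 : y (j 0) ≠ 0 := by
    intro h0
    have h1 := hhom 1 (X 0) (isHomogeneous_X _ _) (by rw [aeval_X]; exact h0)
    exact X_ne_zero (R := ℂ) (0 : Fin (w + 1)) h1
  refine ⟨hy0, ?_⟩
  have hind : AlgebraicIndependent ℂ fun l : Fin w => y (j l.succ) / y (j 0) := by
    rw [algebraicIndependent_iff]
    intro P hP
    exact indep_of_hom (algebraMap ℂ K) (fun l => y (j l)) hy0 hhom P hP
  apply AlgebraicIndependent.isTranscendenceBasis_of_trdeg_le_of_finite hind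
  rw [hy.sub.dim]
  simp

/-- A coordinate basis along a nondegenerate sequence. -/
theorem full_of_rel {p : Ideal (MvPolynomial (Fin (N + 1)) ℂ)}
    {Q : MvPolynomial (Fin (N + 1)) ℂ}
    {K : Type} [Field K] [Algebra ℂ K] {w : ℕ} {y : Fin (N + 1) → K} (hy : FunField p Q K w y)
    {f : ℕ → Fin (N + 1) → ℂ} (h : ∀ (d : ℕ) (H : MvPolynomial (Fin (N + 1)) B),
      H.IsHomogeneous d → (∀ᶠ m in atTop, eval₂ (evS B m) (f m) H = 0) →
      ∀ᶠ m in atTop, MvPolynomial.map (evS B m) H ∈ p) :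
    ∃ j : Fin (w + 1) → Fin (N + 1), IndepSeq B fun m l => f m (j l) := by
  classical
  obtain ⟨i0, hi0⟩ := Function.ne_iff.1 hy.sub.ne
  have hy0 : y i0 ≠ 0 := hi0
  obtain ⟨jj, hjj⟩ := exists_coord_basis y i0 hy0 hy.sub.gen hy.sub.dim
  refine ⟨Fin.cons i0 jj, fun d P hP h0 a => ?_⟩
  have h1 := h d (rename (Fin.cons i0 jj : Fin (w + 1) → Fin (N + 1)) P) hP.rename_isHomogeneous (by
    filter_upwards [h0] with m hm
    rw [eval₂_rename]
    exact hm)
  filter_upwards [h1] with m hm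
  have h2 := hy.sub.mem _ hm
  unfold Pool.Agent.W602.GT.val at h2
  rw [map_rename, aeval_rename] at h2
  have h3 := hom_of_indep (fun l => y ((Fin.cons i0 jj : Fin (w + 1) → Fin (N + 1)) l)) hy0
    hjj.1 d (MvPolynomial.map (evS B m) P) (hP.map _) h2
  have h4 := congrArg (coeff a) h3
  rw [coeff_map, coeff_zero] at h4
  exact h4

/-- Zariski-dense sequences -/
theorem full_of_dense {p : Ideal (MvPolynomial (Fin (N + 1)) ℂ)}
    {Q : MvPolynomial (Fin (N + 1)) ℂ}
    {K : Type} [Field K] [Algebra ℂ K] {w : ℕ} {y : Fin (N + 1) → K} (hy : FunField p Q K w y)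
    {f : ℕ → Fin (N + 1) → ℂ} (h : ∀ H : MvPolynomial (Fin (N + 1)) ℂ, IsForm H → H ∉ p →
      ∃ᶠ m in atTop, eval (f m) H ≠ 0) :
    ∃ j : Fin (w + 1) → Fin (N + 1),
      IndepSeq (⊥ : Subalgebra ℂ (ℕ → ℂ)) fun m l => f m (j l) := by
  classical
  apply full_of_rel hy
  intro d H hH h0
  have hc : ∀ b : (⊥ : Subalgebra ℂ (ℕ → ℂ)), ∃ c : ℂ, b = algebraMap ℂ _ c := by
    rintro ⟨b, hb⟩
    obtain ⟨c, rfl⟩ := Algebra.mem_bot.1 hb
    exact ⟨c, rfl⟩
  have hm : ∀ m, MvPolynomial.map (evS (⊥ : Subalgebra ℂ (ℕ → ℂ)) m) H =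
      MvPolynomial.map (evS (⊥ : Subalgebra ℂ (ℕ → ℂ)) 0) H := by
    intro m
    ext a
    rw [coeff_map, coeff_map]
    obtain ⟨c, hc⟩ := hc (coeff a H)
    rw [hc]
    rfl
  refine Eventually.of_forall fun m => ?_
  rw [hm]
  by_contra hcon
  have h1 := h _ ⟨d, hH.map _⟩ hcon
  obtain ⟨k, h2, h3⟩ := (h1.and_eventually h0).exists
  apply h2
  rw [← hm k, eval_map]
  exact h3

/-- exponential sequences -/
theorem linSeq_of_exp {r : ℕ} (c : Fin (N + 1) → Fin r → ℂ) (β : Fin r → ℂ) (hβ : ∀ a, β a ≠ 0) :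
    LinSeq B (fun m i => ∑ a, c i a * β a ^ m) := by
  classical
  refine ⟨r, fun _ => 1, fun i k _ => if i = k then β i else 0, fun i k _ => c i k,
    fun m i => β i ^ m, B.algebraMap_mem 1, fun i k => B.algebraMap_mem _,
    fun i k => B.algebraMap_mem _, Eventually.of_forall fun m => ⟨one_ne_zero, ?_, fun i => ?_,
    fun i => rfl⟩⟩
  · have h1 : (Matrix.of fun i k : Fin r => if i = k then β i else 0) = Matrix.diagonal β := by
      ext i k
      rw [Matrix.of_apply, Matrix.diagonal_apply]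
    rw [h1, Matrix.det_diagonal]
    exact Finset.prod_ne_zero_iff.2 fun a _ => hβ a
  · beta_reduce
    rw [one_mul, pow_succ, Finset.sum_eq_single i]
    · rw [if_pos rfl, mul_comm]
    · intro k _ hk
      rw [if_neg (fun h => hk h.symm), zero_mul]
    · intro h
      exact absurd (Finset.mem_univ i) h

/-- Unirational varieties have nondegenerate exponential sequences of points over the field of
definition of the parametrisation. -/
theorem exists_expseq {k : Type} [Field k] [Algebra k ℂ] {ι : Type}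
    {F : ι → MvPolynomial (Fin (N + 1)) k} {L : IntermediateField k ℂ} {m : ℕ}
    {W : Fin (N + 1) → MvPolynomial (Fin m) L} (hW : ∀ i, aeval W (F i) = 0)
    {i0 : Fin (N + 1)} (hi0 : W i0 ≠ 0) :
    ∃ (r : ℕ) (c : Fin (N + 1) → Fin r → ℂ) (β : Fin r → ℕ), (∀ i a, c i a ∈ L) ∧
      (∀ a, 0 < β a) ∧ (∀ n : ℕ, IsPt L F fun i => ∑ a, c i a * (β a : ℂ) ^ n) ∧
      ∀ H : MvPolynomial (Fin (N + 1)) polyS,
        (∃ᶠ n in atTop, eval₂ (evS polyS n) (fun i => ∑ a, c i a * (β a : ℂ) ^ n) H = 0) →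
        ∀ n, aeval (fun i => MvPolynomial.map (algebraMap L ℂ) (W i))
          (MvPolynomial.map (evS polyS n) H) = 0 := by
  classical
  obtain ⟨WC, hWC⟩ : ∃ WC : Fin (N + 1) → MvPolynomial (Fin m) ℂ,
    WC = fun i => MvPolynomial.map (algebraMap L ℂ) (W i) := ⟨_, rfl⟩
  -- a nonvanishing coordinate
  have h0 : ∀ᶠ n in atTop, eval (tt (fun _ => 1) n) (WC i0) ≠ 0 := by
    by_contra hcon
    have h1 := gen_seq WC (τ := fun _ => 1) (fun _ => one_ne_zero) (X i0) (by
      intro h2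
      apply hcon
      filter_upwards [h2] with n hn hn'
      apply hn
      rw [eval₂_X]
      exact hn') 0
    rw [map_X, aeval_X, hWC] at h1
    exact hi0 ((map_eq_zero_iff _ (MvPolynomial.map_injective _ (algebraMap L ℂ).injective)).1 h1)
  obtain ⟨n0, hn0⟩ := eventually_atTop.1 h0
  let τ : Fin m → ℂ := fun a => ((pr a.val : ℕ) : ℂ) ^ n0
  have hτ : ∀ a, τ a ≠ 0 := fun a => pow_ne_zero _ (Nat.cast_ne_zero.2 (pr_prime a.val).ne_zero)
  have htt : ∀ n, tt τ n = tt (fun _ => 1) (n + n0) := by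
    intro n
    funext a
    simp only [tt, τ, one_mul]
    rw [pow_add, mul_comm]
  have hτL : ∀ χ : Fin m →₀ ℕ, ∏ a, τ a ^ χ a ∈ L := fun χ =>
    prod_mem fun a _ => pow_mem (pow_mem (natCast_mem L _) _) _
  let T : Finset (Fin m →₀ ℕ) := Finset.univ.biUnion fun i => (WC i).support
  let ε : T ≃ Fin T.card := T.equivFin
  let c : Fin (N + 1) → Fin T.card → ℂ := fun i a =>
    coeff (ε.symm a).1 (WC i) * ∏ l, τ l ^ (ε.symm a).1 l
  let β : Fin T.card → ℕ := fun a => bas (ε.symm a).1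
  have hx : ∀ n i, ∑ a, c i a * (β a : ℂ) ^ n = eval (tt τ n) (WC i) := by
    intro n i
    rw [eval_eq']
    have h1 : ∑ χ ∈ (WC i).support, coeff χ (WC i) * ∏ l, tt τ n l ^ χ l =
        ∑ χ ∈ T, coeff χ (WC i) * ∏ l, tt τ n l ^ χ l := by
      apply Finset.sum_subset
      · intro χ hχ
        exact Finset.mem_biUnion.2 ⟨i, Finset.mem_univ i, hχ⟩
      · intro χ _ hχ
        rw [notMem_support_iff.1 hχ, zero_mul]
    rw [h1, ← Finset.sum_coe_sort T, ← ε.symm.sum_comp]
    refine Finset.sum_congr rfl fun a _ => ?_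
    rw [tt_prod]
    simp only [c, β, mul_assoc]
  have hcL : ∀ i χ, coeff χ (WC i) ∈ L := by
    intro i χ
    rw [hWC]
    beta_reduce
    rw [coeff_map]
    exact (coeff χ (W i)).2
  refine ⟨T.card, c, β, fun i a => mul_mem (hcL _ _) (hτL _), fun a => bas_pos _, fun n => ?_, ?_⟩
  · simp only [hx]
    refine ⟨fun h1 => ?_, fun i => ?_, fun i => ?_⟩
    · have h2 := congrFun h1 i0
      rw [htt] at h2
      exact hn0 (n + n0) (by omega) h2
    · beta_reduce
      rw [← hx]
      exact sum_mem fun a _ => mul_mem (mul_mem (hcL _ _) (hτL _)) (pow_mem (natCast_mem L _) _)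
    · have h2 := MvPolynomial.comp_aeval_apply (f := W)
        (MvPolynomial.mapAlgHom (IsScalarTower.toAlgHom k L ℂ) :
          MvPolynomial (Fin m) L →ₐ[k] MvPolynomial (Fin m) ℂ) (F i)
      rw [hW i, map_zero] at h2
      have h3 := MvPolynomial.comp_aeval_apply (f := WC)
        ((aeval (tt τ n) : MvPolynomial (Fin m) ℂ →ₐ[ℂ] ℂ).restrictScalars k) (F i)
      have h4 : aeval WC (F i) = 0 := by
        rw [hWC]
        exact h2.symm
      rw [h4, map_zero] at h3
      exact h3.symm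
  · intro H hH n
    simp only [hx] at hH
    have := gen_seq WC hτ H hH n
    rw [hWC] at this
    exact this

end Pool.Agent.Q33.UR
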