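import Pool.Agent.Q33.UR.SeqE

/-!
Zariski-dense sequences given by linear difference equations over a ring of sequences of
transcendence degree `c`.
-/

set_option autoImplicit false

namespace Pool.Agent.Q33.UR

open MvPolynomial Filter Topology Pool.Agent.TH143 Pool.Agent.TH143.GT
open Pool.Agent.W602.GT (IsForm)

variable {B : Subalgebra ℂ (ℕ → ℂ)} {N : ℕ}

/-- Any `c + 1` sequences in `B` satisfy a nontrivial algebraic relation over the complex numbers for
all large `m`. -/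
def TrdegLeS (B : Subalgebra ℂ (ℕ → ℂ)) (c : ℕ) : Prop :=
  ∀ b : Fin (c + 1) → ℕ → ℂ, (∀ i, b i ∈ B) →
    ∃ P : MvPolynomial (Fin (c + 1)) ℂ, P ≠ 0 ∧ ∀ᶠ m in atTop, eval (fun i => b i m) P = 0

/-- Each form which does not vanish on the variety of `p` does not vanish at infinitely many points
of the sequence `f`. -/
def DenseSeq (p : Ideal (MvPolynomial (Fin (N + 1)) ℂ)) (f : ℕ → Fin (N + 1) → ℂ) : Prop :=
  ∀ H : MvPolynomial (Fin (N + 1)) ℂ, IsForm H → H ∉ p → ∃ᶠ m in atTop, eval (f m) H ≠ 0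

theorem ultra_field (u : Ultrafilter ℕ) : ∃ (M : Type) (_ : Field M) (G : (ℕ → ℂ) →+* M),
    ∀ s, G s = 0 ↔ ∀ᶠ m in (u : Filter ℕ), s m = 0 :=
  ⟨(u : Filter ℕ).Germ ℂ, inferInstance, Filter.Germ.coeRingHom (u : Filter ℕ), fun _ =>
    Filter.Germ.coe_eq⟩

/-- Zariski-dense sequences have transcendence degree at least `w` over a ring of transcendence
degree `c`. -/
theorem codim_seq (hB : SeqRing B) {c : ℕ} (hc : TrdegLeS B c)
    {p : Ideal (MvPolynomial (Fin (N + 1)) ℂ)} (hp : p.IsPrime)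
    {Q : MvPolynomial (Fin (N + 1)) ℂ}
    {K : Type} [Field K] [Algebra ℂ K] {w : ℕ} {y : Fin (N + 1) → K}
    (hy : FunField p Q K (w + c) y) {f : ℕ → Fin (N + 1) → ℂ} (hd : DenseSeq p f) :
    ∃ j : Fin (w + 1) → Fin (N + 1), IndepSeq B fun m l => f m (j l) := by
  classical
  obtain ⟨i0, hi0⟩ := Function.ne_iff.1 hy.sub.ne
  have hy0 : y i0 ≠ 0 := hi0
  obtain ⟨jj, hjj⟩ := exists_coord_basis y i0 hy0 hy.sub.gen hy.sub.dim
  -- the ultrafilter
  obtain ⟨u, hu, hu'⟩ := exists_ultra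
    (T := {H : MvPolynomial (Fin (N + 1)) ℂ // IsForm H ∧ H ∉ p})
    (fun H => {m | eval (f m) H.1 ≠ 0})
    ⟨⟨1, ⟨0, isHomogeneous_one _ _⟩, fun h => hp.ne_top ((Ideal.eq_top_iff_one _).2 h)⟩⟩
    (by
      rintro ⟨H, ⟨d, hH⟩, h1⟩ ⟨H', ⟨d', hH'⟩, h2⟩
      refine ⟨⟨H * H', ⟨d + d', hH.mul hH'⟩, fun h => (hp.mem_or_mem h).elim h1 h2⟩, ?_⟩
      intro m hm
      have hm' : eval (f m) (H * H') ≠ 0 := hm
      rw [map_mul] at hm'
      exact ⟨left_ne_zero_of_mul hm', right_ne_zero_of_mul hm'⟩)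
    (by
      rintro ⟨H, h1, h2⟩
      exact hd H h1 h2)
  obtain ⟨M, iM, G, hG0⟩ := ultra_field u
  let _ : Algebra ℂ M := (G.comp (algebraMap ℂ (ℕ → ℂ))).toAlgebra
  let Ga : (ℕ → ℂ) →ₐ[ℂ] M := { G with commutes' := fun _ => rfl }
  have hGa0 : ∀ s, Ga s = 0 ↔ ∀ᶠ m in (u : Filter ℕ), s m = 0 := hG0
  let A : Subalgebra ℂ M := B.map Ga
  let g : Fin (N + 1) → M := fun i => Ga fun m => f m i
  have hga : ∀ {τ : Type} (j : τ → Fin (N + 1)) (P : MvPolynomial τ ℂ),
      aeval (fun l => g (j l)) P = Ga fun m => eval (fun l => f m (j l)) P := by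
    intro τ j P
    have h1 := MvPolynomial.comp_aeval_apply (f := fun l m => f m (j l)) Ga P
    refine h1.symm.trans ?_
    congr 1
    funext m
    exact MvPolynomial.comp_aeval_apply (f := fun l m => f m (j l))
      (Pi.evalAlgHom ℂ (fun _ : ℕ => ℂ) m) P
  have hg0 : g i0 ≠ 0 := by
    intro h0
    have h1 : X i0 ∉ p := by
      intro h2
      have h3 := hy.sub.mem _ h2
      unfold Pool.Agent.W602.GT.val at h3
      rw [aeval_X] at h3
      exact hy0 h3
    have h2 := hu' ⟨X i0, ⟨1, isHomogeneous_X _ _⟩, h1⟩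
    have h3 := (hGa0 _).1 h0
    obtain ⟨m, h4, h5⟩ := (h2.and h3).exists
    apply h4
    rw [eval_X]
    exact h5
  have hgC : AlgebraicIndependent ℂ fun l : Fin (w + c) => g (jj l) / g i0 := by
    rw [algebraicIndependent_iff]
    intro P hP
    refine indep_of_hom (algebraMap ℂ M)
      (fun l => g ((Fin.cons i0 jj : Fin (w + c + 1) → Fin (N + 1)) l)) hg0 ?_ P hP
    intro d R hR h
    have h1 : rename (Fin.cons i0 jj : Fin (w + c + 1) → Fin (N + 1)) R ∈ p := by
      by_contra hcon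
      have h2 := hu' ⟨_, ⟨d, hR.rename_isHomogeneous⟩, hcon⟩
      have h3 : aeval (fun l => g ((Fin.cons i0 jj : Fin (w + c + 1) → Fin (N + 1)) l)) R = 0 := h
      rw [hga, hGa0] at h3
      obtain ⟨m, h4, h5⟩ := (h2.and h3).exists
      apply h4
      rw [eval_rename]
      exact h5
    have h2 := hy.sub.mem _ h1
    unfold Pool.Agent.W602.GT.val at h2
    rw [aeval_rename] at h2
    exact hom_of_indep (fun l => y ((Fin.cons i0 jj : Fin (w + c + 1) → Fin (N + 1)) l)) hy0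
      hjj.1 d R hR h2
  have htr : Algebra.trdeg ℂ A ≤ c := by
    refine trdeg_le_of fun a => ?_
    choose b hb hba using fun i => (a i).2
    obtain ⟨P, hP, hP0⟩ := hc b hb
    refine ⟨P, hP, ?_⟩
    apply Subtype.ext
    have h1 := MvPolynomial.comp_aeval_apply (f := a) A.val P
    have h2 : (fun i => A.val (a i)) = fun i => Ga (b i) := funext fun i => (hba i).symm
    rw [h2] at h1
    change A.val (aeval a P) = 0
    rw [h1, ← MvPolynomial.comp_aeval_apply (f := b) Ga P, hGa0]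
    apply hu
    filter_upwards [hP0] with m hm
    rw [← hm]
    exact MvPolynomial.comp_aeval_apply (f := b) (Pi.evalAlgHom ℂ (fun _ : ℕ => ℂ) m) P
  obtain ⟨l, hl⟩ := trdeg_drop_c (A := A) Subtype.val_injective htr _ hgC
  refine ⟨Fin.cons i0 fun i => jj (l i), fun d P hP h0 a => ?_⟩
  obtain ⟨j, hj⟩ : ∃ j : Fin (w + 1) → Fin (N + 1), j = Fin.cons i0 fun i => jj (l i) := ⟨_, rfl⟩
  rw [← hj] at h0
  let φ : B →+* A := (Ga.toRingHom.comp B.val.toRingHom).codRestrict A.toSubring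
    fun b => ⟨b.1, b.2, rfl⟩
  have hR0 : aeval (fun i => g (j i)) (MvPolynomial.map φ P) = 0 := by
    have h1 : aeval (fun i => g (j i)) (MvPolynomial.map φ P) =
        Ga fun m => eval₂ (evS B m) (fun l => f m (j l)) P := by
      rw [aeval_def, eval₂_map]
      have h2 := hom_eval₂ P B.val.toRingHom Ga.toRingHom (fun l m => f m (j l))
      refine Eq.trans h2.symm ?_
      change Ga _ = Ga _
      congr 1
      funext m
      exact hom_eval₂ P B.val.toRingHom (Pi.evalRingHom (fun _ : ℕ => ℂ) m) (fun l m => f m (j l))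
    rw [h1, hGa0]
    exact hu h0
  have h1 : g (j 0) = g i0 := by
    rw [hj]
    rfl
  have h2 : (fun i : Fin w => g (j i.succ) / g (j 0)) = fun i => g (jj (l i)) / g i0 := by
    funext i
    rw [hj]
    rfl
  have h3 := hom_of_indep (k := A) (fun i => g (j i)) (by rw [h1]; exact hg0)
    (by rw [h2]; exact hl) d (MvPolynomial.map φ P) (hP.map φ) hR0
  have h4 := congrArg (coeff a) h3
  rw [coeff_map, coeff_zero] at h4
  have h5 : Ga (coeff a P).1 = 0 := congrArg Subtype.val h4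
  rw [hGa0] at h5
  rcases hB.ev _ (coeff a P).2 with h6 | h6
  · exact h6
  · exfalso
    obtain ⟨m, h7, h8⟩ := (h5.and (hu h6)).exists
    exact h8 h7

theorem trdegLeS_poly : TrdegLeS polyS 1 := by
  intro b hb
  choose q hq using fun i => mem_polyS.1 (hb i)
  have h1 : ¬ AlgebraicIndependent ℂ q := by
    intro h
    have h2 := h.cardinalMk_le_trdeg
    rw [Polynomial.trdeg_of_isDomain, Cardinal.mk_fin] at h2
    have h3 : (2 : ℕ) ≤ 1 := by exact_mod_cast h2
    omega
  rw [algebraicIndependent_iff] at h1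
  push Not at h1
  obtain ⟨P, hP, hP0⟩ := h1
  refine ⟨P, hP0, Eventually.of_forall fun m => ?_⟩
  have h2 := congrArg (Polynomial.evalRingHom (m : ℂ)) hP
  rw [map_zero] at h2
  have h3 := MvPolynomial.comp_aeval_apply (f := q)
    (Polynomial.aeval (m : ℂ) : Polynomial ℂ →ₐ[ℂ] ℂ) P
  have h4 : (fun i => (Polynomial.aeval (m : ℂ) : Polynomial ℂ →ₐ[ℂ] ℂ) (q i)) =
      fun i => b i m := by
    funext i
    rw [hq i, Polynomial.coe_aeval_eq_eval]
  rw [h4, Polynomial.coe_aeval_eq_eval] at h3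
  exact h3.symm.trans h2

theorem trdegLeS_bot : TrdegLeS (⊥ : Subalgebra ℂ (ℕ → ℂ)) 0 := by
  intro b hb
  obtain ⟨c, hc⟩ := Algebra.mem_bot.1 (hb 0)
  refine ⟨X 0 - C c, fun h => ?_, Eventually.of_forall fun m => ?_⟩
  · have h1 := congrArg (eval fun _ => c + 1) h
    simp at h1
  · rw [map_sub, eval_X, eval_C, ← hc]
    exact sub_self c

theorem Cover.param {I : MvPolynomial (Fin (N + 1)) ℂ → Prop} {e : ℕ}
    {j : Fin (e + 1) → Fin (N + 1)} {x : Fin (N + 1) → ℂ} (hx0 : x (j 0) ≠ 0)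
    (h : Cover I j x) : ∃ (g : ℕ) (W : Fin (N + 1) → MvPolynomial (Fin g) ℂ) (x0 : Fin g → ℂ),
      (∀ i, eval x0 (W i) = x i) ∧ (∀ H, IsForm H → I H → aeval W H = 0) ∧
        NoRel fun l => W (j l) := by
  classical
  obtain ⟨κ, iκ, W, x0, u, h1, h2, h3⟩ := h
  let σ := Fintype.equivFin κ
  have h6 : ∀ {τ : Type} (V : τ → MvPolynomial κ ℂ) (H : MvPolynomial τ ℂ),
      aeval (fun i => rename σ (V i)) H = rename σ (aeval V H) := fun V H =>
    (MvPolynomial.comp_aeval_apply (f := V) (rename σ : MvPolynomial κ ℂ →ₐ[ℂ] _) H).symm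
  refine ⟨Fintype.card κ, fun i => rename σ (W i), fun a => x0 (σ.symm a), fun i => ?_,
    fun H hH h0 => ?_, fun d P hP h0 => ?_⟩
  · rw [eval_rename, ← h1 i]
    congr 2
    funext a
    simp
  · obtain ⟨d, hHd⟩ := hH
    rw [h6, h2 d H hHd h0, map_zero]
  · rw [h6, map_eq_zero_iff _ (rename_injective _ σ.injective)] at h0
    refine jac (fun l => W (j l)) (fun i => mkDerivation ℂ (fun a => C (u i a))) ?_ ?_ d P hP h0
    · intro h4
      apply hx0
      rw [← h1, h4, map_zero]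
    · intro h4
      apply h3
      have h5 := congrArg (eval x0) h4
      rw [map_zero, RingHom.map_det] at h5
      rw [← h5]
      congr 1
      ext i l
      simp only [RingHom.mapMatrix_apply, Matrix.map_apply, Matrix.of_apply, map_sub, map_mul, h1]

end Pool.Agent.Q33.UR
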