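import Pool.Agent.Q33.UR.SeqF

/-!
Definitions for statements about sequences of points.
-/

set_option autoImplicit false

namespace Pool.Agent.Q33.UR

open MvPolynomial Filter Topology
open Pool.Agent.W602.GT (IsForm)

section

variable {k : Type} [Field k] [Algebra k ℂ] {N : ℕ} {ι : Type}

/-- The projective variety with the generic point `y` is unirational over some finite extension `L`
of `k`: there are polynomials over `L` with exactly the homogeneous relations of `y`. -/
def UniFin (k : Type) [Field k] [Algebra k ℂ] {K : Type} [Field K] [Algebra ℂ K]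
    (y : Fin (N + 1) → K) : Prop :=
  ∃ L : IntermediateField k ℂ, FiniteDimensional k L ∧ ∃ (m : ℕ)
    (W : Fin (N + 1) → MvPolynomial (Fin m) L), ∀ H : MvPolynomial (Fin (N + 1)) ℂ,
      IsForm H → (aeval y H = 0 ↔ aeval (fun i => map (algebraMap L ℂ) (W i)) H = 0)

/-- `x` is in the image of a polynomial map `W` from an affine space to the variety `F = 0` whose
coordinates `j` satisfy no homogeneous relation. -/
def UniAt (F : ι → MvPolynomial (Fin (N + 1)) k) {e : ℕ} (j : Fin e → Fin (N + 1))
    (x : Fin (N + 1) → ℂ) : Prop :=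
  ∃ (m : ℕ) (W : Fin (N + 1) → MvPolynomial (Fin m) ℂ) (t0 : Fin m → ℂ),
    (∀ i, eval t0 (W i) = x i) ∧ (∀ t i, aeval (fun l => eval t (W l)) (F i) = 0) ∧
    NoRel fun l => W (j l)

/-- For some finite extension `L` of `k` the coordinates `j` of the points over `L` of the variety
`F = 0` satisfy no homogeneous relation. -/
def PtsIndep (F : ι → MvPolynomial (Fin (N + 1)) k) {e : ℕ} (j : Fin e → Fin (N + 1)) : Prop :=
  ∃ L : IntermediateField k ℂ, FiniteDimensional k L ∧
    ∀ (d : ℕ) (P : MvPolynomial (Fin e) ℂ), P.IsHomogeneous d →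
      (∀ x, IsPt L F x → eval (fun l => x (j l)) P = 0) → P = 0

/-- For some finite extension `L` of `k` there is a sequence `x` of points over `L` of the variety
`F = 0` with homogeneous coordinates of the form `∑ c β ^ n`, `c` in `L`, `β` positive integers, such
that each form with coefficients in `ℂ[n]` which vanishes at `x n` for infinitely many `n` belongs to
`p` for all `n`. -/
def ExpPts (F : ι → MvPolynomial (Fin (N + 1)) k) (p : Ideal (MvPolynomial (Fin (N + 1)) ℂ)) :
    Prop :=
  ∃ L : IntermediateField k ℂ, FiniteDimensional k L ∧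
    ∃ (r : ℕ) (c : Fin (N + 1) → Fin r → ℂ) (β : Fin r → ℕ) (x : ℕ → Fin (N + 1) → ℂ),
      (∀ i a, c i a ∈ L) ∧ (∀ a, 0 < β a) ∧ (∀ n i, x n i = ∑ a, c i a * (β a : ℂ) ^ n) ∧
      (∀ n, IsPt L F (x n)) ∧
      ∀ (d : ℕ) (H : MvPolynomial (Fin (N + 1)) polyS), H.IsHomogeneous d →
        (∃ᶠ n in atTop, eval₂ (evS polyS n) (x n) H = 0) → ∀ n, map (evS polyS n) H ∈ p

end

/-- Each form with coefficients in `B` which vanishes at `f n` for all large `n` belongs to `p` for
all large `n`. -/
def NonDegS (B : Subalgebra ℂ (ℕ → ℂ)) {N : ℕ} (p : Ideal (MvPolynomial (Fin (N + 1)) ℂ))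
    (f : ℕ → Fin (N + 1) → ℂ) : Prop :=
  ∀ (d : ℕ) (H : MvPolynomial (Fin (N + 1)) B), H.IsHomogeneous d →
    (∀ᶠ n in atTop, eval₂ (evS B n) (f n) H = 0) → ∀ᶠ n in atTop, map (evS B n) H ∈ p

end Pool.Agent.Q33.UR
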