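import Pool.Agent.Q33.UR.Alg
import Pool.Agent.TH143.Tan

/-!
Several tangent vectors to the closure of a family of holomorphic functions.
-/

set_option autoImplicit false

namespace Pool.Agent.Q33.UR

open MvPolynomial Metric Set Filter Topology Pool.Agent.TH143

/-- derivations dual to an algebraically independent family -/
theorem exists_ders {B R K : Type} [CommRing B] [IsDomain B] [CharZero B] [CommRing R] [Field K]
    [Algebra R K] (φ : B →+* R) (hφ : Function.Injective φ)
    (hK : Function.Injective (algebraMap R K)) {e : ℕ} (g : Fin e → K)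
    (hg : ∀ p : MvPolynomial (Fin e) B, p.eval₂ ((algebraMap R K).comp φ) g = 0 → p = 0) :
    ∃ D : Fin e → K → K, (∀ i x y, D i (x + y) = D i x + D i y) ∧
      (∀ i x y, D i (x * y) = x * D i y + y * D i x) ∧
      (∀ i, ∀ b : B, D i (algebraMap R K (φ b)) = 0) ∧
      ∀ i l, D i (g l) = if l = i then 1 else 0 := by
  classical
  let _ : Algebra B K := ((algebraMap R K).comp φ).toAlgebra
  have hinj : Function.Injective (algebraMap B K) := hK.comp hφ
  have hfs : FaithfulSMul B K := (faithfulSMul_iff_algebraMap_injective _ _).2 hinj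
  let L := FractionRing B
  let _ : Algebra L K := FractionRing.liftAlgebra B K
  have hst : IsScalarTower B L K := inferInstance
  have hcL : CharZero L := charZero_of_injective_algebraMap (IsFractionRing.injective B L)
  have hind : AlgebraicIndependent B g := by
    rw [algebraicIndependent_iff]
    intro p hp
    exact hg p hp
  have halg : Algebra.IsAlgebraic B L := IsLocalization.isAlgebraic L (nonZeroDivisors B)
  have hindL : AlgebraicIndependent L g := hind.extendScalars L
  obtain ⟨t, hst', ht⟩ := exists_isTranscendenceBasis_superset (R := L)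
    (s := Set.range g) hindL.to_subtype_range
  have hder : ∀ i : Fin e, ∃ D : Derivation L K K, ∀ l, D (g l) = if l = i then 1 else 0 := by
    intro i
    obtain ⟨D, hD⟩ := Pool.Agent.W602.GT.exists_der (fun x : t => x.1) ht
      (fun x => if x.1 = g i then 1 else 0)
    refine ⟨D, fun l => ?_⟩
    have h1 := hD ⟨g l, hst' ⟨l, rfl⟩⟩
    rw [h1]
    by_cases hl : l = i
    · rw [if_pos hl, hl, if_pos rfl]
    · rw [if_neg hl, if_neg]
      intro h2
      exact hl (hindL.injective h2)
  choose D hD using hder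
  refine ⟨fun i => D i, fun i x y => map_add (D i) x y, fun i x y => (D i).leibniz x y,
    fun i b => ?_, fun i l => hD i l⟩
  have h1 : algebraMap R K (φ b) = algebraMap L K (algebraMap B L b) := by
    rw [← IsScalarTower.algebraMap_apply B L K]
    rfl
  rw [h1]
  exact (D i).map_algebraMap _

section

variable {S : Set ℂ} {K : Type} [Field K] [Algebra (Hol S) K] [IsFractionRing (Hol S) K]
  {ι σ : Type} [Fintype σ]

/-- a derivation and tangent vectors -/
theorem der_key (hdom : IsDomain (Hol S)) (B : Subalgebra ℂ (Hol S)) (v : ι ⊕ σ → Hol S)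
    (hvB : ∀ i, v (Sum.inl i) ∈ B) (D : K → K) (hDadd : ∀ x y, D (x + y) = D x + D y)
    (hDmul : ∀ x y, D (x * y) = x * D y + y * D x)
    (hDB : ∀ x ∈ B, D (algebraMap (Hol S) K x) = 0) :
    ∃ (s : Hol S) (h : σ → Hol S), s ≠ 0 ∧ ∀ P : MvPolynomial (ι ⊕ σ) ℂ, ∃ H : Hol S,
      algebraMap (Hol S) K H = algebraMap (Hol S) K s * D (algebraMap (Hol S) K (aeval v P)) ∧
      ∀ (a : S) (W : ι ⊕ σ → MvPolynomial (ι ⊕ σ) ℂ),
        (∀ i, eval (fun l => evz a (v l)) (W (Sum.inl i)) = 0) →
        (∀ l, eval (fun l => evz a (v l)) (W (Sum.inr l)) = evz a (h l)) →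
        evz a H = eval (fun l => evz a (v l)) (mkDerivation ℂ W P) := by
  classical
  obtain ⟨s, hs⟩ := IsLocalization.exist_integer_multiples_of_finset (nonZeroDivisors (Hol S))
    (Finset.univ.image (fun l : σ => D (algebraMap (Hol S) K (v (Sum.inr l)))))
  have hs' : ∀ l : σ, ∃ h : Hol S, algebraMap (Hol S) K h
      = algebraMap (Hol S) K s * D (algebraMap (Hol S) K (v (Sum.inr l))) := by
    intro l
    obtain ⟨h, hh⟩ := hs _ (Finset.mem_image_of_mem _ (Finset.mem_univ l))
    refine ⟨h, ?_⟩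
    rw [hh, Algebra.smul_def]
  choose h hh using hs'
  refine ⟨s, h, nonZeroDivisors.ne_zero s.2, fun P => ?_⟩
  induction P using MvPolynomial.induction_on with
  | C c =>
    refine ⟨0, ?_, ?_⟩
    · rw [map_zero, algHom_C]
      have h1 : D (algebraMap (Hol S) K (algebraMap ℂ (Hol S) c)) = 0 :=
        hDB _ (B.algebraMap_mem c)
      rw [h1, mul_zero]
    · intro a W _ _
      simp
  | add p q hp hq =>
    obtain ⟨H1, h1, h1'⟩ := hp
    obtain ⟨H2, h2, h2'⟩ := hq
    refine ⟨H1 + H2, ?_, ?_⟩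
    · rw [map_add, h1, h2, map_add, map_add, hDadd]
      ring
    · intro a W hW1 hW2
      rw [map_add, h1' a W hW1 hW2, h2' a W hW1 hW2, map_add, map_add]
  | mul_X p j hp =>
    obtain ⟨H1, h1, h1'⟩ := hp
    obtain ⟨H2, h2, h2'⟩ : ∃ H2 : Hol S,
        algebraMap (Hol S) K H2 = algebraMap (Hol S) K s * D (algebraMap (Hol S) K (v j)) ∧
        ∀ (a : S) (W : ι ⊕ σ → MvPolynomial (ι ⊕ σ) ℂ),
          (∀ i, eval (fun l => evz a (v l)) (W (Sum.inl i)) = 0) →
          (∀ l, eval (fun l => evz a (v l)) (W (Sum.inr l)) = evz a (h l)) →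
          evz a H2 = eval (fun l => evz a (v l)) (W j) := by
      rcases j with i | l
      · refine ⟨0, ?_, ?_⟩
        · rw [map_zero, hDB _ (hvB i), mul_zero]
        · intro a W hW1 _
          rw [map_zero, hW1]
      · refine ⟨h l, hh l, ?_⟩
        intro a W _ hW2
        rw [hW2]
    refine ⟨H1 * v j + aeval v p * H2, ?_, ?_⟩
    · rw [map_add, map_mul, map_mul, h1, h2, map_mul, aeval_X, map_mul, hDmul]
      ring
    · intro a W hW1 hW2
      rw [map_add, map_mul, map_mul, h1' a W hW1 hW2, h2' a W hW1 hW2, Derivation.leibniz,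
        mkDerivation_X]
      simp only [smul_eq_mul, map_add, map_mul, eval_X]
      have h3 : evz a (aeval v p) = eval (fun l => evz a (v l)) p := by
        have h4 := MvPolynomial.comp_aeval_apply (f := v) (evz a) p
        rw [h4, ← MvPolynomial.aeval_eq_eval]
      rw [h3]
      ring

end

theorem tangents_aux {S : Set ℂ} {ι σ : Type} [Fintype σ] (hdom : IsDomain (Hol S))
    (B : Subalgebra ℂ (Hol S)) (v : ι ⊕ σ → Hol S)
    (hvB : ∀ i, v (Sum.inl i) ∈ B) {e : ℕ} (G : Fin (e + 1) → MvPolynomial (ι ⊕ σ) ℂ)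
    (hG0 : aeval v (G 0) ≠ 0)
    (hNA : ∀ (d : ℕ) (P : MvPolynomial (Fin (e + 1)) B), P.IsHomogeneous d →
      eval₂ B.val.toRingHom (fun j => aeval v (G j)) P = 0 → P = 0)
    (K : Type) [Field K] [Algebra (Hol S) K] [IsFractionRing (Hol S) K] :
    ∃ (a : S) (M : Fin e → σ → ℂ),
      (∀ i, ∀ W : ι ⊕ σ → MvPolynomial (ι ⊕ σ) ℂ,
        (∀ i, eval (fun l => evz a (v l)) (W (Sum.inl i)) = 0) →
        (∀ l, eval (fun l => evz a (v l)) (W (Sum.inr l)) = M i l) →
        ∀ P, aeval v P = 0 → eval (fun l => evz a (v l)) (mkDerivation ℂ W P) = 0) ∧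
      eval (fun l => evz a (v l)) (G 0) ≠ 0 ∧
      ∀ W : Fin e → ι ⊕ σ → MvPolynomial (ι ⊕ σ) ℂ,
        (∀ i i', eval (fun l => evz a (v l)) (W i (Sum.inl i')) = 0) →
        (∀ i l, eval (fun l => evz a (v l)) (W i (Sum.inr l)) = M i l) →
        (Matrix.of fun i l : Fin e =>
          eval (fun l => evz a (v l)) (mkDerivation ℂ (W i) (G l.succ)) *
            eval (fun l => evz a (v l)) (G 0) - eval (fun l => evz a (v l)) (G l.succ) *
            eval (fun l => evz a (v l)) (mkDerivation ℂ (W i) (G 0))).det ≠ 0 := by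
  classical
  have hdomB : IsDomain B := inferInstance
  have hcB : CharZero B := charZero_of_injective_algebraMap ((algebraMap ℂ B).injective)
  have hKi := IsFractionRing.injective (Hol S) K
  obtain ⟨x, hx⟩ : ∃ x : Fin (e + 1) → K, ∀ j, x j = algebraMap (Hol S) K (aeval v (G j)) :=
    ⟨_, fun j => rfl⟩
  have hx0 : x 0 ≠ 0 := by
    intro h
    exact hG0 (hKi (by rw [map_zero, ← hx]; exact h))
  obtain ⟨φ, hφ⟩ : ∃ φ : B →+* K, φ = (algebraMap (Hol S) K).comp B.val.toRingHom := ⟨_, rfl⟩
  have hx1 : ∀ (d : ℕ) (P : MvPolynomial (Fin (e + 1)) B), P.IsHomogeneous d →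
      eval₂ φ x P = 0 → P = 0 := by
    intro d P hP h
    apply hNA d P hP
    apply hKi
    have h1 := hom_eval₂ P B.val.toRingHom (algebraMap (Hol S) K) (fun j => aeval v (G j))
    rw [map_zero, h1, ← h, hφ, funext hx]
  have hx2 := indep_of_hom φ x hx0 hx1
  rw [hφ] at hx2
  obtain ⟨D, hDadd, hDmul, hDB', hD⟩ := exists_ders (B := B) (R := Hol S) (K := K)
    B.val.toRingHom Subtype.val_injective hKi (fun l => x l.succ / x 0) hx2
  choose s h hs hH using fun i => der_key hdom B v hvB (D i) (hDadd i) (hDmul i)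
    (fun x hx => hDB' i ⟨x, hx⟩)
  choose H hH1 hH2 using hH
  have hev : ∀ (a : S) (P : MvPolynomial (ι ⊕ σ) ℂ),
      evz a (aeval v P) = eval (fun l => evz a (v l)) P := by
    intro a p
    have h4 := MvPolynomial.comp_aeval_apply (f := v) (evz a) p
    rw [h4, ← MvPolynomial.aeval_eq_eval]
  have hdiag : ∀ i l : Fin e, H i (G l.succ) * aeval v (G 0) - aeval v (G l.succ) * H i (G 0) =
      if l = i then s i * aeval v (G 0) ^ 2 else 0 := by
    intro i l
    apply hKi
    have h2 : x l.succ = (x l.succ / x 0) * x 0 := by field_simp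
    have h3 : D i (x l.succ) = (x l.succ / x 0) * D i (x 0) + x 0 * if l = i then 1 else 0 := by
      conv_lhs => rw [h2]
      rw [hDmul, hD]
    have h4 : algebraMap (Hol S) K (H i (G l.succ)) = algebraMap (Hol S) K (s i) *
        D i (x l.succ) := by rw [hx]; exact hH1 i _
    have h5 : algebraMap (Hol S) K (H i (G 0)) = algebraMap (Hol S) K (s i) *
        D i (x 0) := by rw [hx]; exact hH1 i _
    rw [map_sub, map_mul, map_mul, h4, h5, h3]
    by_cases hl : l = i
    · rw [if_pos hl, if_pos hl, map_mul, map_pow, ← hx, ← hx]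
      field_simp
      ring
    · rw [if_neg hl, if_neg hl, map_zero, ← hx, ← hx]
      field_simp
      ring
  have hprod : (∏ i : Fin e, (s i * aeval v (G 0) ^ 2)) * aeval v (G 0) ≠ 0 :=
    mul_ne_zero (Finset.prod_ne_zero_iff.2 fun i _ => mul_ne_zero (hs i) (pow_ne_zero _ hG0)) hG0
  obtain ⟨a, ha⟩ : ∃ a : S,
      evz a ((∏ i : Fin e, (s i * aeval v (G 0) ^ 2)) * aeval v (G 0)) ≠ 0 := by
    by_contra hcon
    push Not at hcon
    exact hprod (hol_ext fun z => by rw [hcon z, map_zero])
  rw [map_mul, map_prod] at ha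
  have ha1 := left_ne_zero_of_mul ha
  have ha2 := right_ne_zero_of_mul ha
  refine ⟨a, fun i l => evz a (h i l), ?_, ?_, ?_⟩
  · intro i W hW1 hW2 P hP
    rw [← hH2 i P a W hW1 hW2]
    have hD0 : D i 0 = 0 := by
      have := hDadd i 0 0
      rw [add_zero] at this
      linear_combination - this
    have h1 := hH1 i P
    rw [hP, map_zero, hD0, mul_zero] at h1
    have : H i P = 0 := hKi (by rw [h1, map_zero])
    rw [this, map_zero]
  · rw [← hev]
    exact ha2
  · intro W hW1 hW2
    have h1 : (Matrix.of fun i l : Fin e =>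
          eval (fun l => evz a (v l)) (mkDerivation ℂ (W i) (G l.succ)) *
            eval (fun l => evz a (v l)) (G 0) - eval (fun l => evz a (v l)) (G l.succ) *
            eval (fun l => evz a (v l)) (mkDerivation ℂ (W i) (G 0))) =
        Matrix.diagonal fun i => evz a (s i * aeval v (G 0) ^ 2) := by
      ext i l
      rw [Matrix.of_apply, ← hH2 i _ a (W i) (hW1 i) (hW2 i), ← hH2 i _ a (W i) (hW1 i) (hW2 i),
        ← hev, ← hev, ← map_mul, ← map_mul, ← map_sub, hdiag, Matrix.diagonal_apply]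
      by_cases hl : l = i
      · rw [if_pos hl, if_pos hl.symm]
      · rw [if_neg hl, if_neg (fun h => hl h.symm), map_zero]
    rw [h1, Matrix.det_diagonal]
    exact ha1

theorem exists_tangents {S : Set ℂ} (hSc : IsPreconnected S) (hne : S.Nonempty)
    {ι σ : Type} [Fintype σ] (B : Subalgebra ℂ (Hol S)) (v : ι ⊕ σ → Hol S)
    (hvB : ∀ i, v (Sum.inl i) ∈ B) {e : ℕ} (G : Fin (e + 1) → MvPolynomial (ι ⊕ σ) ℂ)
    (hG0 : aeval v (G 0) ≠ 0)
    (hNA : ∀ (d : ℕ) (P : MvPolynomial (Fin (e + 1)) B), P.IsHomogeneous d →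
      eval₂ B.val.toRingHom (fun j => aeval v (G j)) P = 0 → P = 0) :
    ∃ (a : S) (M : Fin e → σ → ℂ),
      (∀ i, ∀ W : ι ⊕ σ → MvPolynomial (ι ⊕ σ) ℂ,
        (∀ i, eval (fun l => evz a (v l)) (W (Sum.inl i)) = 0) →
        (∀ l, eval (fun l => evz a (v l)) (W (Sum.inr l)) = M i l) →
        ∀ P, aeval v P = 0 → eval (fun l => evz a (v l)) (mkDerivation ℂ W P) = 0) ∧
      eval (fun l => evz a (v l)) (G 0) ≠ 0 ∧
      ∀ W : Fin e → ι ⊕ σ → MvPolynomial (ι ⊕ σ) ℂ,
        (∀ i i', eval (fun l => evz a (v l)) (W i (Sum.inl i')) = 0) →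
        (∀ i l, eval (fun l => evz a (v l)) (W i (Sum.inr l)) = M i l) →
        (Matrix.of fun i l : Fin e =>
          eval (fun l => evz a (v l)) (mkDerivation ℂ (W i) (G l.succ)) *
            eval (fun l => evz a (v l)) (G 0) - eval (fun l => evz a (v l)) (G l.succ) *
            eval (fun l => evz a (v l)) (mkDerivation ℂ (W i) (G 0))).det ≠ 0 := by
  have hdom : IsDomain (Hol S) := hol_domain hSc hne
  exact tangents_aux hdom B v hvB G hG0 hNA (FractionRing (Hol S))

end Pool.Agent.Q33.UR
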